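import Pool.Agent.N370.SQ.Dead

/-!
# Triangles with one vertex which is on no 4-cycle
-/

set_option autoImplicit false

namespace Pool.Agent.N370.SQ

variable {V : Type*} {G : SimpleGraph V}

variable (G) in
/-- vertices on 4-cycles with a neighbour of the same colour of kind `A` -/
def ZA (c : V → Bool) (z : V) : Prop := On G z ∧ ∃ v, G.Adj z v ∧ c z = c v ∧ A G v

theorem ZA.sg {c : V → Bool} {z : V} (h : ZA G c z) : Sg G c z :=
  ⟨h.1, h.2.elim fun v h => ⟨v, h.1, h.2.1⟩⟩

theorem Sg.cases [Fintype V] (hG : Cub G) (hS : Short G) {c : V → Bool} (h : Mn G c) {z : V}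
    (hz : Sg G c z) : SS G c z ∨ ZA G c z := by
  obtain ⟨hon, x', hx', hc⟩ := id hz
  rcases kinds (G := G) x' with hk | hk | hk
  · exact Or.inl ⟨hon, x', hx', hc, hk⟩
  · exact Or.inr ⟨hon, x', hx', hc, hk⟩
  · exact absurd hx' (hz.noI hG hS h hk)

theorem SS.not_ZA [Fintype V] (hG : Cub G) {c : V → Bool} (h : Mn G c) {z : V}
    (hz : SS G c z) : ¬ ZA G c z := by
  rintro ⟨hon, v, hv, cv, hA⟩
  obtain ⟨-, x, hx, cx, ox⟩ := hz
  have := h.unique hG hon.not_I hv hx cv cx
  subst this
  exact hA.1 ox

/-- All that is needed at a vertex of kind `ZA`. -/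
theorem ZA_str [Fintype V] (hG : Cub G) (hS : Short G) {c : V → Bool} (h : Mn G c) {z : V}
    (hz : ZA G c z) : ∃ v y p a b a' b', A G v ∧ On G y ∧ On G a ∧ On G b ∧ a ≠ y ∧ a ≠ v ∧
      b ≠ z ∧ b ≠ v ∧ G.Adj z v ∧ G.Adj v y ∧ G.Adj v p ∧ G.Adj z y ∧ G.Adj z a ∧ G.Adj y b ∧
      G.Adj a b ∧
      G.Adj a a' ∧ G.Adj b b' ∧ a' ≠ z ∧ a' ≠ b ∧ b' ≠ y ∧ b' ≠ a ∧ ¬ T3 G v p ∧
      c v = c z ∧ c y ≠ c z ∧ c a ≠ c z ∧ c b = c z ∧ c p ≠ c z ∧
      (∀ w, G.Adj z w → w = v ∨ w = y ∨ w = a) ∧ (∀ w, G.Adj v w → w = z ∨ w = y ∨ w = p) ∧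
      (∀ w, G.Adj y w → w = v ∨ w = z ∨ w = b) ∧ (∀ w, G.Adj a w → w = z ∨ w = b ∨ w = a') ∧
      (∀ w, G.Adj b w → w = y ∨ w = a ∨ w = b') ∧
      (∀ z', Sg G c z' → Cl G z z' → z' = a ∨ z' = b ∨ z' = a') ∧
      ¬ (Sg G c a ∧ Sg G c b) := by
  obtain ⟨hon, v, hzv, cv, hA⟩ := id hz
  obtain ⟨x, y, p, a, b, hxy, hxp, hyp, hvx, hvy, hvp, axy, Nv, hT, hxa, hyb, hab, av, ay, bv,
    bx, Nx, Ny, ox, oy, oa, ob, cx, cy, ca, cb, cp⟩ := A_col hG hS h hA
  have hzx : x = z := h.unique hG hA.not_I hvx hzv.symm cx.symm cv.symm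
  subst hzx
  obtain ⟨a', a'x, a'b, haa', Na⟩ := third hG hxa.symm hab bx.symm
  obtain ⟨b', b'y, b'a, hbb', Nb⟩ := third hG hyb.symm hab.symm ay.symm
  have cy' : c y ≠ c x := by rw [cx]; exact cy
  have ca' : c a ≠ c x := by rw [cx]; exact ca
  have cb' : c b = c x := by rw [cx]; exact cb
  have cp' : c p ≠ c x := by rw [cx]; exact cp
  have yno : ¬ Sg G c y := by
    rintro ⟨-, t, ht, ct⟩
    rcases Ny t ht with e | e | e
    · subst e; exact cy ct
    · subst e; exact cy' ct
    · subst e; exact cy' (ct.trans cb')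
  have pno : ¬ Sg G c p := by
    rintro ⟨op, t, ht, ct⟩
    exact h.off' hG op hvp.symm (fun h => hA.1 h.symm.on) (fun e => cp e.symm) t ht ct.symm
  have vno : ¬ Sg G c v := fun h => hA.1 h.1
  refine ⟨v, y, p, a, b, a', b', hA, oy, oa, ob, ay, av, bx, bv, hzv, hvy, hvp, axy, hxa, hyb,
    hab, haa', hbb', a'x, a'b, b'y, b'a, hT, cx.symm, cy', ca', cb', cp', Nx, Nv, Ny, Na, Nb,
    ?_, ?_⟩
  · rintro z' hz' ⟨hne, hadj | ⟨m, hzm, hmz'⟩⟩
    · rcases Nx z' hadj with e | e | e
      · exact absurd (e ▸ hz') vno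
      · exact absurd (e ▸ hz') yno
      · exact Or.inl e
    · rcases Nx m hzm with e | e | e
      · subst e
        rcases Nv z' hmz' with e | e | e
        · exact absurd e.symm hne
        · exact absurd (e ▸ hz') yno
        · exact absurd (e ▸ hz') pno
      · subst e
        rcases Ny z' hmz' with e | e | e
        · exact absurd (e ▸ hz') vno
        · exact absurd e.symm hne
        · exact Or.inr (Or.inl e)
      · subst e
        rcases Na z' hmz' with e | e | e
        · exact absurd e.symm hne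
        · exact Or.inr (Or.inl e)
        · exact Or.inr (Or.inr e)
  · rintro ⟨⟨-, t, ht, ct⟩, -, t', ht', ct'⟩
    have e1 : t = a' := by
      rcases Na t ht with e | e | e
      · subst e; exact absurd ct ca'
      · subst e; exact absurd (ct.trans cb') ca'
      · exact e
    have e2 : t' = b' := by
      rcases Nb t' ht' with e | e | e
      · subst e; exact absurd (ct'.symm.trans cb') cy'
      · subst e; exact absurd (ct'.symm.trans cb') ca'
      · exact e
    subst e1; subst e2
    have ta : t ≠ y := by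
      rintro rfl
      rcases Ny a ht.symm with e | e | e
      · exact av e
      · exact hxa.ne e.symm
      · exact hab.ne e
    have tb : t' ≠ x := by
      rintro rfl
      rcases Nx b ht'.symm with e | e | e
      · exact bv e
      · exact hyb.ne e.symm
      · exact hab.ne e.symm
    have hD := h.nonneg hG {w | w ∈ [x, y, a, b]}
    rw [D_list _ _ (by
      simp [hxy, hxa.ne, bx.symm, ay.symm, hyb.ne, hab.ne])] at hD
    simp only [List.map_cons, List.map_nil, List.sum_cons, List.sum_nil, add_zero] at hD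
    have vX : v ∉ ({w | w ∈ [x, y, a, b]} : Set V) := by
      simp [hvx.ne, hvy.ne, av.symm, bv.symm]
    have a1 : nr G c {w | w ∈ [x, y, a, b]} x ≤ -20 := by
      rw [nr_eq hvy.ne av.symm ay.symm Nx, ev_in (v := y) (by simp), ev_in (v := a) (by simp),
        ev_mono vX cx]
      have := wt_ge hvx.symm ox.not_I
      linarith
    have a2 : nr G c {w | w ∈ [x, y, a, b]} y ≤ 20 := by
      rw [nr_eq hvx.ne bv.symm bx.symm Ny, ev_in (v := x) (by simp), ev_in (v := b) (by simp)]
      have := ev_le (G := G) (c := c) (X := {w | w ∈ [x, y, a, b]}) (u := y) (v := v)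
      have := wt_plain hvy.symm (fun h => hA.1 h.symm.on) oy.not_I hA.not_I
      linarith
    have a3 : nr G c {w | w ∈ [x, y, a, b]} a ≤ -20 := by
      rw [nr_eq bx.symm a'x.symm a'b.symm Na, ev_in (v := x) (by simp), ev_in (v := b) (by simp),
        ev_mono (by simp [a'x, a'b, ta, ht.ne.symm]) ct]
      have := wt_ge ht oa.not_I
      linarith
    have a4 : nr G c {w | w ∈ [x, y, a, b]} b ≤ -20 := by
      rw [nr_eq ay.symm b'y.symm b'a.symm Nb, ev_in (v := y) (by simp), ev_in (v := a) (by simp),
        ev_mono (by simp [b'y, b'a, tb, ht'.ne.symm]) ct']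
      have := wt_ge ht' ob.not_I
      linarith
    linarith

/-- L4 (i) -/
theorem za_one [Fintype V] (hG : Cub G) (hS : Short G) {c : V → Bool} (h : Mn G c) {z z' : V}
    (hz : ZA G c z) (hz' : ZA G c z') (hcl : Cl G z z') :
    ∀ z'', Sg G c z'' → Cl G z z'' → z'' = z' := by
  obtain ⟨v, y, p, a, b, a', b', hA, oy, oa, ob, ay, av, bz, bv, hzv, hvy, hvp, hzy, hza, hyb,
    hab, haa', hbb', a'z, a'b, b'y, b'a, hT, cv, cy, ca, cb, cp, Nz, Nv, Ny, Na, Nb, pos, F1⟩ :=
    ZA_str hG hS h hz
  intro z'' hs'' hcl''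
  rcases pos z' hz'.sg hcl with e | e | e
  · -- z' = a
    subst e
    obtain ⟨-, t, ht, ct, tA⟩ := hz'
    have e1 : t = a' := by
      rcases Na t ht with e | e | e
      · subst e; exact absurd ct ca
      · subst e; exact absurd (ct.trans cb) ca
      · exact e
    subst e1
    rcases pos z'' hs'' hcl'' with e | e | e
    · exact e
    · exact absurd ⟨⟨oa, t, ht, ct⟩, e ▸ hs''⟩ F1
    · exact absurd (e ▸ hs''.1) tA.1
  · -- z' = b
    subst e
    have hb := hz'.sg
    obtain ⟨-, t, ht, ct, tA⟩ := hz'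
    obtain ⟨x2, y2, p2, a2, b2, -, -, -, htx, hty, htp, axy, Nt, -, -, -, -, -, -, -,
      -, Nx, -, -, oy2, -, -, cx2, -⟩ := A_col hG hS h tA
    have e2 : x2 = z' := h.unique hG tA.not_I htx ht.symm cx2.symm ct.symm
    subst e2
    have e3 : y2 = a := by
      rcases Nb y2 axy with e | e | e
      · subst e
        exfalso
        rcases Ny t hty.symm with e | e | e
        · subst e
          rcases Nv x2 htx with e | e | e
          · exact bz e
          · exact hyb.ne e.symm
          · subst e
            exact hT ⟨hvp, y2, hvy, hyb.symm⟩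
        · subst e; exact tA.1 hz.1
        · exact ht.ne e.symm
      · exact e
      · exfalso
        -- y2 = b' = t
        have : t = b' := by
          rcases Nb t ht with e' | e' | e'
          · subst e'; exact absurd (ct.symm.trans cb) cy
          · subst e'; exact absurd (ct.symm.trans cb) ca
          · exact e'
        exact hty.ne (this.trans e.symm)
    subst e3
    have e4 : t = a' := by
      rcases Na t hty.symm with e | e | e
      · subst e; exact absurd hz.1 tA.1
      · exact absurd e.symm ht.ne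
      · exact e
    rcases pos z'' hs'' hcl'' with e | e | e
    · exact absurd ⟨e ▸ hs'', hb⟩ F1
    · exact e
    · subst e; subst e4; exact absurd hs''.1 tA.1
  · -- z' = a'
    subst e
    obtain ⟨oz', t, ht, ct, tA⟩ := hz'
    have cna : c z' ≠ c a := by
      intro e
      have := h.unique hG oz'.not_I haa'.symm ht e ct
      subst this
      exact tA.1 oa
    have ano : ¬ Sg G c a := by
      rintro ⟨-, t3, ht3, ct3⟩
      rcases Na t3 ht3 with e | e | e
      · subst e; exact ca ct3
      · subst e; exact ca (ct3.trans cb)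
      · subst e; exact cna ct3.symm
    have cz' : c z' = c z := eq_of_ne_ne cna (fun e => ca e.symm)
    obtain ⟨x3, y3, p3, a3, b3, -, -, -, htx, hty, htp, axy, Nt, -, hxa3, hyb3, hab3, a3t, a3y,
      b3t, b3x, Nx, Ny3, -, oy3, -, -, cx3, cy3, -⟩ := A_col hG hS h tA
    have e2 : x3 = z' := h.unique hG tA.not_I htx ht.symm cx3.symm ct.symm
    subst e2
    have tno : ¬ G.Adj y t := by
      intro hyt
      rcases Ny t hyt with e | e | e
      · subst e
        rcases Nv x3 htx with e | e | e
        · exact a'z e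
        · subst e
          rcases Ny a haa'.symm with e | e | e
          · exact av e
          · exact hza.ne e.symm
          · exact hab.ne e
        · subst e; exact cp cz'
      · subst e; exact tA.1 hz.1
      · subst e; exact tA.1 ob
    have e3 : a3 = a := by
      rcases Nx a haa'.symm with e | e | e
      · subst e; exact absurd oa tA.1
      · subst e
        exfalso
        rcases Na t hty.symm with e | e | e
        · subst e; exact tA.1 hz.1
        · subst e; exact tA.1 ob
        · exact ht.ne e.symm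
      · exact e.symm
    subst e3
    have e4 : b3 = b := by
      rcases Na b3 hab3 with e | e | e
      · subst e
        exfalso
        rcases Nz y3 hyb3.symm with e | e | e
        · subst e; exact hA.1 oy3
        · subst e; exact tno hty.symm
        · exact a3y e.symm
      · exact e
      · exact absurd e b3x
    subst e4
    have e5 : y3 = b' := by
      rcases Nb y3 hyb3.symm with e | e | e
      · subst e; exact absurd hty.symm tno
      · exact absurd e.symm a3y
      · exact e
    have bno : ¬ Sg G c b3 := by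
      rintro ⟨-, t3, ht3, ct3⟩
      rcases Nb t3 ht3 with e | e | e
      · subst e; exact cy (ct3.symm.trans cb)
      · subst e; exact ca (ct3.symm.trans cb)
      · have : t3 = y3 := e.trans e5.symm
        subst this
        exact cy3 ((ct3.symm.trans cb).trans (cz'.symm.trans ct))
    rcases pos z'' hs'' hcl'' with e | e | e
    · exact absurd (e ▸ hs'') ano
    · exact absurd (e ▸ hs'') bno
    · exact e

/-- L4 (ii) -/
theorem za_col [Fintype V] (hG : Cub G) (hS : Short G) {c : V → Bool} (h : Mn G c) {z z' : V}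
    (hz : ZA G c z) (hz' : Sg G c z') (hcl : Cl G z z') (hc : c z' = c z) :
    ∀ z'', Sg G c z'' → Cl G z z'' → c z'' = c z := by
  obtain ⟨v, y, p, a, b, a', b', hA, oy, oa, ob, ay, av, bz, bv, hzv, hvy, hvp, hzy, hza, hyb,
    hab, haa', hbb', a'z, a'b, b'y, b'a, hT, cv, cy, ca, cb, cp, Nz, Nv, Ny, Na, Nb, pos, F1⟩ :=
    ZA_str hG hS h hz
  intro z'' hs'' hcl''
  have hna : ¬ Sg G c a := by
    intro hsa
    rcases pos z' hz' hcl with e | e | e
    · subst e; exact ca hc
    · exact F1 ⟨hsa, e ▸ hz'⟩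
    · subst e
      obtain ⟨-, t, ht, ct⟩ := hsa
      rcases Na t ht with e | e | e
      · subst e; exact ca ct
      · subst e; exact ca (ct.trans cb)
      · subst e; exact ca (ct.trans hc)
  rcases pos z'' hs'' hcl'' with e | e | e
  · exact absurd (e ▸ hs'') hna
  · rw [e]; exact cb
  · subst e
    by_contra hne
    exact hna ⟨oa, z'', haa', eq_of_ne_ne ca hne⟩

end Pool.Agent.N370.SQ
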