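import Pool.Agent.N370.SQ.Wt

/-!
# First properties of minimal colourings
-/

set_option autoImplicit false

namespace Pool.Agent.N370.SQ

variable {V : Type*} {G : SimpleGraph V}

theorem Mn.unique [Fintype V] (hG : Cub G) {c : V → Bool} (h : Mn G c) {v a b : V}
    (hv : ¬ I G v) (ha : G.Adj v a) (hb : G.Adj v b) (hca : c v = c a) (hcb : c v = c b) :
    a = b := by
  by_contra hab
  obtain ⟨t, ta, tb, ht, hN⟩ := third hG ha hb hab
  have hD := h.nonneg hG {x | x ∈ [v]}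
  rw [D_list _ _ (by simp)] at hD
  simp only [List.map_cons, List.map_nil, List.sum_cons, List.sum_nil, add_zero] at hD
  rw [nr_eq hab ta.symm tb.symm hN, ev_mono (by simpa using ha.ne.symm) hca,
    ev_mono (by simpa using hb.ne.symm) hcb] at hD
  have h1 := wt_ge ha hv
  have h2 := wt_ge hb hv
  have h3 := wt_le (G := G) v t
  have h4 := ev_le (G := G) (c := c) (X := {x | x ∈ [v]}) (u := v) (v := t)
  linarith

theorem Mn.leave [Fintype V] (hG : Cub G) {c : V → Bool} (h : Mn G c) (X : Set V)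
    (hX : ∀ u ∈ X, ∀ v, v ∉ X → G.Adj u v → c u = c v) {u v : V} (hu : u ∈ X) (hv : v ∉ X) :
    ¬ G.Adj u v := by
  classical
  intro huv
  have hD := h.nonneg hG X
  rw [D_eq c X X.toFinset (by simp)] at hD
  have hev : ∀ u ∈ X, ∀ v, ev G c X u v ≤ 0 := by
    intro u hu v
    by_cases hv : v ∈ X
    · rw [ev_in hv]
    · by_cases huv : G.Adj u v
      · rw [ev_mono hv (hX u hu v hv huv)]
        have := wt_nonneg (G := G) u v
        linarith
      · rw [ev_not huv]
  have hnr : ∀ u ∈ X.toFinset, nr G c X u ≤ 0 := by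
    intro u hu
    exact Finset.sum_nonpos fun v _ => hev u (by simpa using hu) v
  have hlt : nr G c X u < 0 := by
    unfold nr
    have : ∑ v, ev G c X u v < ∑ v : V, (0 : ℤ) := by
      refine Finset.sum_lt_sum (fun v _ => hev u hu v) ⟨v, Finset.mem_univ _, ?_⟩
      rw [ev_mono hv (hX u hu v hv huv)]
      have := wt_ge_ten huv
      linarith
    simpa using this
  have : ∑ u ∈ X.toFinset, nr G c X u < ∑ u ∈ X.toFinset, (0 : ℤ) :=
    Finset.sum_lt_sum hnr ⟨u, by simpa using hu, hlt⟩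
  rw [Finset.sum_const_zero] at this
  linarith

/-- Edges leaving isolated triangles have two colours. -/
theorem Mn.token [Fintype V] (hG : Cub G) (hS : Short G) {c : V → Bool} (h : Mn G c) {i j : V}
    (hi : I G i) (hij : G.Adj i j) (hT : ¬ T3 G i j) : c i ≠ c j := by
  intro hc
  obtain ⟨x, y, z, hxy, hxz, hyz, hix, hiy, hiz, axy, hN, tx, ty, tz, ix, iy⟩ := I_struct hG hS hi
  have hj : j = z := by
    rcases hN j hij with e | e | e
    · subst e; exact absurd tx hT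
    · subst e; exact absurd ty hT
    · exact e
  subst hj
  have hD := h.nonneg hG {x | x ∈ [i]}
  rw [D_list _ _ (by simp)] at hD
  simp only [List.map_cons, List.map_nil, List.sum_cons, List.sum_nil, add_zero] at hD
  rw [nr_eq hxy hxz hyz hN, ev_mono (v := j) (by simpa using hij.ne.symm) hc] at hD
  have h1 := wt_port hi hij hT
  have h2 := wt_inner hi tx
  have h3 := wt_inner hi ty
  have h4 := ev_le (G := G) (c := c) (X := {x | x ∈ [i]}) (u := i) (v := x)
  have h5 := ev_le (G := G) (c := c) (X := {x | x ∈ [i]}) (u := i) (v := y)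
  linarith

theorem Mn.square [Fintype V] (hG : Cub G) {c : V → Bool} (h : Mn G c) {x1 x2 x3 x4 : V}
    (h12 : G.Adj x1 x2) (h23 : G.Adj x2 x3) (h34 : G.Adj x3 x4) (h41 : G.Adj x4 x1)
    (n13 : x1 ≠ x3) (n24 : x2 ≠ x4) (c12 : c x1 = c x2) : c x3 = c x4 ∧ c x1 ≠ c x4 := by
  have hC : C4 G x1 x2 := ⟨h12, x3, x4, h23, h34, h41, n13, n24⟩
  have h1 : c x4 ≠ c x1 := fun e => n24 (h.unique hG hC.on.not_I h12 h41.symm c12 e.symm)
  have h2 : c x3 ≠ c x2 :=
    fun e => n13 (h.unique hG hC.symm.on.not_I h12.symm h23 c12.symm e.symm)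
  refine ⟨eq_of_ne_ne (d := c x1) (by rw [c12]; exact h2) h1, h1.symm⟩

/-- Change of a 4-cycle with two monochromatic edges. -/
theorem Mn.step [Fintype V] (hG : Cub G) {c : V → Bool} (h : Mn G c) {x1 x2 x3 x4 y1 y4 : V}
    (h12 : G.Adj x1 x2) (h23 : G.Adj x2 x3) (h34 : G.Adj x3 x4) (h41 : G.Adj x4 x1)
    (n13 : x1 ≠ x3) (n24 : x2 ≠ x4) (c12 : c x1 = c x2) (c34 : c x3 = c x4) (c14 : c x1 ≠ c x4)
    (hy1 : G.Adj x1 y1) (y12 : y1 ≠ x2) (y14 : y1 ≠ x4)
    (hy4 : G.Adj x4 y4) (y41 : y4 ≠ x1) (y43 : y4 ≠ x3) :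
    Mn G (flip c {x1, x4}) ∧ C4 G x1 y1 ∧ C4 G x4 y4 := by
  have N1 := three hG h12 h41.symm hy1 n24 y12.symm y14.symm
  have N4 := three hG h34.symm h41 hy4 n13.symm y43.symm y41.symm
  have C12 : C4 G x1 x2 := ⟨h12, x3, x4, h23, h34, h41, n13, n24⟩
  have C34 : C4 G x3 x4 := ⟨h34, x1, x2, h41, h12, h23, n13.symm, n24.symm⟩
  have e0 : ({x1, x4} : Set V) = {x | x ∈ [x1, x4]} := by ext x; simp
  have hD := h.nonneg hG {x | x ∈ [x1, x4]}
  have hDe : D G c {x | x ∈ [x1, x4]} = -44 + ev G c {x | x ∈ [x1, x4]} x1 y1 +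
      ev G c {x | x ∈ [x1, x4]} x4 y4 := by
    rw [D_list _ _ (by simp [h41.ne.symm])]
    simp only [List.map_cons, List.map_nil, List.sum_cons, List.sum_nil, add_zero]
    rw [nr_eq n24 y12.symm y14.symm N1, nr_eq n13.symm y43.symm y41.symm N4,
      ev_mono (v := x2) (by simp [h12.ne.symm, n24]) c12, ev_in (v := x4) (by simp),
      ev_mono (v := x3) (by simp [n13.symm, h34.ne]) c34.symm, ev_in (v := x1) (by simp),
      wt_c4 C12, wt_c4 C34.symm]
    ring
  have l1 := ev_le (G := G) (c := c) (X := {x | x ∈ [x1, x4]}) (u := x1) (v := y1)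
  have l4 := ev_le (G := G) (c := c) (X := {x | x ∈ [x1, x4]}) (u := x4) (v := y4)
  have m1 := wt_le (G := G) x1 y1
  have m4 := wt_le (G := G) x4 y4
  refine ⟨?_, ?_, ?_⟩
  · rw [e0]
    exact h.of_flip hG (by rw [hDe]; linarith)
  · by_contra hno
    have := wt_noc4 hno
    linarith
  · by_contra hno
    have := wt_noc4 hno
    linarith

/-- A vertex on a 4-cycle with an edge in no 4-cycle. -/
theorem Mn.off [Fintype V] (hG : Cub G) {c : V → Bool} (h : Mn G c) {v x : V} (hon : On G v)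
    (hvx : G.Adj v x) (hno : ¬ C4 G v x) : ∀ a, G.Adj v a → a ≠ x → c a ≠ c v := by
  obtain ⟨a, s, b, h1, h2, h3, h4, h5, h6⟩ := hon.square
  have main : ∀ a b, G.Adj v a → G.Adj a s → G.Adj s b → G.Adj b v → a ≠ b → c a ≠ c v := by
    intro a b h1 h2 h3 h4 h6 e
    have ca : C4 G v a := ⟨h1, s, b, h2, h3, h4, h5, h6⟩
    have cb : C4 G v b := ⟨h4.symm, s, a, h3.symm, h2.symm, h1.symm, h5, h6.symm⟩
    have xa : x ≠ a := fun e => hno (e ▸ ca)
    have xb : x ≠ b := fun e => hno (e ▸ cb)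
    obtain ⟨c34, c14⟩ := h.square hG h1 h2 h3 h4 h5 h6 e.symm
    obtain ⟨y4, y43, y41, hy4, -⟩ := third hG h3.symm h4 h5.symm
    exact hno (h.step hG h1 h2 h3 h4 h5 h6 e.symm c34 c14 hvx xa xb hy4 y41 y43).2.1
  have ca : C4 G v a := ⟨h1, s, b, h2, h3, h4, h5, h6⟩
  have cb : C4 G v b := ⟨h4.symm, s, a, h3.symm, h2.symm, h1.symm, h5, h6.symm⟩
  have xa : x ≠ a := fun e => hno (e ▸ ca)
  have xb : x ≠ b := fun e => hno (e ▸ cb)
  intro a' ha' hne
  rcases three hG h1 h4.symm hvx h6 xa.symm xb.symm a' ha' with rfl | rfl | rfl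
  · exact main a' b h1 h2 h3 h4 h6
  · exact main a' a h4.symm h3.symm h2.symm h1.symm h6.symm
  · exact absurd rfl hne

/-- A vertex with an edge of two colours in no 4-cycle is not an end of a monochromatic edge,
if it is on a 4-cycle. -/
theorem Mn.off' [Fintype V] (hG : Cub G) {c : V → Bool} (h : Mn G c) {v x : V} (hon : On G v)
    (hvx : G.Adj v x) (hno : ¬ C4 G v x) (hc : c x ≠ c v) : ∀ a, G.Adj v a → c a ≠ c v := by
  intro a ha
  by_cases e : a = x
  · rw [e]; exact hc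
  · exact h.off hG hon hvx hno a ha e

end Pool.Agent.N370.SQ
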