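import Pool.Agent.N370.SQ.Cut

/-!
# Conflicts between ends of monochromatic edges
-/

set_option autoImplicit false

namespace Pool.Agent.N370.SQ

variable {V : Type*} {G : SimpleGraph V}

variable (G) in
/-- `x` and `y` are ends of different monochromatic edges with one colour and have a common
neighbour of the other colour. -/
def Conf (c : V → Bool) (x y : V) : Prop :=
  x ≠ y ∧ c x = c y ∧ ¬ G.Adj x y ∧ (∃ x', G.Adj x x' ∧ c x = c x') ∧
    (∃ y', G.Adj y y' ∧ c y = c y') ∧ ∃ w, G.Adj x w ∧ G.Adj w y ∧ c w ≠ c x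

theorem Conf.symm {c : V → Bool} {x y : V} (h : Conf G c x y) : Conf G c y x := by
  obtain ⟨h1, h2, h3, h4, h5, w, h6, h7, h8⟩ := h
  exact ⟨h1.symm, h2.symm, fun h => h3 h.symm, h5, h4, w, h7.symm, h6.symm, fun h => h8 (h.trans h2.symm)⟩

/-- No conflict at monochromatic edges in 4-cycles. -/
theorem no_conf [Fintype V] (hG : Cub G) {c : V → Bool} (h : Opt G c) {x1 x2 y : V}
    (hC : C4 G x1 x2) (c12 : c x1 = c x2) : ¬ Conf G c x1 y := by
  rintro ⟨hxy, cxy, nadj, -, ⟨v, hyv, cyv⟩, w, hxw, hwy, cw⟩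
  obtain ⟨h12, x3, x4, h23, h34, h41, n13, n24⟩ := hC
  obtain ⟨c34, c14⟩ := h.square hG h12 h23 h41 n13 n24 c12
  obtain ⟨y1, y12, y14, hy1, N1⟩ := third hG h12 h41.symm n24
  obtain ⟨y4, y43, y41, hy4, N4⟩ := third hG h34.symm h41 n13.symm
  obtain ⟨h', hC1, hC4⟩ := h.step hG h12 h23 h34 h41 n13 n24 c12 c34 c14 hy1 y12 y14 hy4 y41 y43
  set c' := flip c {x1, x4} with hc'
  have e1 : c' x1 = !(c x1) := flip_in (by simp)
  have e4 : c' x4 = !(c x4) := flip_in (by simp)
  have eo : ∀ v, v ≠ x1 → v ≠ x4 → c' v = c v := fun v h1 h2 => flip_out (by simp [h1, h2])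
  have cy1 : c x1 ≠ c y1 := fun e => y12 (h.unique hG hy1 h12 e c12)
  have cy4 : c x4 ≠ c y4 := fun e => y43 (h.unique hG hy4 h34.symm e c34.symm)
  have m1 : c' x1 = c' y1 := by
    rw [e1, eo y1 hy1.ne.symm y14]; exact not_eq_of_ne cy1
  have m4 : c' x4 = c' y4 := by
    rw [e4, eo y4 y41 hy4.ne.symm]; exact not_eq_of_ne cy4
  -- `y1` and `y4` are adjacent
  have h14 : G.Adj y1 y4 := by
    obtain ⟨-, r, s, hyr, hrs, hsx, nxr, nys⟩ := hC1
    obtain ⟨crs, cxs⟩ := h'.square hG hy1 hyr hsx nxr nys m1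
    rcases N1 s hsx.symm with rfl | rfl | rfl
    · -- s = x2
      have hr : r = x4 := by
        by_contra hr
        have e2 : c' s = c s := eo s h12.ne.symm n24
        rw [e2, eo r nxr.symm hr] at crs
        exact nxr (h.unique hG h12.symm hrs.symm c12.symm crs.symm)
      subst hr
      have k1 : s = y4 := by
        rcases N4 s hrs with h | h | h
        · exact absurd h h23.ne
        · exact absurd h h12.ne.symm
        · exact h
      have k2 : y1 = x3 := by
        rcases N4 y1 hyr.symm with h | h | h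
        · exact h
        · exact absurd h hy1.ne.symm
        · exact absurd (h.trans k1.symm) y12
      rw [k2, ← k1]; exact h23.symm
    · -- s = x4
      have hr : r = y4 := by
        rcases N4 r hrs.symm with h | h | h
        · exfalso
          subst h
          rw [eo r n13.symm h34.ne, e4] at crs
          exact ne_of_not_eq crs.symm c34.symm
        · exact absurd h nxr.symm
        · exact h
      rw [← hr]; exact hyr
    · exact absurd rfl nys
  -- `y4` is not the end of a monochromatic edge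
  have hy4no : ∀ v, G.Adj y4 v → c y4 = c v → v = x1 := by
    intro v hv cv
    by_contra hv1
    have hv4 : v ≠ x4 := by
      rintro rfl
      exact cy4 cv.symm
    have := h'.unique hG hv hy4.symm (by rw [eo y4 y41 hy4.ne.symm, eo v hv1 hv4]; exact cv) m4.symm
    exact hv4 this
  have hyy4 : y ≠ y4 := by
    rintro rfl
    have := hy4no v hyv cyv
    subst this
    exact nadj hyv.symm
  -- position of `w`
  rcases N1 w hxw with rfl | rfl | rfl
  · exact cw c12.symm
  · rcases N4 y hwy with rfl | rfl | rfl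
    · exact c14 (cxy.trans c34)
    · exact hxy rfl
    · exact hyy4 rfl
  · -- w = y1, y = t
    have hyx4 : y ≠ x4 := by
      rintro rfl
      exact c14 cxy
    have hxy4 : x1 ≠ y4 := y41.symm
    obtain ⟨t4, t41, t44, ht4, N4'⟩ := third hG h14.symm hy4.symm y14
    have cw4 : c' w ≠ c' y4 := by
      rw [eo w hy1.ne.symm y14, eo y4 y41 hy4.ne.symm]
      intro e
      have h1 : c x1 ≠ c y4 := by
        intro e2
        exact cy1 (e2.trans e.symm)
      exact c14 (eq_of_ne_ne h1 cy4)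
    obtain ⟨h'', -, -⟩ := h'.step hG (x1 := w) (x2 := x1) (x3 := x4) (x4 := y4) (y1 := y) (y4 := t4)
      hy1.symm h41.symm hy4 h14.symm y14 hxy4 m1.symm m4 cw4 hwy hxy.symm hyy4 ht4 t41 t44
    set c'' := flip c' {w, y4} with hc''
    have f1 : c'' w = !(c' w) := flip_in (by simp)
    have fo : ∀ v, v ≠ w → v ≠ y4 → c'' v = c' v := fun v h1 h2 => flip_out (by simp [h1, h2])
    have g1 : c'' y = c y := by rw [fo y hwy.ne.symm hyy4, eo y hxy.symm hyx4]
    have g2 : c'' w = c y := by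
      rw [f1, eo w hy1.ne.symm y14, ← cxy]
      exact not_eq_of_ne (fun e => cy1 e.symm)
    have hvx1 : v ≠ x1 := by
      rintro rfl
      exact nadj hyv.symm
    have hvx4 : v ≠ x4 := by
      rintro rfl
      exact c14 (cxy.trans cyv)
    have hvw : v ≠ w := by
      rintro rfl
      exact cy1 (cxy.trans cyv)
    have hvy4 : v ≠ y4 := by
      rintro rfl
      exact hxy.symm (hy4no y hyv.symm cyv.symm)
    have g3 : c'' v = c v := by rw [fo v hvw hvy4, eo v hvx1 hvx4]
    exact hvw (h''.unique hG hyv hwy.symm (by rw [g1, g3]; exact cyv) (by rw [g1, g2]))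

variable (G) in
/-- every vertex is on a 4-cycle -/
def AllC4 : Prop := ∀ v, ∃ a s b, G.Adj v a ∧ G.Adj a s ∧ G.Adj s b ∧ G.Adj b v ∧ v ≠ s ∧ a ≠ b

/-- The neighbourhood of an end of a conflict. -/
theorem conf_nbhd [Fintype V] (hG : Cub G) (hH : AllC4 G) {c : V → Bool} (h : Opt G c) {x y : V}
    (hxy : Conf G c x y) : ∃ x' w s w1, G.Adj x x' ∧ c x = c x' ∧ ¬ C4 G x x' ∧ G.Adj x w ∧
      G.Adj w s ∧ G.Adj s w1 ∧ G.Adj w1 x ∧ x ≠ s ∧ w ≠ w1 ∧ c w ≠ c x ∧ c w1 ≠ c x ∧ c s = c x ∧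
      (∀ z, G.Adj x z → z = w ∨ z = w1 ∨ z = x') := by
  obtain ⟨-, -, -, ⟨x', hxx', cxx'⟩, -⟩ := id hxy
  have hno : ¬ C4 G x x' := fun hC => no_conf hG h hC cxx' hxy
  obtain ⟨a, s, b, h1, h2, h3, h4, h5, h6⟩ := hH x
  have ca : c a ≠ c x := by
    intro e
    have := h.unique hG h1 hxx' e.symm cxx'
    subst this
    exact hno ⟨h1, s, b, h2, h3, h4, h5, h6⟩
  have cb : c b ≠ c x := by
    intro e
    have := h.unique hG h4.symm hxx' e.symm cxx'
    subst this
    exact hno ⟨h4.symm, s, a, h3.symm, h2.symm, h1.symm, h5, h6.symm⟩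
  have cs : c s = c x := by
    by_contra e
    exact h6 (h.unique hG h2.symm h3 (eq_of_ne_ne e ca) (eq_of_ne_ne e cb))
  refine ⟨x', a, s, b, hxx', cxx', hno, h1, h2, h3, h4, h5, h6, ca, cb, cs, ?_⟩
  refine three hG h1 h4.symm hxx' h6 ?_ ?_
  · rintro rfl; exact ca cxx'.symm
  · rintro rfl; exact cb cxx'.symm

/-- The 4-cycle of the other end of a conflict. -/
theorem conf_other [Fintype V] (hG : Cub G) (hH : AllC4 G) {c : V → Bool} (h : Opt G c)
    {x r x' w s w1 : V} (hxr : Conf G c x r) (hxx' : G.Adj x x') (cxx' : c x = c x')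
    (hno : ¬ C4 G x x') (hxw : G.Adj x w) (hws : G.Adj w s) (hsw1 : G.Adj s w1)
    (nxs : x ≠ s) (nww1 : w ≠ w1) (cw : c w ≠ c x)
    (hN : ∀ z, G.Adj x z → z = w ∨ z = w1 ∨ z = x') (hwr : G.Adj w r) (nrs : r ≠ s) :
    G.Adj w1 r ∨ ∃ v, v ≠ w ∧ v ≠ w1 ∧ G.Adj s v ∧ G.Adj v r ∧ c v ≠ c r := by
  have cxr : c x = c r := hxr.2.1
  have Nw := three hG hxw.symm hws hwr nxs hxr.1 nrs.symm
  obtain ⟨r', a, q, b, g1, g2, g3, g4, g5, g6, g7, g8, g9, g10, g11, g12, g13⟩ :=
    conf_nbhd hG hH h hxr.symm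
  -- the 4-cycle `r w q v`
  have main : ∀ q v, G.Adj w q → G.Adj q v → G.Adj v r → r ≠ q → w ≠ v → c v ≠ c r →
      G.Adj w1 r ∨ ∃ v, v ≠ w ∧ v ≠ w1 ∧ G.Adj s v ∧ G.Adj v r ∧ c v ≠ c r := by
    intro q v hwq hqv hvr nrq nwv cv
    rcases Nw q hwq with rfl | rfl | rfl
    · rcases hN v hqv with rfl | rfl | rfl
      · exact absurd rfl nwv
      · exact Or.inl hvr
      · exfalso
        exact hno ⟨hxx', r, w, hvr, hwr.symm, hxw.symm, hxr.1, nwv.symm⟩
    · by_cases hv : v = w1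
      · subst hv; exact Or.inl hvr
      · exact Or.inr ⟨v, nwv.symm, hv, hqv, hvr, cv⟩
    · exact absurd rfl nrq
  have hw' : w = a ∨ w = b := by
    rcases g13 w hwr.symm with h | h | h
    · exact Or.inl h
    · exact Or.inr h
    · subst h; exact absurd (cxr.trans g2).symm cw
  rcases hw' with rfl | rfl
  · exact main q b g5 g6 g7 g8 g9 g11
  · exact main q a g6.symm g5.symm g4.symm g8 g9.symm g10

theorem conf_aux1 [Fintype V] (hG : Cub G) (hH : AllC4 G) {c : V → Bool} (h : Opt G c)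
    {x r x' w s w1 : V} (hxr : Conf G c x r) (hxs : Conf G c x s) (hxx' : G.Adj x x')
    (cxx' : c x = c x')
    (hno : ¬ C4 G x x') (hxw : G.Adj x w) (hws : G.Adj w s) (hsw1 : G.Adj s w1)
    (hw1x : G.Adj w1 x) (nxs : x ≠ s) (nww1 : w ≠ w1) (cw : c w ≠ c x) (cw1 : c w1 ≠ c x)
    (cs : c s = c x)
    (hN : ∀ z, G.Adj x z → z = w ∨ z = w1 ∨ z = x') (hwr : G.Adj w r) (nrs : r ≠ s) : False := by
  have cxr : c x = c r := hxr.2.1
  obtain ⟨s', hss', css'⟩ := hxs.2.2.2.2.1
  obtain ⟨r', hrr', crr'⟩ := hxr.2.2.2.2.1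
  have ns'w : w ≠ s' := by
    rintro rfl; exact cw (css'.symm.trans cs)
  have ns'w1 : w1 ≠ s' := by
    rintro rfl; exact cw1 (css'.symm.trans cs)
  have Ns := three hG hws.symm hsw1 hss' nww1 ns'w ns'w1
  rcases conf_other hG hH h hxr hxx' cxx' hno hxw hws hsw1 nxs nww1 cw hN hwr nrs with hw1r | hv
  · -- the set of five vertices
    have nr'w : w ≠ r' := by
      rintro rfl; exact cw (crr'.symm.trans cxr.symm)
    have nr'w1 : w1 ≠ r' := by
      rintro rfl; exact cw1 (crr'.symm.trans cxr.symm)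
    have Nr := three hG hwr.symm hw1r.symm hrr' nww1 nr'w nr'w1
    have Nw := three hG hxw.symm hws hwr nxs hxr.1 nrs.symm
    have Nw1 := three hG hw1x hsw1.symm hw1r nxs hxr.1 nrs.symm
    have hx' : x' ∉ ({x, w, s, w1, r} : Set V) := by
      simp only [Set.mem_insert_iff, Set.mem_singleton_iff, not_or]
      refine ⟨hxx'.ne.symm, ?_, ?_, ?_, ?_⟩
      · rintro rfl; exact cw cxx'.symm
      · rintro rfl; exact hxs.2.2.1 hxx'
      · rintro rfl; exact cw1 cxx'.symm
      · rintro rfl; exact hxr.2.2.1 hxx'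
    refine h.leave ({x, w, s, w1, r} : Set V) ?_ (u := x) (by simp) hx' hxx'
    intro u hu v hv huv
    simp only [Set.mem_insert_iff, Set.mem_singleton_iff, not_or] at hu hv
    obtain ⟨v1, v2, v3, v4, v5⟩ := hv
    rcases hu with rfl | rfl | rfl | rfl | rfl
    · rcases hN v huv with rfl | rfl | rfl
      · exact absurd rfl v2
      · exact absurd rfl v4
      · exact cxx'
    · rcases Nw v huv with rfl | rfl | rfl
      · exact absurd rfl v1
      · exact absurd rfl v3
      · exact absurd rfl v5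
    · rcases Ns v huv with rfl | rfl | rfl
      · exact absurd rfl v2
      · exact absurd rfl v4
      · exact css'
    · rcases Nw1 v huv with rfl | rfl | rfl
      · exact absurd rfl v1
      · exact absurd rfl v3
      · exact absurd rfl v5
    · rcases Nr v huv with rfl | rfl | rfl
      · exact absurd rfl v2
      · exact absurd rfl v4
      · exact crr'
  · obtain ⟨v, k1, k2, k3, k4, k5⟩ := hv
    rcases Ns v k3 with rfl | rfl | rfl
    · exact k1 rfl
    · exact k2 rfl
    · exact k5 (css'.symm.trans (cs.trans cxr))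

theorem conf_aux2 [Fintype V] (hG : Cub G) (hH : AllC4 G) {c : V → Bool} (h : Opt G c)
    {x r r1 x' w s w1 : V} (hxr : Conf G c x r) (hxr1 : Conf G c x r1) (hxx' : G.Adj x x')
    (cxx' : c x = c x')
    (hno : ¬ C4 G x x') (hxw : G.Adj x w) (hws : G.Adj w s) (hsw1 : G.Adj s w1)
    (hw1x : G.Adj w1 x) (nxs : x ≠ s) (nww1 : w ≠ w1) (cw : c w ≠ c x) (cw1 : c w1 ≠ c x)
    (hN : ∀ z, G.Adj x z → z = w ∨ z = w1 ∨ z = x') (hwr : G.Adj w r) (nrs : r ≠ s)
    (hw1r1 : G.Adj w1 r1) (nr1s : r1 ≠ s) (nrr1 : r ≠ r1) : False := by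
  have cxr : c x = c r := hxr.2.1
  have cxr1 : c x = c r1 := hxr1.2.1
  obtain ⟨r', hrr', crr'⟩ := hxr.2.2.2.2.1
  obtain ⟨r1', hr1r1', cr1r1'⟩ := hxr1.2.2.2.2.1
  have Nw := three hG hxw.symm hws hwr nxs hxr.1 nrs.symm
  have Nw1 := three hG hw1x hsw1.symm hw1r1 nxs hxr1.1 nr1s.symm
  rcases conf_other hG hH h hxr hxx' cxx' hno hxw hws hsw1 nxs nww1 cw hN hwr nrs with hw1r | hv
  · rcases Nw1 r hw1r with e | e | e
    · exact hxr.1 e.symm
    · exact nrs e
    · exact nrr1 e
  obtain ⟨v, k1, k2, k3, k4, k5⟩ := hv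
  rcases conf_other hG hH h hxr1 hxx' cxx' hno hw1x.symm hsw1.symm hws.symm nxs nww1.symm cw1
    (fun z hz => by rcases hN z hz with h | h | h <;> simp [h]) hw1r1 nr1s with hwr1 | hv1
  · rcases Nw r1 hwr1 with e | e | e
    · exact hxr1.1 e.symm
    · exact nr1s e
    · exact nrr1 e.symm
  obtain ⟨v1, l1, l2, l3, l4, l5⟩ := hv1
  have Ns := three hG hws.symm hsw1 k3 nww1 k1.symm k2.symm
  have hvv : v1 = v := by
    rcases Ns v1 l3 with e | e | e
    · exact absurd e l2
    · exact absurd e l1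
    · exact e
  subst hvv
  have Nv := three hG k3.symm k4 l4 nrs.symm nr1s.symm nrr1
  have nr'w : w ≠ r' := by
    rintro rfl; exact cw (crr'.symm.trans cxr.symm)
  have nr'v : v1 ≠ r' := by
    rintro rfl; exact k5 crr'.symm
  have Nr := three hG hwr.symm k4.symm hrr' k1.symm nr'w nr'v
  have nr1'w1 : w1 ≠ r1' := by
    rintro rfl; exact cw1 (cr1r1'.symm.trans cxr1.symm)
  have nr1'v : v1 ≠ r1' := by
    rintro rfl; exact l5 cr1r1'.symm
  have Nr1 := three hG hw1r1.symm l4.symm hr1r1' k2.symm nr1'w1 nr1'v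
  have hx' : x' ∉ ({x, w, s, w1, r, r1, v1} : Set V) := by
    simp only [Set.mem_insert_iff, Set.mem_singleton_iff, not_or]
    refine ⟨hxx'.ne.symm, ?_, ?_, ?_, ?_, ?_, ?_⟩
    · rintro rfl; exact cw cxx'.symm
    · rintro rfl
      rcases Ns x hxx'.symm with e | e | e
      · exact hxw.ne e
      · exact hw1x.ne e.symm
      · subst e; exact k5 cxr
    · rintro rfl; exact cw1 cxx'.symm
    · rintro rfl; exact hxr.2.2.1 hxx'
    · rintro rfl; exact hxr1.2.2.1 hxx'
    · rintro rfl; exact k5 (cxx'.symm.trans cxr)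
  refine h.leave ({x, w, s, w1, r, r1, v1} : Set V) ?_ (u := x) (by simp) hx' hxx'
  intro u hu v hv huv
  simp only [Set.mem_insert_iff, Set.mem_singleton_iff, not_or] at hu hv
  obtain ⟨p1, p2, p3, p4, p5, p6, p7⟩ := hv
  rcases hu with rfl | rfl | rfl | rfl | rfl | rfl | rfl
  · rcases hN v huv with rfl | rfl | rfl
    · exact absurd rfl p2
    · exact absurd rfl p4
    · exact cxx'
  · rcases Nw v huv with rfl | rfl | rfl
    · exact absurd rfl p1
    · exact absurd rfl p3
    · exact absurd rfl p5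
  · rcases Ns v huv with rfl | rfl | rfl
    · exact absurd rfl p2
    · exact absurd rfl p4
    · exact absurd rfl p7
  · rcases Nw1 v huv with rfl | rfl | rfl
    · exact absurd rfl p1
    · exact absurd rfl p3
    · exact absurd rfl p6
  · rcases Nr v huv with rfl | rfl | rfl
    · exact absurd rfl p2
    · exact absurd rfl p7
    · exact crr'
  · rcases Nr1 v huv with rfl | rfl | rfl
    · exact absurd rfl p4
    · exact absurd rfl p7
    · exact cr1r1'
  · rcases Nv v huv with rfl | rfl | rfl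
    · exact absurd rfl p3
    · exact absurd rfl p5
    · exact absurd rfl p6

/-- There is at most one conflict at each vertex. -/
theorem conf_unique [Fintype V] (hG : Cub G) (hH : AllC4 G) {c : V → Bool} (h : Opt G c)
    {x y z : V} (hxy : Conf G c x y) (hxz : Conf G c x z) : y = z := by
  obtain ⟨x', w, s, w1, hxx', cxx', hno, hxw, hws, hsw1, hw1x, nxs, nww1, cw, cw1, cs, hN⟩ :=
    conf_nbhd hG hH h hxy
  have hN' : ∀ z, G.Adj x z → z = w1 ∨ z = w ∨ z = x' :=
    fun z hz => by rcases hN z hz with h | h | h <;> simp [h]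
  -- position of conflicts
  have pos : ∀ y, Conf G c x y → y = s ∨ (G.Adj w y ∧ y ≠ s) ∨ (G.Adj w1 y ∧ y ≠ s) := by
    intro y hy
    by_cases hys : y = s
    · exact Or.inl hys
    obtain ⟨-, -, -, -, -, u, hxu, huy, cu⟩ := hy
    rcases hN u hxu with rfl | rfl | rfl
    · exact Or.inr (Or.inl ⟨huy, hys⟩)
    · exact Or.inr (Or.inr ⟨huy, hys⟩)
    · exact absurd cxx'.symm cu
  have one : ∀ y, Conf G c x s → Conf G c x y → y ≠ s → False := by
    intro y hs hy hys
    rcases pos y hy with e | ⟨e, -⟩ | ⟨e, -⟩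
    · exact hys e
    · exact conf_aux1 hG hH h hy hs hxx' cxx' hno hxw hws hsw1 hw1x nxs nww1 cw cw1 cs hN e hys
    · exact conf_aux1 hG hH h hy hs hxx' cxx' hno hw1x.symm hsw1.symm hws.symm hxw.symm nxs
        nww1.symm cw1 cw cs hN' e hys
  have uw : ∀ y z, G.Adj w y → G.Adj w z → y ≠ s → z ≠ s → y ≠ x → z ≠ x → y = z := by
    intro y z hy hz nys nzs nyx nzx
    obtain ⟨t, t1, t2, t3, t4⟩ := third hG hxw.symm hws nxs
    rcases t4 y hy with e | e | e
    · exact absurd e nyx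
    · exact absurd e nys
    · rcases t4 z hz with e' | e' | e'
      · exact absurd e' nzx
      · exact absurd e' nzs
      · exact e.trans e'.symm
  have uw1 : ∀ y z, G.Adj w1 y → G.Adj w1 z → y ≠ s → z ≠ s → y ≠ x → z ≠ x → y = z := by
    intro y z hy hz nys nzs nyx nzx
    obtain ⟨t, t1, t2, t3, t4⟩ := third hG hw1x hsw1.symm nxs
    rcases t4 y hy with e | e | e
    · exact absurd e nyx
    · exact absurd e nys
    · rcases t4 z hz with e' | e' | e'
      · exact absurd e' nzx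
      · exact absurd e' nzs
      · exact e.trans e'.symm
  by_contra hne
  rcases pos y hxy with rfl | ⟨ey, nys⟩ | ⟨ey, nys⟩
  · exact one z hxy hxz (fun e => hne e.symm)
  · rcases pos z hxz with rfl | ⟨ez, nzs⟩ | ⟨ez, nzs⟩
    · exact one y hxz hxy nys
    · exact hne (uw y z ey ez nys nzs hxy.1.symm hxz.1.symm)
    · exact conf_aux2 hG hH h hxy hxz hxx' cxx' hno hxw hws hsw1 hw1x nxs nww1 cw cw1 hN ey nys
        ez nzs hne
  · rcases pos z hxz with rfl | ⟨ez, nzs⟩ | ⟨ez, nzs⟩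
    · exact one y hxz hxy nys
    · exact conf_aux2 hG hH h hxz hxy hxx' cxx' hno hxw hws hsw1 hw1x nxs nww1 cw cw1 hN ez nzs
        ey nys (fun e => hne e.symm)
    · exact hne (uw1 y z ey ez nys nzs hxy.1.symm hxz.1.symm)

end Pool.Agent.N370.SQ
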