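import Mathlib

/-!
# Maximum cuts of cubic graphs
-/

set_option autoImplicit false

namespace Pool.Agent.N370.SQ

variable {V : Type*} (G : SimpleGraph V)

/-- every vertex has exactly three neighbours -/
def Cub : Prop := ∀ v, ∃ x y z, x ≠ y ∧ x ≠ z ∧ y ≠ z ∧ G.Adj v x ∧ G.Adj v y ∧ G.Adj v z ∧
  ∀ w, G.Adj v w → (w = x ∨ w = y ∨ w = z)

/-- the edge `u v` is in a 4-cycle `u v p q`. -/
def C4 (u v : V) : Prop :=
  G.Adj u v ∧ ∃ p q, G.Adj v p ∧ G.Adj p q ∧ G.Adj q u ∧ u ≠ p ∧ v ≠ q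

variable {G}

theorem C4.symm {u v : V} (h : C4 G u v) : C4 G v u := by
  obtain ⟨h0, p, q, h1, h2, h3, h4, h5⟩ := h
  exact ⟨h0.symm, q, p, h3.symm, h2.symm, h1.symm, h5, h4⟩

theorem third (hG : Cub G) {a b c : V} (hab : G.Adj a b) (hac : G.Adj a c) (hbc : b ≠ c) :
    ∃ t, t ≠ b ∧ t ≠ c ∧ G.Adj a t ∧ ∀ w, G.Adj a w → w = b ∨ w = c ∨ w = t := by
  obtain ⟨x, y, z, h1, h2, h3, h5, h6, h7, h8⟩ := hG a
  have k1 := h8 b hab
  have k2 := h8 c hac
  rcases k1 with rfl | rfl | rfl <;> rcases k2 with rfl | rfl | rfl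
  · exact absurd rfl hbc
  · exact ⟨z, h2.symm, h3.symm, h7, h8⟩
  · exact ⟨y, h1.symm, h3, h6, fun w hw => by rcases h8 w hw with h | h | h <;> simp [h]⟩
  · exact ⟨z, h3.symm, h2.symm, h7, fun w hw => by rcases h8 w hw with h | h | h <;> simp [h]⟩
  · exact absurd rfl hbc
  · exact ⟨x, h1, h2, h5, fun w hw => by rcases h8 w hw with h | h | h <;> simp [h]⟩
  · exact ⟨y, h3, h1.symm, h6, fun w hw => by rcases h8 w hw with h | h | h <;> simp [h]⟩
  · exact ⟨x, h2, h1, h5, fun w hw => by rcases h8 w hw with h | h | h <;> simp [h]⟩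
  · exact absurd rfl hbc

theorem three (hG : Cub G) {v a b c : V} (ha : G.Adj v a) (hb : G.Adj v b) (hc : G.Adj v c)
    (hab : a ≠ b) (hac : a ≠ c) (hbc : b ≠ c) : ∀ w, G.Adj v w → w = a ∨ w = b ∨ w = c := by
  obtain ⟨t, h1, h2, h3, h4⟩ := third hG ha hb hab
  rcases h4 c hc with h | h | h
  · exact absurd h.symm hac
  · exact absurd h.symm hbc
  · subst h; exact h4

open Classical in
/-- flip the colours of the vertices of `X` -/
noncomputable def flip (c : V → Bool) (X : Set V) : V → Bool := fun v => if v ∈ X then !(c v) else c v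

theorem flip_in {c : V → Bool} {X : Set V} {v : V} (h : v ∈ X) : flip c X v = !(c v) := by
  simp [flip, h]

theorem flip_out {c : V → Bool} {X : Set V} {v : V} (h : v ∉ X) : flip c X v = c v := by
  simp [flip, h]

variable (G) in
open Classical in
/-- monochromatic pairs -/
noncomputable def P [Fintype V] (c : V → Bool) : Finset (V × V) :=
  Finset.univ.filter (fun e => G.Adj e.1 e.2 ∧ c e.1 = c e.2)

variable (G) in
open Classical in
/-- monochromatic pairs in 4-cycles -/
noncomputable def Q [Fintype V] (c : V → Bool) : Finset (V × V) :=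
  Finset.univ.filter (fun e => C4 G e.1 e.2 ∧ c e.1 = c e.2)

theorem mem_P [Fintype V] {c : V → Bool} {u v : V} : (u, v) ∈ P G c ↔ G.Adj u v ∧ c u = c v := by
  simp [P]

theorem mem_Q [Fintype V] {c : V → Bool} {u v : V} : (u, v) ∈ Q G c ↔ C4 G u v ∧ c u = c v := by
  simp [Q]

variable (G) in
/-- lexicographically minimal colourings -/
def Opt [Fintype V] (c : V → Bool) : Prop := (∀ c', (P G c).card ≤ (P G c').card) ∧
  ∀ c', (P G c').card = (P G c).card → (Q G c).card ≤ (Q G c').card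

variable (G) in
theorem exists_opt [Fintype V] : ∃ c : V → Bool, Opt G c := by
  obtain ⟨c1, h1⟩ := Finite.exists_min (fun c : V → Bool => (P G c).card)
  have : Nonempty {c : V → Bool // (P G c).card = (P G c1).card} := ⟨⟨c1, rfl⟩⟩
  obtain ⟨⟨c, hc⟩, h2⟩ := Finite.exists_min
    (fun c : {c : V → Bool // (P G c).card = (P G c1).card} => (Q G c.1).card)
  refine ⟨c, fun c' => hc ▸ h1 c', fun c' hc' => h2 ⟨c', hc'.trans hc⟩⟩

theorem card_le_of {α : Type*} [DecidableEq α] {P P' A B : Finset α} (hA : A ⊆ P)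
    (hsub : P' ⊆ (P \ A) ∪ B) (hlt : B.card ≤ A.card) : P'.card ≤ P.card := by
  have h1 := Finset.card_le_card hsub
  have h2 := Finset.card_union_le (P \ A) B
  have h3 := Finset.card_sdiff_of_subset hA
  have h4 := Finset.card_le_card hA
  omega

theorem card_lt_of {α : Type*} [DecidableEq α] {P P' A B : Finset α} (hA : A ⊆ P)
    (hsub : P' ⊆ (P \ A) ∪ B) (hlt : B.card < A.card) : P'.card < P.card := by
  have h1 := Finset.card_le_card hsub
  have h2 := Finset.card_union_le (P \ A) B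
  have h3 := Finset.card_sdiff_of_subset hA
  have h4 := Finset.card_le_card hA
  omega

/-- If all edges leaving `X` are monochromatic then there are none. -/
theorem Opt.leave [Fintype V] {c : V → Bool} (h : Opt G c) (X : Set V)
    (hX : ∀ u ∈ X, ∀ v, v ∉ X → G.Adj u v → c u = c v) {u v : V} (hu : u ∈ X) (hv : v ∉ X) :
    ¬ G.Adj u v := by
  intro huv
  have hsub : P G (flip c X) ⊆ P G c := by
    rintro ⟨a, b⟩ hab
    rw [mem_P] at hab ⊢
    refine ⟨hab.1, ?_⟩
    have h2 := hab.2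
    by_cases ha : a ∈ X <;> by_cases hb : b ∈ X
    · rw [flip_in ha, flip_in hb] at h2
      simpa using h2
    · exact hX a ha b hb hab.1
    · exact (hX b hb a ha hab.1.symm).symm
    · rwa [flip_out ha, flip_out hb] at h2
  have hlt : (P G (flip c X)).card < (P G c).card := by
    apply Finset.card_lt_card
    refine ⟨hsub, fun hcon => ?_⟩
    have h1 : (u, v) ∈ P G c := mem_P.2 ⟨huv, hX u hu v hv huv⟩
    have h2 := (mem_P.1 (hcon h1)).2
    rw [flip_in hu, flip_out hv, hX u hu v hv huv] at h2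
    revert h2
    cases c v <;> simp
  exact absurd (h.1 (flip c X)) (not_le.2 hlt)

/-- Each vertex has at most one neighbour with the same colour. -/
theorem Opt.unique [Fintype V] (hG : Cub G) {c : V → Bool} (h : Opt G c) {v a b : V}
    (ha : G.Adj v a) (hb : G.Adj v b) (hca : c v = c a) (hcb : c v = c b) : a = b := by
  classical
  by_contra hab
  obtain ⟨t, ta, tb, ht, hN⟩ := third hG ha hb hab
  have hA : ({(v, a), (a, v), (v, b), (b, v)} : Finset (V × V)) ⊆ P G c := by
    intro e he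
    simp only [Finset.mem_insert, Finset.mem_singleton] at he
    rcases he with rfl | rfl | rfl | rfl
    · exact mem_P.2 ⟨ha, hca⟩
    · exact mem_P.2 ⟨ha.symm, hca.symm⟩
    · exact mem_P.2 ⟨hb, hcb⟩
    · exact mem_P.2 ⟨hb.symm, hcb.symm⟩
  have hcard : ({(v, a), (a, v), (v, b), (b, v)} : Finset (V × V)).card = 4 := by
    have n1 := ha.ne
    have n2 := hb.ne
    have n3 := ha.ne.symm
    have n4 := hb.ne.symm
    have n5 : b ≠ a := fun h => hab h.symm
    rw [Finset.card_insert_of_notMem, Finset.card_insert_of_notMem, Finset.card_insert_of_notMem,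
      Finset.card_singleton] <;> simp [n1, n2, n3, n4, n5, hab]
  have hsub : P G (flip c {v}) ⊆
      (P G c \ {(v, a), (a, v), (v, b), (b, v)}) ∪ {(v, t), (t, v)} := by
    rintro ⟨p, q⟩ hpq
    rw [mem_P] at hpq
    obtain ⟨h1, h2⟩ := hpq
    by_cases hp : p = v
    · subst hp
      have hq : q ≠ p := h1.ne.symm
      rw [flip_in (Set.mem_singleton p), flip_out (by simpa using hq)] at h2
      rcases hN q h1 with rfl | rfl | rfl
      · rw [hca] at h2; revert h2; cases c q <;> simp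
      · rw [hcb] at h2; revert h2; cases c q <;> simp
      · simp
    · by_cases hq : q = v
      · subst hq
        rw [flip_in (Set.mem_singleton q), flip_out (by simpa using hp)] at h2
        rcases hN p h1.symm with rfl | rfl | rfl
        · rw [hca] at h2; revert h2; cases c p <;> simp
        · rw [hcb] at h2; revert h2; cases c p <;> simp
        · simp
      · rw [flip_out (by simpa using hp), flip_out (by simpa using hq)] at h2
        rw [Finset.mem_union, Finset.mem_sdiff]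
        left
        refine ⟨mem_P.2 ⟨h1, h2⟩, ?_⟩
        simp [hp, hq]
  have hlt := card_lt_of hA hsub (by
    rw [hcard]
    exact lt_of_le_of_lt (Finset.card_le_two) (by norm_num))
  exact absurd (h.1 _) (not_le.2 hlt)

/-- bool fact -/
theorem eq_of_ne_ne {a b d : Bool} (h1 : a ≠ d) (h2 : b ≠ d) : a = b := by
  revert h1 h2; cases a <;> cases b <;> cases d <;> simp

theorem not_eq_of_ne {a b : Bool} (h : a ≠ b) : (!a) = b := by
  revert h; cases a <;> cases b <;> simp

theorem ne_of_not_eq {a b : Bool} (h : (!a) = b) : a ≠ b := by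
  revert h; cases a <;> cases b <;> simp

/-- A 4-cycle with a monochromatic edge. -/
theorem Opt.square [Fintype V] (hG : Cub G) {c : V → Bool} (h : Opt G c) {x1 x2 x3 x4 : V}
    (h12 : G.Adj x1 x2) (h23 : G.Adj x2 x3) (h41 : G.Adj x4 x1)
    (n13 : x1 ≠ x3) (n24 : x2 ≠ x4) (c12 : c x1 = c x2) : c x3 = c x4 ∧ c x1 ≠ c x4 := by
  have h1 : c x4 ≠ c x1 := fun e => n24 (h.unique hG h12 h41.symm c12 e.symm)
  have h2 : c x3 ≠ c x2 := fun e => n13 (h.unique hG h12.symm h23 c12.symm e.symm)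
  refine ⟨eq_of_ne_ne (d := c x1) (by rw [c12]; exact h2) h1, h1.symm⟩

/-- Change of a 4-cycle with two monochromatic edges. -/
theorem Opt.step [Fintype V] (hG : Cub G) {c : V → Bool} (h : Opt G c) {x1 x2 x3 x4 y1 y4 : V}
    (h12 : G.Adj x1 x2) (h23 : G.Adj x2 x3) (h34 : G.Adj x3 x4) (h41 : G.Adj x4 x1)
    (n13 : x1 ≠ x3) (n24 : x2 ≠ x4) (c12 : c x1 = c x2) (c34 : c x3 = c x4) (c14 : c x1 ≠ c x4)
    (hy1 : G.Adj x1 y1) (y12 : y1 ≠ x2) (y14 : y1 ≠ x4)
    (hy4 : G.Adj x4 y4) (y41 : y4 ≠ x1) (y43 : y4 ≠ x3) :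
    Opt G (flip c {x1, x4}) ∧ C4 G x1 y1 ∧ C4 G x4 y4 := by
  classical
  have N1 := three hG h12 h41.symm hy1 n24 y12.symm y14.symm
  have N4 := three hG h34.symm h41 hy4 n13.symm y43.symm y41.symm
  set c' := flip c {x1, x4} with hc'
  set A : Finset (V × V) := {(x1, x2), (x2, x1), (x3, x4), (x4, x3)} with hAdef
  have e1 : c' x1 = !(c x1) := flip_in (by simp)
  have e4 : c' x4 = !(c x4) := flip_in (by simp)
  have eo : ∀ v, v ≠ x1 → v ≠ x4 → c' v = c v := fun v h1 h2 => flip_out (by simp [h1, h2])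
  have c41 : c x3 = c x4 := c34
  have hAcard : A.card = 4 := by
    have n1 := h12.ne
    have n2 := h23.ne
    have n3 := h34.ne
    have n4 := h41.ne
    have n5 := n1.symm
    have n6 := n2.symm
    have n7 := n3.symm
    have n8 := n4.symm
    rw [hAdef, Finset.card_insert_of_notMem, Finset.card_insert_of_notMem,
      Finset.card_insert_of_notMem, Finset.card_singleton] <;>
      simp [n1, n2, n3, n4, n5, n6, n7, n8, n13, n24]
  have C12 : C4 G x1 x2 := ⟨h12, x3, x4, h23, h34, h41, n13, n24⟩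
  have C34 : C4 G x3 x4 := ⟨h34, x1, x2, h41, h12, h23, n13.symm, n24.symm⟩
  have hAQ : A ⊆ Q G c := by
    intro e he
    simp only [hAdef, Finset.mem_insert, Finset.mem_singleton] at he
    rcases he with rfl | rfl | rfl | rfl
    · exact mem_Q.2 ⟨C12, c12⟩
    · exact mem_Q.2 ⟨C12.symm, c12.symm⟩
    · exact mem_Q.2 ⟨C34, c34⟩
    · exact mem_Q.2 ⟨C34.symm, c34.symm⟩
  have hQP : Q G c ⊆ P G c := by
    rintro ⟨a, b⟩ hab
    rw [mem_Q] at hab
    exact mem_P.2 ⟨hab.1.1, hab.2⟩
  have hAP : A ⊆ P G c := hAQ.trans hQP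
  -- pairs which are monochromatic after the change
  have key : ∀ a b, G.Adj a b → c' a = c' b →
      ((c a = c b ∧ (a, b) ∉ A) ∨ (a = x1 ∧ b = y1) ∨ (a = y1 ∧ b = x1) ∨
        (a = x4 ∧ b = y4) ∨ (a = y4 ∧ b = x4)) := by
    -- first vertex in the flipped set
    have half : ∀ a b, G.Adj a b → c' a = c' b → (a = x1 ∨ a = x4) →
        ((a = x1 ∧ b = y1) ∨ (a = x4 ∧ b = y4)) := by
      rintro a b hab hcab (rfl | rfl)
      · rcases N1 b hab with rfl | rfl | rfl
        · exfalso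
          rw [e1, eo b h12.ne.symm n24] at hcab
          exact ne_of_not_eq hcab c12
        · exfalso
          rw [e1, e4] at hcab
          exact c14 (by simpa using hcab)
        · exact Or.inl ⟨rfl, rfl⟩
      · rcases N4 b hab with rfl | rfl | rfl
        · exfalso
          rw [e4, eo b n13.symm h34.ne] at hcab
          exact ne_of_not_eq hcab c34.symm
        · exfalso
          rw [e1, e4] at hcab
          exact c14 (by simpa using hcab.symm)
        · exact Or.inr ⟨rfl, rfl⟩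
    intro a b hab hcab
    by_cases ha : a = x1 ∨ a = x4
    · rcases half a b hab hcab ha with h | h
      · exact Or.inr (Or.inl h)
      · exact Or.inr (Or.inr (Or.inr (Or.inl h)))
    · by_cases hb : b = x1 ∨ b = x4
      · rcases half b a hab.symm hcab.symm hb with h | h
        · exact Or.inr (Or.inr (Or.inl ⟨h.2, h.1⟩))
        · exact Or.inr (Or.inr (Or.inr (Or.inr ⟨h.2, h.1⟩)))
      · push Not at ha hb
        rw [eo a ha.1 ha.2, eo b hb.1 hb.2] at hcab
        refine Or.inl ⟨hcab, ?_⟩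
        simp [hAdef, ha.1, ha.2, hb.1, hb.2]
  have hPle : (P G c').card ≤ (P G c).card := by
    refine card_le_of hAP (B := {(x1, y1), (y1, x1), (x4, y4), (y4, x4)}) ?_ ?_
    · rintro ⟨a, b⟩ hab
      rw [mem_P] at hab
      rw [Finset.mem_union, Finset.mem_sdiff, mem_P]
      rcases key a b hab.1 hab.2 with h | ⟨rfl, rfl⟩ | ⟨rfl, rfl⟩ | ⟨rfl, rfl⟩ | ⟨rfl, rfl⟩
      · exact Or.inl ⟨⟨hab.1, h.1⟩, h.2⟩
      all_goals exact Or.inr (by simp)
    · rw [hAcard]
      exact Finset.card_le_four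
  have hPeq : (P G c').card = (P G c).card := le_antisymm hPle (h.1 c')
  have hQ1 : C4 G x1 y1 := by
    by_contra hno
    have hlt : (Q G c').card < (Q G c).card := by
      refine card_lt_of hAQ (B := {(x4, y4), (y4, x4)}) ?_ ?_
      · rintro ⟨a, b⟩ hab
        rw [mem_Q] at hab
        rw [Finset.mem_union, Finset.mem_sdiff, mem_Q]
        rcases key a b hab.1.1 hab.2 with h | ⟨rfl, rfl⟩ | ⟨rfl, rfl⟩ | ⟨rfl, rfl⟩ | ⟨rfl, rfl⟩
        · exact Or.inl ⟨⟨hab.1, h.1⟩, h.2⟩
        · exact absurd hab.1 hno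
        · exact absurd hab.1.symm hno
        all_goals exact Or.inr (by simp)
      · rw [hAcard]
        exact lt_of_le_of_lt (Finset.card_le_two) (by norm_num)
    exact absurd (h.2 c' hPeq) (not_le.2 hlt)
  have hQ4 : C4 G x4 y4 := by
    by_contra hno
    have hlt : (Q G c').card < (Q G c).card := by
      refine card_lt_of hAQ (B := {(x1, y1), (y1, x1)}) ?_ ?_
      · rintro ⟨a, b⟩ hab
        rw [mem_Q] at hab
        rw [Finset.mem_union, Finset.mem_sdiff, mem_Q]
        rcases key a b hab.1.1 hab.2 with h | ⟨rfl, rfl⟩ | ⟨rfl, rfl⟩ | ⟨rfl, rfl⟩ | ⟨rfl, rfl⟩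
        · exact Or.inl ⟨⟨hab.1, h.1⟩, h.2⟩
        · exact Or.inr (by simp)
        · exact Or.inr (by simp)
        · exact absurd hab.1 hno
        · exact absurd hab.1.symm hno
      · rw [hAcard]
        exact lt_of_le_of_lt (Finset.card_le_two) (by norm_num)
    exact absurd (h.2 c' hPeq) (not_le.2 hlt)
  have hQle : (Q G c').card ≤ (Q G c).card := by
    refine card_le_of hAQ (B := {(x1, y1), (y1, x1), (x4, y4), (y4, x4)}) ?_ ?_
    · rintro ⟨a, b⟩ hab
      rw [mem_Q] at hab
      rw [Finset.mem_union, Finset.mem_sdiff, mem_Q]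
      rcases key a b hab.1.1 hab.2 with h | ⟨rfl, rfl⟩ | ⟨rfl, rfl⟩ | ⟨rfl, rfl⟩ | ⟨rfl, rfl⟩
      · exact Or.inl ⟨⟨hab.1, h.1⟩, h.2⟩
      all_goals exact Or.inr (by simp)
    · rw [hAcard]
      exact Finset.card_le_four
  refine ⟨⟨fun c'' => ?_, fun c'' hc'' => ?_⟩, hQ1, hQ4⟩
  · rw [hPeq]; exact h.1 c''
  · exact hQle.trans (h.2 c'' (hc''.trans hPeq))

end Pool.Agent.N370.SQ
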