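import Pool.Agent.N370.SQ.Exit

/-!
# Monochromatic isolated triangles
-/

set_option autoImplicit false

namespace Pool.Agent.N370.SQ

variable {V : Type*} {G : SimpleGraph V}

/-- The neighbours of an exit are not in conflict with `w`. -/
theorem exit_noSg [Fintype V] (hG : Cub G) (hS : Short G) {c : V → Bool} (h : Mn G c)
    {u w : V} (hu : I G u) (huw : G.Adj u w) : ¬ Sg G c w :=
  fun hw => hw.noI hG hS h hu huw.symm

/-- L3 : a vertex of `Sg` is close to at most one vertex of a dead triangle. -/
theorem dead_unique [Fintype V] (hG : Cub G) (hS : Short G) {c : V → Bool} (h : Mn G c)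
    {u u' z : V} (hd : Dd G c u) (hd' : Dd G c u') (hz : Sg G c z) (h1 : Cl G z u)
    (h2 : Cl G z u') : u = u' := by
  by_contra hne
  obtain ⟨w, huw, hTw, hIw, hwz⟩ := hz.cl_I hG hS h hd.1 h1
  obtain ⟨w', huw', hTw', hIw', hwz'⟩ := hz.cl_I hG hS h hd'.1 h2
  have hw : On G w := by
    rcases kinds (G := G) w with hw | hw | hw
    · exact hw
    · exact absurd huw (hd.noA hG hS h hw)
    · exact absurd hw hIw
  have hw' : On G w' := by
    rcases kinds (G := G) w' with hw | hw | hw
    · exact hw
    · exact absurd huw' (hd'.noA hG hS h hw)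
    · exact absurd hw hIw'
  obtain ⟨s1, s, s2, k1, k2, k3, k4, k5, k6, c1, c2, cs, cu, o1, os, o2, Nw⟩ :=
    exit_sq hG hS h hd.1 hw huw
  obtain ⟨r1, r, r2, l1, l2, l3, l4, l5, l6, d1, d2, ds, du, -, -, -, Nw'⟩ :=
    exit_sq hG hS h hd'.1 hw' huw'
  have nI : ∀ z, On G z → z ≠ u := fun z hz e => hd.1.1 (e ▸ hz)
  have nI' : ∀ z, On G z → z ≠ u' := fun z hz e => hd'.1.1 (e ▸ hz)
  have hww : w ≠ w' := by
    rintro rfl
    rcases Nw u' huw'.symm with e | e | e
    · exact nI' _ o1 e.symm
    · exact nI' _ o2 e.symm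
    · exact hne e.symm
  have cw' : c w' ≠ c z := by
    rcases Nw' z hwz' with e | e | e
    · subst e; exact fun e => d1 e.symm
    · subst e; exact fun e => d2 e.symm
    · exact absurd e (nI' _ hz.1)
  have key : ∀ s2, G.Adj w z → G.Adj z s → G.Adj s s2 → G.Adj s2 w → z ≠ s2 → c z ≠ c w →
      On G s2 → False := by
    intro s2 k1 k2 k3 k4 k6 c1 o2
    obtain ⟨-, t, hzt, ct⟩ := id hz
    have tw : t ≠ w := by rintro rfl; exact c1 ct
    have ts : t ≠ s := by rintro rfl; exact c1 (ct.trans cs)
    have Nz := three hG k1.symm k2 hzt k5 tw.symm ts.symm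
    have hsw : w' = s := by
      rcases Nz w' hwz'.symm with e | e | e
      · exact absurd e.symm hww
      · exact e
      · subst e; exact absurd ct.symm cw'
    subst hsw
    have Ns := three hG k2.symm k3 huw'.symm k6 (nI' _ hz.1) (nI' _ o2)
    have Nw2 := three hG k1 k4.symm huw.symm k6 (nI _ hz.1) (nI _ o2)
    have tu : t ≠ u := by rintro rfl; exact hz.noI hG hS h hd.1 hzt
    have tu' : t ≠ u' := by rintro rfl; exact hz.noI hG hS h hd'.1 hzt
    have n1 := nI _ hz.1
    have n2 := nI _ o2
    have n3 := nI _ hw'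
    have n4 := nI' _ hz.1
    have n5 := nI' _ o2
    have n6 := nI' _ hw
    have hD := h.nonneg hG {x | x ∈ [w, z, w', s2, u, u']}
    rw [D_list _ _ (by
      simp [k1.ne, k5, k4.ne.symm, huw.ne.symm, n6, k2.ne, k6, n1, n4, k3.ne, n3,
        huw'.ne.symm, n2, n5, hne])] at hD
    simp only [List.map_cons, List.map_nil, List.sum_cons, List.sum_nil, add_zero] at hD
    have a1 : nr G c {x | x ∈ [w, z, w', s2, u, u']} w = 0 := by
      rw [nr_eq k6 n1 n2 Nw2, ev_in (by simp), ev_in (by simp), ev_in (by simp)]
      norm_num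
    have a2 : nr G c {x | x ∈ [w, z, w', s2, u, u']} w' = 0 := by
      rw [nr_eq k6 n4 n5 Ns, ev_in (by simp), ev_in (by simp), ev_in (by simp)]
      norm_num
    have hX : ∀ u'' x, I G u'' → T3 G u'' x → x ≠ u → x ≠ u' →
        x ∉ ({x | x ∈ [w, z, w', s2, u, u']} : Set V) := by
      intro u'' x hu'' hx hxu hxu'
      have ix := hu''.nb hG hx
      simp only [Set.mem_ofPred_eq, List.mem_cons, List.not_mem_nil, or_false, not_or]
      exact ⟨fun e => ix.1 (e ▸ hw), fun e => ix.1 (e ▸ hz.1), fun e => ix.1 (e ▸ hw'),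
        fun e => ix.1 (e ▸ o2), hxu, hxu'⟩
    have a5 : nr G c {x | x ∈ [w, z, w', s2, u, u']} u ≤ -10 :=
      nr_dead' hG hS hd huw hTw (by simp) (u' := u')
        (fun x hx hne' => hX u x hd.1 hx hx.1.ne.symm hne')
    have a6 : nr G c {x | x ∈ [w, z, w', s2, u, u']} u' ≤ -10 :=
      nr_dead' hG hS hd' huw' hTw' (by simp) (u' := u)
        (fun x hx hne' => hX u' x hd'.1 hx hne' hx.1.ne.symm)
    by_cases hts : t = s2
    · subst hts
      have a3 : nr G c {x | x ∈ [w, z, w', t, u, u']} z = 0 := by
        rw [nr_eq k5 tw.symm ts.symm Nz, ev_in (by simp), ev_in (by simp), ev_in (by simp)]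
        norm_num
      have N2 := three hG k4 k3.symm hzt.symm k5 k1.ne k2.ne.symm
      have a4 : nr G c {x | x ∈ [w, z, w', t, u, u']} t = 0 := by
        rw [nr_eq k5 k1.ne k2.ne.symm N2, ev_in (by simp), ev_in (by simp), ev_in (by simp)]
        norm_num
      linarith
    · have a3 : nr G c {x | x ∈ [w, z, w', s2, u, u']} z ≤ -20 := by
        rw [nr_eq k5 tw.symm ts.symm Nz, ev_in (by simp), ev_in (by simp), ev_mono (by
          simp [tw, ts, hzt.ne.symm, hts, tu, tu']) ct]
        have := wt_ge hzt hz.1.not_I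
        linarith
      obtain ⟨t2, t2w, t2s, ht2, N2⟩ := third hG k4 k3.symm k5
      have a4 : nr G c {x | x ∈ [w, z, w', s2, u, u']} s2 ≤ 22 := by
        rw [nr_eq k5 t2w.symm t2s.symm N2, ev_in (by simp), ev_in (by simp)]
        have := ev_le (G := G) (c := c) (X := {x | x ∈ [w, z, w', s2, u, u']}) (u := s2) (v := t2)
        have := wt_le (G := G) s2 t2
        linarith
      linarith
  rcases Nw z hwz with e | e | e
  · subst e; exact key s2 k1 k2 k3 k4 k6 c1 o2
  · subst e; exact key s1 k4.symm k3.symm k2.symm k1.symm k6.symm c2 o1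
  · exact nI _ hz.1 e

/-- L2 : isolation of soft vertices. -/
theorem soft_iso [Fintype V] (hG : Cub G) (hS : Short G) {c : V → Bool} (h : Mn G c)
    {u w z t : V} (hd : Dd G c u) (huw : G.Adj u w) (hw : On G w) (hwz : G.Adj w z)
    (hz : Sg G c z) (hzt : G.Adj z t) (ct : c z = c t) (hsoft : A G t ∨ G.Adj w t) :
    ∀ z', Sg G c z' → Cl G z z' → z' = t := by
  obtain ⟨s1, s, s2, k1, k2, k3, k4, k5, k6, c1, c2, cs, cu, o1, os, o2, Nw⟩ :=
    exit_sq hG hS h hd.1 hw huw
  have hTw : ¬ T3 G u w := fun hT => (hd.1.nb hG hT).1 hw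
  have nI : ∀ z, On G z → z ≠ u := fun z hz e => hd.1.1 (e ▸ hz)
  have wno : ¬ Sg G c w := exit_noSg hG hS h hd.1 huw
  have key : ∀ s2, G.Adj w z → G.Adj z s → G.Adj s s2 → G.Adj s2 w → z ≠ s2 → c z ≠ c w →
      c s2 ≠ c w → On G s2 → ∀ z', Sg G c z' → Cl G z z' → z' = t := by
    intro s2 k1 k2 k3 k4 k6 c1 c2 o2
    have tw : t ≠ w := by rintro rfl; exact c1 ct
    have ts : t ≠ s := by rintro rfl; exact c1 (ct.trans cs)
    have Nz := three hG k1.symm k2 hzt k5 tw.symm ts.symm
    have Nw2 := three hG k1 k4.symm huw.symm k6 (nI _ hz.1) (nI _ o2)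
    have tu : t ≠ u := by rintro rfl; exact hz.noI hG hS h hd.1 hzt
    have hX : ∀ x, T3 G u x → x ∉ ({x | x ∈ [w, z, s, s2, u]} : Set V) := by
      intro x hx
      have ix := hd.1.nb hG hx
      simp only [Set.mem_ofPred_eq, List.mem_cons, List.not_mem_nil, or_false, not_or]
      exact ⟨fun e => ix.1 (e ▸ hw), fun e => ix.1 (e ▸ hz.1), fun e => ix.1 (e ▸ os),
        fun e => ix.1 (e ▸ o2), hx.1.ne.symm⟩
    have hD := h.nonneg hG {x | x ∈ [w, z, s, s2, u]}
    rw [D_list _ _ (by
      simp [k1.ne, k5, k4.ne.symm, huw.ne.symm, k2.ne, k6, nI _ hz.1, k3.ne, nI _ o2,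
        nI _ os])] at hD
    simp only [List.map_cons, List.map_nil, List.sum_cons, List.sum_nil, add_zero] at hD
    have a1 : nr G c {x | x ∈ [w, z, s, s2, u]} w = 0 := by
      rw [nr_eq k6 (nI _ hz.1) (nI _ o2) Nw2, ev_in (by simp), ev_in (by simp), ev_in (by simp)]
      norm_num
    have a5 : nr G c {x | x ∈ [w, z, s, s2, u]} u = -20 := nr_dead hG hS hd huw hTw (by simp) hX
    rcases hsoft with hA | hwt
    · -- apex
      obtain ⟨x, y, p, a, b, hxy, hxp, hyp, htx, hty, htp, axy, Nt, hT, hxa, hyb, hab, ta, ay, bt,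
        bx, Nx, Ny, ox, oy, oa, ob, cx, cy, ca, cb, cp⟩ := A_col hG hS h hA
      have hzx : x = z := h.unique hG hA.not_I htx hzt.symm cx.symm ct.symm
      subst hzx
      have hys : y = s := by
        rcases Nz y axy with e | e | e
        · exfalso
          subst e
          rcases Nw2 t hty.symm with e | e | e
          · exact hzt.ne e.symm
          · exact hA.1 (e ▸ o2)
          · exact tu e
        · exact e
        · subst e; exact absurd rfl hty.ne
      subst hys
      have hbs : b = s2 := by
        rcases Ny s2 k3 with e | e | e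
        · exact absurd (e ▸ o2) hA.1
        · exact absurd e k6.symm
        · exact e.symm
      subst hbs
      have s2no : ¬ Sg G c b := by
        rintro ⟨-, t2, ht2, ct2⟩
        have t2w : t2 ≠ w := by rintro rfl; exact c2 ct2
        have t2s : t2 ≠ y := by rintro rfl; exact c2 (ct2.trans cs)
        have N2 := three hG k4 k3.symm ht2 k5 t2w.symm t2s.symm
        have t2u : t2 ≠ u := by
          rintro rfl
          exact (Sg.noI hG hS h (z := b) ⟨o2, t2, ht2, ct2⟩ hd.1) ht2
        have tb : t ≠ b := fun e => hA.1 (e ▸ o2)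
        have a2 : nr G c {v | v ∈ [w, x, y, b, u]} x ≤ -20 := by
          rw [nr_eq k5 tw.symm ts.symm Nz, ev_in (by simp), ev_in (by simp), ev_mono (by
            simp [tw, ts, tu, hzt.ne.symm, tb]) ct]
          have := wt_ge hzt hz.1.not_I
          linarith
        have a3 : nr G c {v | v ∈ [w, x, y, b, u]} y ≤ 20 := by
          rw [nr_eq htx.ne bt.symm bx.symm Ny, ev_in (v := x) (by simp), ev_in (v := b) (by simp)]
          have := ev_le (G := G) (c := c) (X := {v | v ∈ [w, x, y, b, u]}) (u := y) (v := t)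
          have := wt_plain hty.symm (fun h => hA.1 h.symm.on) os.not_I hA.not_I
          linarith
        have a4 : nr G c {v | v ∈ [w, x, y, b, u]} b ≤ -20 := by
          have hbx : t2 ≠ x := by
            rintro rfl
            rcases Nz b ht2.symm with e | e | e
            · exact c2 (e ▸ rfl)
            · exact k3.ne e.symm
            · exact bt e
          rw [nr_eq k5 t2w.symm t2s.symm N2, ev_in (by simp), ev_in (by simp), ev_mono (by
            simp [t2w, t2s, t2u, ht2.ne.symm, hbx]) ct2]
          have := wt_ge ht2 o2.not_I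
          linarith
        linarith
      have sno : ¬ Sg G c y := by
        rintro ⟨-, t3, ht3, ct3⟩
        rcases Ny t3 ht3 with e | e | e
        · subst e; exact c1 (ct.trans (ct3.symm.trans cs))
        · subst e; exact c1 (ct3.symm.trans cs)
        · subst e; exact c2 (ct3.symm.trans cs)
      rintro z' hz' ⟨hne, hadj | ⟨m, hzm, hmz'⟩⟩
      · rcases Nz z' hadj with e | e | e
        · exact absurd (e ▸ hz') wno
        · exact absurd (e ▸ hz') sno
        · exact e
      · rcases Nz m hzm with e | e | e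
        · subst e
          rcases Nw2 z' hmz' with e | e | e
          · exact absurd e.symm hne
          · exact absurd (e ▸ hz') s2no
          · exact absurd e (nI _ hz'.1)
        · subst e
          rcases Ny z' hmz' with e | e | e
          · exact e
          · exact absurd e.symm hne
          · exact absurd (e ▸ hz') s2no
        · subst e
          rcases Nt z' hmz' with e | e | e
          · exact absurd e.symm hne
          · exact absurd (e ▸ hz') sno
          · exfalso
            subst e
            obtain ⟨oz', t3, ht3, ct3⟩ := hz'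
            exact h.off' hG oz' htp.symm (fun h => hA.1 h.symm.on) (fun e => cp e.symm) t3 ht3
              ct3.symm
    · -- diamond
      have hts2 : t = s2 := by
        rcases Nw2 t hwt with e | e | e
        · exact absurd e.symm hzt.ne
        · exact e
        · exact absurd e tu
      subst hts2
      have N2 := three hG k4 k3.symm hzt.symm k5 k1.ne k2.ne.symm
      obtain ⟨t', t'z, t't, hst', Ns⟩ := third hG k2.symm k3 k6
      have t'w : t' ≠ w := by
        rintro rfl
        rcases Nw2 s hst'.symm with e | e | e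
        · exact k2.ne e.symm
        · exact k3.ne e
        · exact nI _ os e
      have csz : c z ≠ c s := by rw [cs]; exact c1
      have cst : c t ≠ c s := by rw [cs]; exact c2
      have a2 : nr G c {x | x ∈ [w, z, s, t, u]} z = 0 := by
        rw [nr_eq k5 tw.symm ts.symm Nz, ev_in (by simp), ev_in (by simp), ev_in (by simp)]
        norm_num
      have a3 : nr G c {x | x ∈ [w, z, s, t, u]} t = 0 := by
        rw [nr_eq k5 k1.ne k2.ne.symm N2, ev_in (by simp), ev_in (by simp), ev_in (by simp)]
        norm_num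
      have ct' : c t' ≠ c s := by
        intro e
        have t'u : t' ≠ u := by
          rintro rfl
          exact cu (e.trans cs)
        have a4 : nr G c {x | x ∈ [w, z, s, t, u]} s ≤ -20 := by
          rw [nr_eq k6 t'z.symm t't.symm Ns, ev_in (by simp), ev_in (by simp), ev_mono (by
            simp [t'w, t'z, t't, t'u, hst'.ne.symm]) e.symm]
          have := wt_ge hst' os.not_I
          linarith
        linarith
      have sno : ¬ Sg G c s := by
        rintro ⟨-, t3, ht3, ct3⟩
        rcases Ns t3 ht3 with e | e | e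
        · subst e; exact csz ct3.symm
        · subst e; exact cst ct3.symm
        · subst e; exact ct' ct3.symm
      have t'no : ¬ Sg G c t' := by
        rintro ⟨ot', t3, ht3, ct3⟩
        refine h.off' hG ot' hst'.symm ?_ (fun e => ct' e.symm) t3 ht3 ct3.symm
        rintro ⟨-, p, q, hsp, hpq, hqt', nt'p, nsq⟩
        have wt' : ¬ G.Adj w t' := by
          intro hadj
          rcases Nw2 t' hadj with e | e | e
          · exact t'z e
          · exact t't e
          · exact nI _ ot' e
        rcases Ns p hsp with e | e | e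
        · subst e
          rcases Nz q hpq with e | e | e
          · subst e; exact wt' hqt'
          · exact nsq e.symm
          · subst e
            rcases N2 t' hqt' with e | e | e
            · exact t'w e
            · exact hst'.ne e.symm
            · exact t'z e
        · subst e
          rcases N2 q hpq with e | e | e
          · subst e; exact wt' hqt'
          · exact nsq e.symm
          · subst e
            rcases Nz t' hqt' with e | e | e
            · exact t'w e
            · exact hst'.ne e.symm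
            · exact t't e
        · exact nt'p e.symm
      rintro z' hz' ⟨hne, hadj | ⟨m, hzm, hmz'⟩⟩
      · rcases Nz z' hadj with e | e | e
        · exact absurd (e ▸ hz') wno
        · exact absurd (e ▸ hz') sno
        · exact e
      · rcases Nz m hzm with e | e | e
        · subst e
          rcases Nw2 z' hmz' with e | e | e
          · exact absurd e.symm hne
          · exact e
          · exact absurd e (nI _ hz'.1)
        · subst e
          rcases Ns z' hmz' with e | e | e
          · exact absurd e.symm hne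
          · exact e
          · exact absurd (e ▸ hz') t'no
        · subst e
          rcases N2 z' hmz' with e | e | e
          · exact absurd (e ▸ hz') wno
          · exact absurd (e ▸ hz') sno
          · exact absurd e.symm hne
  rcases Nw z hwz with e | e | e
  · subst e; exact key s2 k1 k2 k3 k4 k6 c1 c2 o2
  · subst e; exact key s1 k4.symm k3.symm k2.symm k1.symm k6.symm c2 c1 o1
  · exact absurd e (nI _ hz.1)

/-- L8 : hard vertices at dead exits have no conflicts. -/
theorem hard_nocf [Fintype V] (hG : Cub G) (hS : Short G) {c : V → Bool} (h : Mn G c)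
    {u w z t : V} (hd : Dd G c u) (huw : G.Adj u w) (hw : On G w) (hwz : G.Adj w z)
    (hz : Sg G c z) (hzt : G.Adj z t) (ct : c z = c t) (hhard : ¬ G.Adj w t) :
    ∀ y, ¬ Cf G c z y := by
  obtain ⟨s1, s, s2, k1, k2, k3, k4, k5, k6, c1, c2, cs, cu, o1, os, o2, Nw⟩ :=
    exit_sq hG hS h hd.1 hw huw
  have hTw : ¬ T3 G u w := fun hT => (hd.1.nb hG hT).1 hw
  have nI : ∀ z, On G z → z ≠ u := fun z hz e => hd.1.1 (e ▸ hz)
  have key : ∀ s2, G.Adj w z → G.Adj z s → G.Adj s s2 → G.Adj s2 w → z ≠ s2 → c z ≠ c w →
      c s2 ≠ c w → On G s2 → ∀ y, ¬ Cf G c z y := by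
    intro s2 k1 k2 k3 k4 k6 c1 c2 o2 y hcf
    have tw : t ≠ w := by rintro rfl; exact c1 ct
    have ts : t ≠ s := by rintro rfl; exact c1 (ct.trans cs)
    have Nz := three hG k1.symm k2 hzt k5 tw.symm ts.symm
    have Nw2 := three hG k1 k4.symm huw.symm k6 (nI _ hz.1) (nI _ o2)
    have tu : t ≠ u := by rintro rfl; exact hz.noI hG hS h hd.1 hzt
    have ts2 : t ≠ s2 := by rintro rfl; exact hhard k4.symm
    have hy : Sg G c y := hcf.2.2.2.2.1.sg
    have hyw : ¬ G.Adj w y := by
      intro hadj
      have hne : z ≠ y := hcf.1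
      have := exit_two hG hS h hd.1 (hd.mj hG hS) hw huw hwz hadj hz hy hne
      have e : y = t := h.unique hG hz.1.not_I this.1 hzt this.2 ct
      exact hhard (e ▸ hadj)
    have nys2 : y ≠ s2 := fun e => hyw (e ▸ k4.symm)
    have hsy : G.Adj s y := by
      obtain ⟨m, hzm, hmy, cm⟩ := hcf.2.2.2.2.2
      rcases Nz m hzm with e | e | e
      · subst e; exact absurd hmy hyw
      · subst e; exact hmy
      · subst e; exact absurd ct.symm cm
    have csz : c s ≠ c z := by rw [cs]; exact fun e => c1 e.symm
    have hnoC : ¬ C4 G z t := fun hC => no_cf hG h hC ct hcf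
    rcases cf_other hG h hcf hzt ct hnoC k2 k3 k4 k6 k5.symm csz
      (fun x hx => by rcases Nz x hx with h | h | h <;> simp [h]) hsy nys2 with hwy | hv
    · exact hyw hwy
    obtain ⟨v, vs, vw, hs2v, hvy, cv⟩ := hv
    have czy : c z = c y := hcf.2.1
    obtain ⟨-, y', hyy', cy'⟩ := id hy
    have Ns := three hG k2.symm k3 hsy k6 hcf.1 nys2.symm
    have N2 := three hG k4 k3.symm hs2v k5 vw.symm vs.symm
    have y's : y' ≠ s := by rintro rfl; exact csz (cy'.symm.trans czy.symm)
    have y'v : y' ≠ v := by rintro rfl; exact cv cy'.symm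
    have y'w : y' ≠ w := by rintro rfl; exact hyw hyy'.symm
    have Nyy := three hG hsy.symm hvy.symm hyy' vs.symm y's.symm y'v.symm
    obtain ⟨v3, v3a, v3b, hv3, Nv⟩ := third hG hs2v.symm hvy nys2.symm
    have cvz : c v ≠ c z := by rw [czy]; exact cv
    have vz : v ≠ z := by rintro rfl; exact cvz rfl
    have vu : v ≠ u := by
      rintro rfl
      rcases I_struct hG hS hd.1 with ⟨x, y, p, -, -, -, -, -, hup, -, hN, tx, ty, tp, ix, iy⟩
      rcases hN s2 hs2v.symm with e | e | e
      · exact ix.1 (e ▸ o2)
      · exact iy.1 (e ▸ o2)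
      · rcases hN w huw with e' | e' | e'
        · exact ix.1 (e' ▸ hw)
        · exact iy.1 (e' ▸ hw)
        · exact k4.ne (e.trans e'.symm)
    have tv : t ≠ v := by rintro rfl; exact cvz ct.symm
    have ty : t ≠ y := by rintro rfl; exact hcf.2.2.1 hzt
    have y'z : y' ≠ z := by rintro rfl; exact hcf.2.2.1 hyy'.symm
    have y's2 : y' ≠ s2 := by
      rintro rfl
      rcases N2 y hyy'.symm with e | e | e
      · exact csz ((cs.trans (congrArg c e).symm).trans czy.symm)
      · exact hsy.ne e.symm
      · exact hvy.ne e.symm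
    have y'u : y' ≠ u := by rintro rfl; exact hy.noI hG hS h hd.1 hyy'
    have wy : w ≠ y := by
      rintro rfl
      exact c1 czy
    have n1 := nI _ hz.1
    have n2 := nI _ o2
    have n3 := nI _ os
    have n4 := nI _ hy.1
    have hD := h.nonneg hG {x | x ∈ [w, z, s, s2, y, v, u]}
    rw [D_list _ _ (by
      simp [k1.ne, k5, k4.ne.symm, wy, vw.symm, huw.ne.symm, k2.ne, k6, hcf.1, vz.symm, n1,
        k3.ne, hsy.ne, vs.symm, n3, nys2.symm, hs2v.ne, n2, hvy.ne.symm, n4, vu])] at hD
    simp only [List.map_cons, List.map_nil, List.sum_cons, List.sum_nil, add_zero] at hD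
    have a1 : nr G c {x | x ∈ [w, z, s, s2, y, v, u]} w = 0 := by
      rw [nr_eq k6 n1 n2 Nw2, ev_in (by simp), ev_in (by simp), ev_in (by simp)]
      norm_num
    have a2 : nr G c {x | x ∈ [w, z, s, s2, y, v, u]} z ≤ -20 := by
      rw [nr_eq k5 tw.symm ts.symm Nz, ev_in (by simp), ev_in (by simp), ev_mono (by
        simp [tw, ts, tu, hzt.ne.symm, ts2, tv, ty]) ct]
      have := wt_ge hzt hz.1.not_I
      linarith
    have a3 : nr G c {x | x ∈ [w, z, s, s2, y, v, u]} s = 0 := by
      rw [nr_eq k6 hcf.1 nys2.symm Ns, ev_in (by simp), ev_in (by simp), ev_in (by simp)]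
      norm_num
    have a4 : nr G c {x | x ∈ [w, z, s, s2, y, v, u]} s2 = 0 := by
      rw [nr_eq k5 vw.symm vs.symm N2, ev_in (by simp), ev_in (by simp), ev_in (by simp)]
      norm_num
    have a5 : nr G c {x | x ∈ [w, z, s, s2, y, v, u]} y ≤ -20 := by
      rw [nr_eq vs.symm y's.symm y'v.symm Nyy, ev_in (by simp), ev_in (by simp), ev_mono (by
        simp [y'w, y'z, y's, y's2, hyy'.ne.symm, y'v, y'u]) cy']
      have := wt_ge hyy' hy.1.not_I
      linarith
    have a6 : nr G c {x | x ∈ [w, z, s, s2, y, v, u]} v ≤ 22 := by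
      rw [nr_eq nys2.symm v3a.symm v3b.symm Nv, ev_in (by simp), ev_in (by simp)]
      have := ev_le (G := G) (c := c) (X := {x | x ∈ [w, z, s, s2, y, v, u]}) (u := v) (v := v3)
      have := wt_le (G := G) v v3
      linarith
    have a7 : nr G c {x | x ∈ [w, z, s, s2, y, v, u]} u = -20 := by
      refine nr_dead hG hS hd huw hTw (by simp) ?_
      intro x hx
      have ix := hd.1.nb hG hx
      simp only [Set.mem_ofPred_eq, List.mem_cons, List.not_mem_nil, or_false, not_or]
      refine ⟨fun e => ix.1 (e ▸ hw), fun e => ix.1 (e ▸ hz.1), fun e => ix.1 (e ▸ os),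
        fun e => ix.1 (e ▸ o2), fun e => ix.1 (e ▸ hy.1), ?_, hx.1.ne.symm⟩
      rintro rfl
      exact hy.noI hG hS h ix hvy.symm
    linarith
  rcases Nw z hwz with e | e | e
  · subst e; exact key s2 k1 k2 k3 k4 k6 c1 c2 o2
  · subst e; exact key s1 k4.symm k3.symm k2.symm k1.symm k6.symm c2 c1 o1
  · exact absurd e (nI _ hz.1)

end Pool.Agent.N370.SQ
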