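import Pool.Agent.N370.SQ.Conf2

/-!
# Isolated triangles and their neighbours
-/

set_option autoImplicit false

namespace Pool.Agent.N370.SQ

variable {V : Type*} {G : SimpleGraph V}

variable (G) in
/-- vertices on 4-cycles which are ends of monochromatic edges -/
def Sg (c : V → Bool) (x : V) : Prop := On G x ∧ ∃ x', G.Adj x x' ∧ c x = c x'

variable (G) in
/-- distance one or two -/
def Cl (u v : V) : Prop := u ≠ v ∧ (G.Adj u v ∨ ∃ w, G.Adj u w ∧ G.Adj w v)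

theorem Cl.symm {u v : V} (h : Cl G u v) : Cl G v u :=
  ⟨h.1.symm, h.2.elim (fun h => Or.inl h.symm) fun ⟨w, h1, h2⟩ => Or.inr ⟨w, h2.symm, h1.symm⟩⟩

theorem SS.sg {c : V → Bool} {x : V} (h : SS G c x) : Sg G c x :=
  ⟨h.1, h.2.elim fun x' h => ⟨x', h.1, h.2.1⟩⟩

theorem noC4_of_I {u w : V} (hu : I G u) : ¬ C4 G w u := fun h => hu.1 h.symm.on

/-- Vertices of `Sg` have no neighbours in isolated triangles. -/
theorem Sg.noI [Fintype V] (hG : Cub G) (hS : Short G) {c : V → Bool} (h : Mn G c) {z i : V}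
    (hz : Sg G c z) (hi : I G i) : ¬ G.Adj z i := by
  intro hzi
  have hT : ¬ T3 G i z := fun hT => (hi.nb hG hT).1 hz.1
  obtain ⟨hon, x', hx', hc⟩ := hz
  exact h.off' hG hon hzi (noC4_of_I hi) (h.token hG hS hi hzi.symm hT) x' hx' hc.symm

theorem Sg.cl_I [Fintype V] (hG : Cub G) (hS : Short G) {c : V → Bool} (h : Mn G c) {z u : V}
    (hz : Sg G c z) (hu : I G u) (hcl : Cl G z u) :
    ∃ w, G.Adj u w ∧ ¬ T3 G u w ∧ ¬ I G w ∧ G.Adj w z := by
  obtain ⟨hne, hadj | ⟨w, hzw, hwu⟩⟩ := hcl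
  · exact absurd hadj (hz.noI hG hS h hu)
  · have hw : ¬ I G w := fun hw => hz.noI hG hS h hw hzw
    exact ⟨w, hwu.symm, fun hT => hw (hu.nb hG hT), hw, hzw.symm⟩

/-- The 4-cycle of a neighbour of an isolated triangle. -/
theorem exit_sq [Fintype V] (hG : Cub G) (hS : Short G) {c : V → Bool} (h : Mn G c) {u w : V}
    (hu : I G u) (hw : On G w) (huw : G.Adj u w) :
    ∃ s1 s s2, G.Adj w s1 ∧ G.Adj s1 s ∧ G.Adj s s2 ∧ G.Adj s2 w ∧ w ≠ s ∧ s1 ≠ s2 ∧
      c s1 ≠ c w ∧ c s2 ≠ c w ∧ c s = c w ∧ c u ≠ c w ∧ On G s1 ∧ On G s ∧ On G s2 ∧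
      (∀ z, G.Adj w z → z = s1 ∨ z = s2 ∨ z = u) := by
  obtain ⟨a, s, b, h1, h2, h3, h4, h5, h6⟩ := hw.square
  have oa : On G a := C4.on (u := a) (v := s) ⟨h2, b, w, h3, h4, h1, h6, h5.symm⟩
  have ob : On G b := C4.on (u := b) (v := w) ⟨h4, a, s, h1, h2, h3, h6.symm, h5⟩
  have os : On G s := C4.on (u := s) (v := b) ⟨h3, w, a, h4, h1, h2, h5.symm, h6.symm⟩
  have hT : ¬ T3 G u w := fun hT => (hu.nb hG hT).1 hw
  have ua : a ≠ u := fun e => hu.1 (e ▸ oa)
  have ub : b ≠ u := fun e => hu.1 (e ▸ ob)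
  have ca := h.off hG hw huw.symm (noC4_of_I hu) a h1 ua
  have cb := h.off hG hw huw.symm (noC4_of_I hu) b h4.symm ub
  have cs : c s = c w := by
    by_contra e
    exact h6 (h.unique hG os.not_I h2.symm h3 (eq_of_ne_ne e ca) (eq_of_ne_ne e cb))
  exact ⟨a, s, b, h1, h2, h3, h4, h5, h6, ca, cb, cs, h.token hG hS hu huw hT, oa, os, ob,
    three hG h1 h4.symm huw.symm h6 ua ub⟩

variable (G) in
/-- `u` has the colour of another vertex of its triangle -/
def Mj (c : V → Bool) (u : V) : Prop := ∃ x, T3 G u x ∧ c x = c u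

variable (G) in
/-- the triangle of `u` is monochromatic -/
def Dd (c : V → Bool) (u : V) : Prop := I G u ∧ ∀ x, T3 G u x → c x = c u

theorem Dd.mj {c : V → Bool} {u : V} (hG : Cub G) (hS : Short G) (h : Dd G c u) : Mj G c u := by
  obtain ⟨x, y, z, -, -, -, -, -, -, -, -, tx, -⟩ := I_struct hG hS h.1
  exact ⟨x, tx, h.2 x tx⟩

/-- contribution of a vertex `u` of a triangle which is flipped alone in its triangle -/
theorem nr_maj [Fintype V] (hG : Cub G) (hS : Short G) {c : V → Bool} {u w : V} {X : Set V}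
    (hu : I G u) (hm : Mj G c u) (hw : G.Adj u w) (hT : ¬ T3 G u w) (hwX : w ∈ X)
    (hX : ∀ x, T3 G u x → x ∉ X) : nr G c X u ≤ 0 := by
  obtain ⟨x, y, z, hxy, hxz, hyz, hux, huy, huz, axy, hN, tx, ty, tz, ix, iy⟩ := I_struct hG hS hu
  have hz : w = z := by
    rcases hN w hw with e | e | e
    · subst e; exact absurd tx hT
    · subst e; exact absurd ty hT
    · exact e
  subst hz
  rw [nr_eq hxy hxz hyz hN, ev_in hwX]
  have w1 := wt_inner hu tx
  have w2 := wt_inner hu ty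
  have l1 := ev_le (G := G) (c := c) (X := X) (u := u) (v := x)
  have l2 := ev_le (G := G) (c := c) (X := X) (u := u) (v := y)
  obtain ⟨x', tx', cx'⟩ := hm
  rcases hN x' tx'.1 with e | e | e
  · subst e
    have := ev_mono (G := G) (hX x' tx) cx'.symm
    linarith
  · subst e
    have := ev_mono (G := G) (hX x' ty) cx'.symm
    linarith
  · subst e; exact absurd tx' tz

theorem nr_dead [Fintype V] (hG : Cub G) (hS : Short G) {c : V → Bool} {u w : V} {X : Set V}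
    (hd : Dd G c u) (hw : G.Adj u w) (hT : ¬ T3 G u w) (hwX : w ∈ X)
    (hX : ∀ x, T3 G u x → x ∉ X) : nr G c X u = -20 := by
  obtain ⟨x, y, z, hxy, hxz, hyz, hux, huy, huz, axy, hN, tx, ty, tz, ix, iy⟩ :=
    I_struct hG hS hd.1
  have hz : w = z := by
    rcases hN w hw with e | e | e
    · subst e; exact absurd tx hT
    · subst e; exact absurd ty hT
    · exact e
  subst hz
  rw [nr_eq hxy hxz hyz hN, ev_in hwX, ev_mono (hX x tx) (hd.2 x tx).symm,
    ev_mono (hX y ty) (hd.2 y ty).symm, wt_inner hd.1 tx, wt_inner hd.1 ty]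
  norm_num

/-- a dead vertex with at least one triangle neighbour outside of `X` -/
theorem nr_dead' [Fintype V] (hG : Cub G) (hS : Short G) {c : V → Bool} {u u' w : V} {X : Set V}
    (hd : Dd G c u) (hw : G.Adj u w) (hT : ¬ T3 G u w) (hwX : w ∈ X)
    (hX : ∀ x, T3 G u x → x ≠ u' → x ∉ X) : nr G c X u ≤ -10 := by
  obtain ⟨x, y, z, hxy, hxz, hyz, hux, huy, huz, axy, hN, tx, ty, tz, ix, iy⟩ :=
    I_struct hG hS hd.1
  have hz : w = z := by
    rcases hN w hw with e | e | e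
    · subst e; exact absurd tx hT
    · subst e; exact absurd ty hT
    · exact e
  subst hz
  rw [nr_eq hxy hxz hyz hN, ev_in hwX]
  have key : ∀ x, T3 G u x → ev G c X u x ≤ 0 ∧ (x ≠ u' → ev G c X u x = -10) := by
    intro x tx
    by_cases hx : x ∈ X
    · refine ⟨by rw [ev_in hx], fun hne => absurd hx (hX x tx hne)⟩
    · rw [ev_mono hx (hd.2 x tx).symm, wt_inner hd.1 tx]
      exact ⟨by norm_num, fun _ => rfl⟩
  have k1 := key x tx
  have k2 := key y ty
  by_cases e : x = u'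
  · have e2 : y ≠ u' := fun e' => hxy (e.trans e'.symm)
    have := k2.2 e2
    linarith [k1.1]
  · have := k1.2 e
    linarith [k2.1]

/-- Two neighbours of an exit which are ends of monochromatic edges. -/
theorem exit_two [Fintype V] (hG : Cub G) (hS : Short G) {c : V → Bool} (h : Mn G c)
    {u w z1 z2 : V} (hu : I G u) (hm : Mj G c u) (hw : On G w) (huw : G.Adj u w)
    (h1 : G.Adj w z1) (h2 : G.Adj w z2) (hz1 : Sg G c z1) (hz2 : Sg G c z2) (hne : z1 ≠ z2) :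
    G.Adj z1 z2 ∧ c z1 = c z2 := by
  obtain ⟨s1, s, s2, k1, k2, k3, k4, k5, k6, c1, c2, cs, cu, o1, os, o2, Nw⟩ :=
    exit_sq hG hS h hu hw huw
  have hT : ¬ T3 G u w := fun hT => (hu.nb hG hT).1 hw
  have nI : ∀ z, Sg G c z → z ≠ u := fun z hz e => hu.1 (e ▸ hz.1)
  have key : ∀ s1 s2, G.Adj w s1 → G.Adj s1 s → G.Adj s s2 → G.Adj s2 w → s1 ≠ s2 →
      c s1 ≠ c w → c s2 ≠ c w → Sg G c s1 → Sg G c s2 → G.Adj s1 s2 ∧ c s1 = c s2 := by
    intro s1 s2 k1 k2 k3 k4 k6 c1 c2 hs1 hs2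
    obtain ⟨-, t1, ht1, ct1⟩ := id hs1
    obtain ⟨-, t2, ht2, ct2⟩ := id hs2
    refine ⟨?_, eq_of_ne_ne c1 c2⟩
    by_contra hnadj
    have t1w : t1 ≠ w := by rintro rfl; exact c1 ct1
    have t1s : t1 ≠ s := by rintro rfl; exact c1 (ct1.trans cs)
    have t2w : t2 ≠ w := by rintro rfl; exact c2 ct2
    have t2s : t2 ≠ s := by rintro rfl; exact c2 (ct2.trans cs)
    have N1 := three hG k1.symm k2 ht1 k5 t1w.symm t1s.symm
    have N2 := three hG k4 k3.symm ht2 k5 t2w.symm t2s.symm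
    obtain ⟨t, t1', t2', hst, Ns⟩ := third hG k2.symm k3 k6
    have Nw' := three hG k1 k4.symm huw.symm k6 (nI _ hs1) (nI _ hs2)
    have t1u : t1 ≠ u := by rintro rfl; exact hs1.noI hG hS h hu ht1
    have t2u : t2 ≠ u := by rintro rfl; exact hs2.noI hG hS h hu ht2
    have su : s ≠ u := fun e => hu.1 (e ▸ os)
    have hD := h.nonneg hG {x | x ∈ [w, s1, s, s2, u]}
    rw [D_list _ _ (by
      simp [k1.ne, k5, k4.ne.symm, huw.ne.symm, k2.ne, k6, nI _ hs1, k3.ne, nI _ hs2, su])] at hD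
    simp only [List.map_cons, List.map_nil, List.sum_cons, List.sum_nil, add_zero] at hD
    have a1 : nr G c {x | x ∈ [w, s1, s, s2, u]} w = 0 := by
      rw [nr_eq k6 (nI _ hs1) (nI _ hs2) Nw', ev_in (by simp), ev_in (by simp), ev_in (by simp)]
      norm_num
    have a2 : nr G c {x | x ∈ [w, s1, s, s2, u]} s1 ≤ -20 := by
      rw [nr_eq k5 t1w.symm t1s.symm N1, ev_in (by simp), ev_in (by simp), ev_mono (by
        have : t1 ≠ s2 := fun e => hnadj (e ▸ ht1)
        simp [t1w, t1s, t1u, ht1.ne.symm, this]) ct1]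
      have := wt_ge ht1 hs1.1.not_I
      linarith
    have a3 : nr G c {x | x ∈ [w, s1, s, s2, u]} s2 ≤ -20 := by
      rw [nr_eq k5 t2w.symm t2s.symm N2, ev_in (by simp), ev_in (by simp), ev_mono (by
        have : t2 ≠ s1 := fun e => hnadj (e ▸ ht2).symm
        simp [t2w, t2s, t2u, ht2.ne.symm, this]) ct2]
      have := wt_ge ht2 hs2.1.not_I
      linarith
    have a4 : nr G c {x | x ∈ [w, s1, s, s2, u]} s ≤ 22 := by
      rw [nr_eq k6 t1'.symm t2'.symm Ns, ev_in (by simp), ev_in (by simp)]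
      have := ev_le (G := G) (c := c) (X := {x | x ∈ [w, s1, s, s2, u]}) (u := s) (v := t)
      have := wt_le (G := G) s t
      linarith
    have a5 : nr G c {x | x ∈ [w, s1, s, s2, u]} u ≤ 0 := by
      refine nr_maj hG hS hu hm huw hT (by simp) ?_
      intro x hx
      have ix := hu.nb hG hx
      simp only [Set.mem_ofPred_eq, List.mem_cons, List.not_mem_nil, or_false, not_or]
      exact ⟨fun e => ix.1 (e ▸ hw), fun e => ix.1 (e ▸ hs1.1), fun e => ix.1 (e ▸ os),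
        fun e => ix.1 (e ▸ hs2.1), hx.1.ne.symm⟩
    linarith
  rcases Nw z1 h1 with e1 | e1 | e1
  · rcases Nw z2 h2 with e2 | e2 | e2
    · exact absurd (e1.trans e2.symm) hne
    · subst e1; subst e2; exact key z1 z2 k1 k2 k3 k4 k6 c1 c2 hz1 hz2
    · exact absurd e2 (nI _ hz2)
  · rcases Nw z2 h2 with e2 | e2 | e2
    · subst e1; subst e2; exact key z1 z2 k4.symm k3.symm k2.symm k1.symm k6.symm c2 c1 hz1 hz2
    · exact absurd (e1.trans e2.symm) hne
    · exact absurd e2 (nI _ hz2)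
  · exact absurd e1 (nI _ hz1)

/-- Colours at an apex. -/
theorem A_col [Fintype V] (hG : Cub G) (hS : Short G) {c : V → Bool} (h : Mn G c) {v : V}
    (hv : A G v) : ∃ x y z a b, x ≠ y ∧ x ≠ z ∧ y ≠ z ∧ G.Adj v x ∧ G.Adj v y ∧ G.Adj v z ∧
      G.Adj x y ∧ (∀ w, G.Adj v w → w = x ∨ w = y ∨ w = z) ∧ ¬ T3 G v z ∧
      G.Adj x a ∧ G.Adj y b ∧ G.Adj a b ∧ a ≠ v ∧ a ≠ y ∧ b ≠ v ∧ b ≠ x ∧
      (∀ w, G.Adj x w → w = v ∨ w = y ∨ w = a) ∧ (∀ w, G.Adj y w → w = v ∨ w = x ∨ w = b) ∧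
      On G x ∧ On G y ∧ On G a ∧ On G b ∧ c x = c v ∧ c y ≠ c v ∧ c a ≠ c v ∧ c b = c v ∧
      c z ≠ c v := by
  have key : ∀ x y z a b, x ≠ y → x ≠ z → y ≠ z → G.Adj v x → G.Adj v y → G.Adj v z →
      G.Adj x y → (∀ w, G.Adj v w → w = x ∨ w = y ∨ w = z) → ¬ T3 G v z →
      G.Adj x a → G.Adj y b → G.Adj a b → a ≠ v → a ≠ y → b ≠ v → b ≠ x →
      (∀ w, G.Adj x w → w = v ∨ w = y ∨ w = a) → (∀ w, G.Adj y w → w = v ∨ w = x ∨ w = b) →
      c x = c v → ∃ x y z a b, x ≠ y ∧ x ≠ z ∧ y ≠ z ∧ G.Adj v x ∧ G.Adj v y ∧ G.Adj v z ∧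
      G.Adj x y ∧ (∀ w, G.Adj v w → w = x ∨ w = y ∨ w = z) ∧ ¬ T3 G v z ∧
      G.Adj x a ∧ G.Adj y b ∧ G.Adj a b ∧ a ≠ v ∧ a ≠ y ∧ b ≠ v ∧ b ≠ x ∧
      (∀ w, G.Adj x w → w = v ∨ w = y ∨ w = a) ∧ (∀ w, G.Adj y w → w = v ∨ w = x ∨ w = b) ∧
      On G x ∧ On G y ∧ On G a ∧ On G b ∧ c x = c v ∧ c y ≠ c v ∧ c a ≠ c v ∧ c b = c v ∧
      c z ≠ c v := by
    intro x y z a b hxy hxz hyz hvx hvy hvz axy hN hT hxa hyb hab av ay bv bx Nx Ny cx
    have Cxy : C4 G x y := ⟨axy, b, a, hyb, hab.symm, hxa.symm, bx.symm, ay.symm⟩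
    have Cab : C4 G a b := ⟨hab, y, x, hyb.symm, axy.symm, hxa, ay, bx⟩
    have nx : ¬ C4 G x v := fun h => hv.1 h.symm.on
    have ny : ¬ C4 G y v := fun h => hv.1 h.symm.on
    have c1 := h.off hG Cxy.on hvx.symm nx y axy hvy.ne.symm
    have c2 := h.off hG Cxy.on hvx.symm nx a hxa av
    have c3 := h.off hG Cxy.symm.on hvy.symm ny b hyb bv
    refine ⟨x, y, z, a, b, hxy, hxz, hyz, hvx, hvy, hvz, axy, hN, hT, hxa, hyb, hab, av, ay, bv,
      bx, Nx, Ny, Cxy.on, Cxy.symm.on, Cab.on, Cab.symm.on, cx, by rw [← cx]; exact c1,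
      by rw [← cx]; exact c2, ?_, ?_⟩
    · rw [← cx]; exact eq_of_ne_ne c3 (fun e => c1 e.symm)
    · intro e
      exact hxz (h.unique hG hv.not_I hvx hvz cx.symm e.symm)
  obtain ⟨x, y, z, a, b, hxy, hxz, hyz, hvx, hvy, hvz, axy, hN, hT, hxa, hyb, hab, av, ay, bv,
    bx, Nx, Ny⟩ := A_struct hG hS hv
  by_cases cx : c x = c v
  · exact key x y z a b hxy hxz hyz hvx hvy hvz axy hN hT hxa hyb hab av ay bv bx Nx Ny cx
  · have Cxy : C4 G x y := ⟨axy, b, a, hyb, hab.symm, hxa.symm, bx.symm, ay.symm⟩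
    have nx : ¬ C4 G x v := fun h => hv.1 h.symm.on
    have c1 := h.off hG Cxy.on hvx.symm nx y axy hvy.ne.symm
    have cy : c y = c v := eq_of_ne_ne c1 (fun e => cx e.symm)
    exact key y x z b a hxy.symm hyz hxz hvy hvx hvz axy.symm
      (fun w hw => by rcases hN w hw with h | h | h <;> simp [h]) hT hyb hxa hab.symm bv bx av ay
      Ny Nx cy

/-- A dead triangle is not adjacent to an apex. -/
theorem Dd.noA [Fintype V] (hG : Cub G) (hS : Short G) {c : V → Bool} (h : Mn G c) {u w : V}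
    (hd : Dd G c u) (hw : A G w) : ¬ G.Adj u w := by
  intro huw
  obtain ⟨x, y, z, a, b, hxy, hxz, hyz, hvx, hvy, hvz, axy, hN, hT, hxa, hyb, hab, av, ay, bv,
    bx, Nx, Ny, ox, oy, oa, ob, cx, cy, ca, cb, cz⟩ := A_col hG hS h hw
  have hu : I G u := hd.1
  have hTu : ¬ T3 G u w := fun hT' => hw.not_I (hu.nb hG hT')
  have ux : u ≠ x := fun e => hu.1 (e ▸ ox)
  have uy : u ≠ y := fun e => hu.1 (e ▸ oy)
  have huz : u = z := by
    rcases hN u huw.symm with e | e | e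
    · exact absurd e ux
    · exact absurd e uy
    · exact e
  subst huz
  have hD := h.nonneg hG {x | x ∈ [w, u]}
  rw [D_list _ _ (by simp [huw.ne.symm])] at hD
  simp only [List.map_cons, List.map_nil, List.sum_cons, List.sum_nil, add_zero] at hD
  have a1 : nr G c {x | x ∈ [w, u]} w ≤ 0 := by
    rw [nr_eq hxy ux.symm uy.symm hN, ev_mono (v := x) (by simp [hvx.ne.symm, ux.symm]) cx.symm,
      ev_bi (v := y) (by simp [hvy.ne.symm, uy.symm]) (fun e => cy e.symm), ev_in (by simp),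
      wt_plain hvx (fun h => hw.1 h.on) hw.not_I ox.not_I,
      wt_plain hvy (fun h => hw.1 h.on) hw.not_I oy.not_I]
    norm_num
  have a2 : nr G c {x | x ∈ [w, u]} u = -20 := by
    refine nr_dead hG hS hd huw hTu (by simp) ?_
    intro x hx
    have ix := hu.nb hG hx
    simp only [Set.mem_ofPred_eq, List.mem_cons, List.not_mem_nil, or_false, not_or]
    exact ⟨fun e => hw.not_I (e ▸ ix), hx.1.ne.symm⟩
  linarith

/-- The neighbours of an exit at an apex. -/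
theorem apex_one [Fintype V] (hG : Cub G) (hS : Short G) {c : V → Bool} (h : Mn G c)
    {u w z1 z2 : V} (hu : I G u) (hw : A G w) (huw : G.Adj u w)
    (h1 : G.Adj w z1) (h2 : G.Adj w z2) (hz1 : Sg G c z1) (hz2 : Sg G c z2) : z1 = z2 := by
  obtain ⟨x, y, z, a, b, hxy, hxz, hyz, hvx, hvy, hvz, axy, hN, hT, hxa, hyb, hab, av, ay, bv,
    bx, Nx, Ny, ox, oy, oa, ob, cx, cy, ca, cb, cz⟩ := A_col hG hS h hw
  have key : ∀ z', G.Adj w z' → Sg G c z' → z' = x := by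
    intro z' hz' hs
    rcases hN z' hz' with e | e | e
    · exact e
    · subst e
      exfalso
      obtain ⟨-, t, ht, ct⟩ := hs
      exact h.off' hG oy hvy.symm (fun h => hw.1 h.symm.on) (fun e => cy e.symm) t ht ct.symm
    · subst e
      exfalso
      -- z' = u
      have ux : u ≠ x := fun e => hu.1 (e ▸ ox)
      have uy : u ≠ y := fun e => hu.1 (e ▸ oy)
      rcases hN u huw.symm with e | e | e
      · exact ux e
      · exact uy e
      · subst e; exact hu.1 hs.1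
  rw [key z1 h1 hz1, key z2 h2 hz2]

/-- L5 : vertices of `Sg` close to a vertex of an isolated triangle. -/
theorem close_two [Fintype V] (hG : Cub G) (hS : Short G) {c : V → Bool} (h : Mn G c)
    {u z1 z2 : V} (hu : I G u) (hm : Mj G c u) (hz1 : Sg G c z1) (hz2 : Sg G c z2)
    (hc1 : Cl G z1 u) (hc2 : Cl G z2 u) : z1 = z2 ∨ (G.Adj z1 z2 ∧ c z1 = c z2) := by
  obtain ⟨w, h1, h2, h3, h4⟩ := hz1.cl_I hG hS h hu hc1
  obtain ⟨w', h1', h2', h3', h4'⟩ := hz2.cl_I hG hS h hu hc2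
  have hww : w = w' := by
    obtain ⟨x, y, z, hxy, hxz, hyz, hux, huy, huz, axy, hN, tx, ty, tz, ix, iy⟩ :=
      I_struct hG hS hu
    have e : ∀ w, G.Adj u w → ¬ T3 G u w → w = z := by
      intro w hw hT
      rcases hN w hw with e | e | e
      · subst e; exact absurd tx hT
      · subst e; exact absurd ty hT
      · exact e
    rw [e w h1 h2, e w' h1' h2']
  subst hww
  rcases kinds (G := G) w with hw | hw | hw
  · by_cases e : z1 = z2
    · exact Or.inl e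
    · exact Or.inr (exit_two hG hS h hu hm hw h1 h4 h4' hz1 hz2 e)
  · exact Or.inl (apex_one hG hS h hu hw h1 h4 h4' hz1 hz2)
  · exact absurd hw h3

end Pool.Agent.N370.SQ
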