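import Pool.Agent.N370.SQ.Conf
import Pool.Agent.N370.CF.Pack

/-!
# Cubic graphs with a 4-cycle at every vertex
-/

set_option autoImplicit false

namespace Pool.Agent.N370.SQ

open Pool.Agent.N370.CF (IsPacking PackingColourable invol_colour packing_one packing_mono
  walk_of_le)

/-- A perfect matching and a matching admit a common two-colouring. -/
theorem two_col {α : Type*} (t : α → α) (ht : ∀ x, t (t x) = x) (ht' : ∀ x, t x ≠ x)
    (r : α → α → Prop) (rs : ∀ x y, r x y → r y x) (ru : ∀ x y z, r x y → r x z → y = z)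
    (ri : ∀ x y, r x y → x ≠ y) :
    ∃ c : α → Bool, (∀ x, c (t x) ≠ c x) ∧ ∀ x y, r x y → c x ≠ c y := by
  classical
  let s' : α × Bool → α × Bool := fun p => if h : ∃ y, r p.1 y then (h.choose, p.2) else (p.1, !p.2)
  let t' : α × Bool → α × Bool := fun p => (t p.1, p.2)
  have s1 : ∀ x y b, r x y → s' (x, b) = (y, b) := by
    intro x y b h
    have hex : ∃ y, r x y := ⟨y, h⟩
    have h1 : hex.choose = y := ru x _ _ hex.choose_spec h
    simp only [s', dif_pos hex, h1]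
  have s2 : ∀ x b, (¬ ∃ y, r x y) → s' (x, b) = (x, !b) := by
    intro x b h
    simp only [s', dif_neg h]
  obtain ⟨c, hc⟩ := invol_colour s' t'
    (by
      rintro ⟨x, b⟩
      by_cases h : ∃ y, r x y
      · obtain ⟨y, hy⟩ := h
        rw [s1 x y b hy, s1 y x b (rs _ _ hy)]
      · rw [s2 x b h, s2 x _ h]; simp)
    (by rintro ⟨x, b⟩; simp [t', ht])
    (by
      rintro ⟨x, b⟩
      by_cases h : ∃ y, r x y
      · obtain ⟨y, hy⟩ := h
        rw [s1 x y b hy]
        intro e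
        exact ri _ _ hy (congrArg Prod.fst e).symm
      · rw [s2 x b h]
        intro e
        have := congrArg Prod.snd e
        revert this
        cases b <;> simp)
    (by
      rintro ⟨x, b⟩ e
      exact ht' x (congrArg Prod.fst e))
  refine ⟨fun x => c (x, false), fun x => (hc (x, false)).2, fun x y h => ?_⟩
  have := (hc (x, false)).1
  rw [s1 x y false h] at this
  exact this.symm

variable {V : Type*} {G : SimpleGraph V}

theorem packing_two {X : Set V} (h1 : ∀ u ∈ X, ∀ v ∈ X, ¬ G.Adj u v)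
    (h2 : ∀ u ∈ X, ∀ v ∈ X, u ≠ v → ∀ w, G.Adj u w → G.Adj w v → False) : IsPacking G 2 X := by
  intro u hu v hv huv
  by_contra hcon
  obtain ⟨p, hp⟩ := walk_of_le hcon
  match p, hp with
  | .nil, _ => exact huv rfl
  | .cons h .nil, _ => exact h1 u hu v hv h
  | .cons (v := w) h (.cons h' .nil), _ => exact h2 u hu v hv huv w h h'
  | .cons _ (.cons _ (.cons _ _)), hp =>
    simp only [SimpleGraph.Walk.length_cons] at hp
    omega

theorem colourable_of_c4 [Fintype V] (hG : Cub G) (hH : AllC4 G) :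
    PackingColourable G ![1, 1, 2, 2] := by
  classical
  obtain ⟨c, h⟩ := exists_opt G
  let Sg := {x : V // ∃ x', G.Adj x x' ∧ c x = c x'}
  have hpart : ∀ x : Sg, ∃ y : Sg, G.Adj x.1 y.1 ∧ c x.1 = c y.1 := by
    rintro ⟨x, x', h1, h2⟩
    exact ⟨⟨x', x, h1.symm, h2.symm⟩, h1, h2⟩
  choose t ht1 ht2 using hpart
  have tu : ∀ x y : Sg, G.Adj x.1 y.1 → c x.1 = c y.1 → y = t x := fun x y h1 h2 =>
    Subtype.ext (h.unique hG h1 (ht1 x) h2 (ht2 x))
  obtain ⟨k, hk1, hk2⟩ := two_col t (fun x => (tu _ _ (ht1 x).symm (ht2 x).symm).symm)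
    (fun x e => (ht1 x).ne (congrArg Subtype.val e).symm)
    (fun x y => Conf G c x.1 y.1) (fun x y hxy => hxy.symm)
    (fun x y z h1 h2 => Subtype.ext (conf_unique hG hH h h1 h2))
    (fun x y hxy e => hxy.1 (congrArg Subtype.val e))
  -- the removed vertices
  let Z : Set V := {v | ∃ hv : ∃ x', G.Adj v x' ∧ c v = c x', k ⟨v, hv⟩ = true}
  have hZ1 : ∀ u v, u ∉ Z → v ∉ Z → G.Adj u v → c u ≠ c v := by
    intro u v hu hv huv huv'
    have su : ∃ x', G.Adj u x' ∧ c u = c x' := ⟨v, huv, huv'⟩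
    have sv : ∃ x', G.Adj v x' ∧ c v = c x' := ⟨u, huv.symm, huv'.symm⟩
    have e : (⟨v, sv⟩ : Sg) = t ⟨u, su⟩ := tu ⟨u, su⟩ ⟨v, sv⟩ huv huv'
    have h1 := hk1 ⟨u, su⟩
    rw [← e] at h1
    have k1 : k ⟨u, su⟩ ≠ true := fun h => hu ⟨su, h⟩
    have k2 : k ⟨v, sv⟩ ≠ true := fun h => hv ⟨sv, h⟩
    exact h1 (eq_of_ne_ne k2 k1)
  have hZ2 : ∀ u ∈ Z, ∀ v ∈ Z, c u = c v → ¬ G.Adj u v := by
    rintro u ⟨su, ku⟩ v ⟨sv, kv⟩ huv' huv
    have e : (⟨v, sv⟩ : Sg) = t ⟨u, su⟩ := tu ⟨u, su⟩ ⟨v, sv⟩ huv huv'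
    have h1 := hk1 ⟨u, su⟩
    rw [← e, ku, kv] at h1
    exact h1 rfl
  have hZ3 : ∀ u ∈ Z, ∀ v ∈ Z, c u = c v → u ≠ v → ∀ w, G.Adj u w → G.Adj w v → False := by
    intro u hu v hv huv hne w h1 h2
    have hadj := hZ2 u hu v hv huv
    obtain ⟨su, ku⟩ := hu
    obtain ⟨sv, kv⟩ := hv
    by_cases cw : c w = c u
    · exact hne (h.unique hG h1.symm h2 cw (cw.trans huv))
    · exact hk2 ⟨u, su⟩ ⟨v, sv⟩ ⟨hne, huv, hadj, su, sv, w, h1, h2, cw⟩ (ku.trans kv.symm)
  let f : V → Fin 4 := fun v => if v ∈ Z then (if c v then 3 else 2) else (if c v then 1 else 0)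
  have f0 : ∀ v, f v = 0 → v ∉ Z ∧ c v = false := by
    intro v hv
    by_cases h1 : v ∈ Z
    · by_cases h2 : c v <;> simp [f, h1, h2] at hv
    · by_cases h2 : c v
      · simp [f, h1, h2] at hv
      · exact ⟨h1, by simpa using h2⟩
  have f1 : ∀ v, f v = 1 → v ∉ Z ∧ c v = true := by
    intro v hv
    by_cases h1 : v ∈ Z
    · by_cases h2 : c v <;> simp [f, h1, h2] at hv
    · by_cases h2 : c v
      · exact ⟨h1, h2⟩
      · simp [f, h1, h2] at hv
  have f2 : ∀ v, f v = 2 → v ∈ Z ∧ c v = false := by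
    intro v hv
    by_cases h1 : v ∈ Z
    · by_cases h2 : c v
      · simp [f, h1, h2] at hv
      · exact ⟨h1, by simpa using h2⟩
    · by_cases h2 : c v <;> simp [f, h1, h2] at hv
  have f3 : ∀ v, f v = 3 → v ∈ Z ∧ c v = true := by
    intro v hv
    by_cases h1 : v ∈ Z
    · by_cases h2 : c v
      · exact ⟨h1, h2⟩
      · simp [f, h1, h2] at hv
    · by_cases h2 : c v <;> simp [f, h1, h2] at hv
  refine ⟨f, ?_⟩
  intro i
  fin_cases i
  · show IsPacking G 1 {v | f v = 0}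
    exact packing_one fun u hu v hv huv =>
      hZ1 u v (f0 u hu).1 (f0 v hv).1 huv ((f0 u hu).2.trans (f0 v hv).2.symm)
  · show IsPacking G 1 {v | f v = 1}
    exact packing_one fun u hu v hv huv =>
      hZ1 u v (f1 u hu).1 (f1 v hv).1 huv ((f1 u hu).2.trans (f1 v hv).2.symm)
  · show IsPacking G 2 {v | f v = 2}
    exact packing_two
      (fun u hu v hv => hZ2 u (f2 u hu).1 v (f2 v hv).1 ((f2 u hu).2.trans (f2 v hv).2.symm))
      (fun u hu v hv => hZ3 u (f2 u hu).1 v (f2 v hv).1 ((f2 u hu).2.trans (f2 v hv).2.symm))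
  · show IsPacking G 2 {v | f v = 3}
    exact packing_two
      (fun u hu v hv => hZ2 u (f3 u hu).1 v (f3 v hv).1 ((f3 u hu).2.trans (f3 v hv).2.symm))
      (fun u hu v hv => hZ3 u (f3 u hu).1 v (f3 v hv).1 ((f3 u hu).2.trans (f3 v hv).2.symm))

theorem cub_of [Fintype V] [DecidableRel G.Adj] (hreg : G.IsRegularOfDegree 3) : Cub G := by
  classical
  intro v
  have h3 : (G.neighborFinset v).card = 3 := by
    rw [SimpleGraph.card_neighborFinset_eq_degree]
    exact hreg v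
  obtain ⟨x, y, z, hxy, hxz, hyz, hN⟩ := Finset.card_eq_three.1 h3
  have hN' : ∀ w, G.Adj v w ↔ w = x ∨ w = y ∨ w = z := by
    intro w
    rw [← SimpleGraph.mem_neighborFinset, hN]
    simp
  exact ⟨x, y, z, hxy, hxz, hyz, (hN' x).2 (Or.inl rfl), (hN' y).2 (Or.inr (Or.inl rfl)),
    (hN' z).2 (Or.inr (Or.inr rfl)), fun w hw => (hN' w).1 hw⟩

theorem c4_of {v : V} (h : ∃ p : G.Walk v v, p.IsCycle ∧ p.length = 4) :
    ∃ a s b, G.Adj v a ∧ G.Adj a s ∧ G.Adj s b ∧ G.Adj b v ∧ v ≠ s ∧ a ≠ b := by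
  obtain ⟨p, hp, hl⟩ := h
  have hn := hp.support_nodup
  match p, hl, hn with
  | .cons (v := a) h1 (.cons (v := s) h2 (.cons (v := b) h3 (.cons h4 .nil))), _, hn =>
    simp only [SimpleGraph.Walk.support_cons, SimpleGraph.Walk.support_nil, List.tail_cons,
      List.nodup_cons, List.mem_cons, List.not_mem_nil, or_false, not_or, not_false_eq_true,
      List.nodup_nil, and_true] at hn
    exact ⟨a, s, b, h1, h2, h3, h4, fun e => hn.2.1.2 e.symm, hn.1.2.1⟩

end Pool.Agent.N370.SQ
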