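import Pool.Agent.N370.SQ.Exit

/-!
# Moving monochromatic isolated triangles
-/

set_option autoImplicit false

namespace Pool.Agent.N370.SQ

variable {V : Type*} {G : SimpleGraph V}

variable (G) in
/-- `v` is in the isolated triangle of `u` -/
def tr (u v : V) : Prop := u = v ∨ T3 G u v

theorem tr.refl (u : V) : tr G u u := Or.inl rfl

theorem tr.symm {u v : V} (h : tr G u v) : tr G v u :=
  h.elim (fun h => Or.inl h.symm) fun h => Or.inr h.symm

theorem tr.isI (hG : Cub G) {u v : V} (hu : I G u) (h : tr G u v) : I G v := by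
  rcases h with rfl | h
  · exact hu
  · exact hu.nb hG h

/-- The triangle and the port of a vertex of an isolated triangle. -/
theorem I_tri (hG : Cub G) (hS : Short G) {u : V} (hu : I G u) :
    ∃ x y z, x ≠ y ∧ T3 G u x ∧ T3 G u y ∧ T3 G x y ∧ (∀ w, T3 G u w → w = x ∨ w = y) ∧
      G.Adj u z ∧ ¬ T3 G u z ∧ ∀ w, G.Adj u w → ¬ T3 G u w → w = z := by
  obtain ⟨x, y, z, hxy, hxz, hyz, hux, huy, huz, axy, hN, tx, ty, tz, ix, iy⟩ := I_struct hG hS hu
  refine ⟨x, y, z, hxy, tx, ty, ⟨axy, u, hux.symm, huy.symm⟩, ?_, huz, tz, ?_⟩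
  · intro w hw
    rcases hN w hw.1 with e | e | e
    · exact Or.inl e
    · exact Or.inr e
    · subst e; exact absurd hw tz
  · intro w hw hT
    rcases hN w hw with e | e | e
    · subst e; exact absurd tx hT
    · subst e; exact absurd ty hT
    · exact e

theorem tr.trans (hG : Cub G) (hS : Short G) {u v w : V} (hu : I G u) (h1 : tr G u v)
    (h2 : tr G v w) : tr G u w := by
  rcases h1 with rfl | h1
  · exact h2
  · rcases h2 with rfl | h2
    · exact Or.inr h1
    · obtain ⟨x, y, z, hxy, tx, ty, txy, hT, -⟩ := I_tri hG hS hu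
      obtain ⟨x', y', z', hxy', tx', ty', txy', hT', -⟩ := I_tri hG hS (hu.nb hG h1)
      -- `u` and the other vertex are the neighbours of `v`
      have key : ∀ v o, T3 G u v → T3 G u o → T3 G v o → I G v → T3 G v w → tr G u w := by
        intro v o h1 ho hvo hv h2
        obtain ⟨x', y', z', hxy', tx', ty', txy', hT', -⟩ := I_tri hG hS hv
        have hou : o ≠ u := ho.1.ne.symm
        rcases hT' w h2 with e | e <;> rcases hT' u h1.symm with e1 | e1 <;>
          rcases hT' o hvo with e2 | e2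
        · exact absurd (e2.trans e1.symm) hou
        · rw [e, ← e1]; exact tr.refl _
        · rw [e, ← e2]; exact Or.inr ho
        · exact absurd (e2.trans e1.symm) hou
        · exact absurd (e2.trans e1.symm) hou
        · rw [e, ← e2]; exact Or.inr ho
        · rw [e, ← e1]; exact tr.refl _
        · exact absurd (e2.trans e1.symm) hou
      rcases hT v h1 with e | e
      · subst e; exact key v y tx ty txy (hu.nb hG tx) h2
      · subst e; exact key v x ty tx txy.symm (hu.nb hG ty) h2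

theorem Dd.tr {c : V → Bool} (hG : Cub G) (hS : Short G) {u v : V} (h : Dd G c u)
    (huv : tr G u v) : Dd G c v ∧ c v = c u := by
  have hc : ∀ w, SQ.tr G u w → c w = c u := by
    rintro w (rfl | hw)
    · rfl
    · exact h.2 w hw
  refine ⟨⟨tr.isI hG h.1 huv, fun x hx => ?_⟩, hc v huv⟩
  rw [hc v huv, hc x (tr.trans hG hS h.1 huv (Or.inr hx))]

/-- A move of a dead triangle to an adjacent triangle. -/
theorem mv [Fintype V] (hG : Cub G) (hS : Short G) {c : V → Bool} (h : Mn G c) {u v : V}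
    (hd : Dd G c u) (hv : I G v) (hadj : G.Adj u v) (hT : ¬ T3 G u v) :
    (∀ x, T3 G v x → c x ≠ c v) ∧ Mn G (flip c {u, v}) := by
  obtain ⟨x, y, z, hxy, hxz, hyz, hvx, hvy, hvz, axy, hN, tx, ty, tz, ix, iy⟩ := I_struct hG hS hv
  have hT' : ¬ T3 G v u := fun h => hT h.symm
  have hz : u = z := by
    rcases hN u hadj.symm with e | e | e
    · subst e; exact absurd tx hT'
    · subst e; exact absurd ty hT'
    · exact e
  subst hz
  have e0 : ({u, v} : Set V) = {w | w ∈ [u, v]} := by ext w; simp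
  have hD := h.nonneg hG {w | w ∈ [u, v]}
  have hDe : D G c {w | w ∈ [u, v]} = -20 + ev G c {w | w ∈ [u, v]} v x +
      ev G c {w | w ∈ [u, v]} v y := by
    rw [D_list _ _ (by simp [hadj.ne])]
    simp only [List.map_cons, List.map_nil, List.sum_cons, List.sum_nil, add_zero]
    rw [nr_dead hG hS hd hadj hT (by simp) (by
      intro x hx
      simp only [Set.mem_ofPred_eq, List.mem_cons, List.not_mem_nil, or_false, not_or]
      exact ⟨hx.1.ne.symm, fun e => hT (e ▸ hx)⟩), nr_eq hxy hxz hyz hN, ev_in (v := u) (by simp)]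
    ring
  have xX : x ∉ ({w | w ∈ [u, v]} : Set V) := by simp [hxz, hvx.ne.symm]
  have yX : y ∉ ({w | w ∈ [u, v]} : Set V) := by simp [hyz, hvy.ne.symm]
  have wx := wt_inner hv tx
  have wy := wt_inner hv ty
  have lx := ev_le (G := G) (c := c) (X := {w | w ∈ [u, v]}) (u := v) (v := x)
  have ly := ev_le (G := G) (c := c) (X := {w | w ∈ [u, v]}) (u := v) (v := y)
  refine ⟨?_, ?_⟩
  · intro w hw e
    rcases hN w hw.1 with e' | e' | e'
    · subst e'
      rw [ev_mono xX e.symm] at hDe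
      linarith
    · subst e'
      rw [ev_mono yX e.symm] at hDe
      linarith
    · subst e'; exact hT' hw
  · rw [e0]
    exact h.of_flip hG (by rw [hDe]; linarith)

/-- The dead triangles after a move. -/
theorem mv_dead [Fintype V] (hG : Cub G) (hS : Short G) {c : V → Bool} (h : Mn G c) {u v : V}
    (hd : Dd G c u) (hv : I G v) (hadj : G.Adj u v) (hT : ¬ T3 G u v) :
    Dd G (flip c {u, v}) v ∧ flip c {u, v} v = c u ∧
      ∀ w, Dd G (flip c {u, v}) w → tr G v w ∨ (Dd G c w ∧ ¬ tr G u w) := by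
  obtain ⟨h1, h2⟩ := mv hG hS h hd hv hadj hT
  have hc : c u ≠ c v := h.token hG hS hd.1 hadj hT
  have f1 : flip c {u, v} u = !(c u) := flip_in (by simp)
  have f2 : flip c {u, v} v = !(c v) := flip_in (by simp)
  have fo : ∀ w, w ≠ u → w ≠ v → flip c {u, v} w = c w := fun w h1 h2 => flip_out (by simp [h1, h2])
  have e2 : flip c {u, v} v = c u := by rw [f2]; exact not_eq_of_ne hc.symm
  refine ⟨⟨hv, fun x hx => ?_⟩, e2, ?_⟩
  · rw [e2, fo x (fun e => hT (e ▸ hx).symm) hx.1.ne.symm]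
    exact eq_of_ne_ne (h1 x hx) hc
  · intro w hw
    by_cases hvw : tr G v w
    · exact Or.inl hvw
    · right
      have hwI := hw.1
      by_cases huw : tr G u w
      · exfalso
        have hu' : Dd G (flip c {u, v}) u := (hw.tr hG hS huw.symm).1
        obtain ⟨x, y, z, hxy, tx, ty, txy, hT3, -⟩ := I_tri hG hS hd.1
        have := hu'.2 x tx
        rw [f1, fo x tx.1.ne.symm (fun e => hT (e ▸ tx)), hd.2 x tx] at this
        revert this
        cases c u <;> simp
      · refine ⟨⟨hwI, fun x hx => ?_⟩, huw⟩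
        have := hw.2 x hx
        have wu : w ≠ u := fun e => huw (e ▸ tr.refl _)
        have wv : w ≠ v := fun e => hvw (e ▸ tr.refl _)
        have xu : x ≠ u := fun e => huw (Or.inr (e ▸ hx).symm)
        have xv : x ≠ v := fun e => hvw (Or.inr (e ▸ hx).symm)
        rwa [fo w wu wv, fo x xu xv] at this

variable (G) in
/-- adjacent isolated triangles -/
def HS (v v' : V) : Prop := I G v ∧ I G v' ∧ ∃ u u', tr G v u ∧ tr G v' u' ∧ G.Adj u u' ∧ ¬ T3 G u u'

variable (G) in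
/-- isolated triangles at distance at most `n` -/
def Rn : ℕ → V → V → Prop
  | 0, v, v' => tr G v v'
  | n + 1, v, v' => ∃ v1, HS G v v1 ∧ Rn n v1 v'

theorem Rn.snoc (hG : Cub G) (hS : Short G) : ∀ (n : ℕ) (v v' v'' : V), I G v → Rn G n v v' →
    HS G v' v'' → Rn G (n + 1) v v''
  | 0, v, v', v'', hv, h, h' => by
    obtain ⟨i1, i2, u, u', h1, h2, h3, h4⟩ := h'
    exact ⟨v'', ⟨hv, i2, u, u', tr.trans hG hS hv h h1, h2, h3, h4⟩, tr.refl _⟩
  | n + 1, v, v', v'', hv, h, h' => by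
    obtain ⟨v1, h1, h2⟩ := h
    exact ⟨v1, h1, Rn.snoc hG hS n v1 v' v'' h1.2.1 h2 h'⟩

/-- at most one vertex of the triangle has not colour `α` -/
def AM (G : SimpleGraph V) (c : V → Bool) (α : Bool) (v : V) : Prop :=
  ∀ p q, tr G v p → tr G v q → p ≠ q → c p ≠ α → c q ≠ α → False

theorem am_lem [Fintype V] (hG : Cub G) (hS : Short G) : ∀ (n : ℕ) (c : V → Bool) (v v' : V),
    Mn G c → Dd G c v → I G v' → Rn G n v v' → (∀ m < n, ¬ Rn G m v v') → AM G c (c v) v'
  | 0, c, v, v', h, hd, hv', hR, _ => by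
    intro p q hp _ _ cp _
    exact cp (hd.tr hG hS (tr.trans hG hS hd.1 hR hp)).2
  | n + 1, c, v, v', h, hd, hv', hR, hmin => by
    obtain ⟨v1, ⟨i1, i2, u, u', h1, h2, h3, h4⟩, hR'⟩ := hR
    have hdu : Dd G c u ∧ c u = c v := hd.tr hG hS h1
    have hu' : I G u' := tr.isI hG i2 h2
    obtain ⟨m1, m2⟩ := mv hG hS h hdu.1 hu' h3 h4
    obtain ⟨m3, m4, -⟩ := mv_dead hG hS h hdu.1 hu' h3 h4
    have hc : c u ≠ c u' := h.token hG hS hdu.1.1 h3 h4
    rcases Nat.eq_zero_or_pos n with rfl | hn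
    · -- distance one
      have hv1 : tr G u' v' := tr.trans hG hS hu' h2.symm hR'
      have key : ∀ p, tr G v' p → c p ≠ c v → p = u' := by
        intro p hp cp
        rcases tr.trans hG hS hu' hv1 hp with e | e
        · exact e.symm
        · exfalso
          apply cp
          rw [← hdu.2]
          exact eq_of_ne_ne (m1 p e) hc
      intro p q hp hq hpq cp cq
      exact hpq ((key p hp cp).trans (key q hq cq).symm)
    · have hd1 : Dd G (flip c {u, u'}) v1 ∧ flip c {u, u'} v1 = flip c {u, u'} u' :=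
        m3.tr hG hS h2.symm
      have ih := am_lem hG hS n (flip c {u, u'}) v1 v' m2 hd1.1 hv' hR'
        (fun m hm hRm => hmin (m + 1) (by omega) ⟨v1, ⟨i1, i2, u, u', h1, h2, h3, h4⟩, hRm⟩)
      rw [hd1.2, m4, hdu.2] at ih
      have hno : ∀ p, tr G v' p → p ≠ u ∧ p ≠ u' := by
        intro p hp
        constructor
        · rintro rfl
          exact hmin 0 (by omega) (tr.trans hG hS hd.1 h1 hp.symm)
        · rintro rfl
          exact hmin 1 (by omega) ⟨v1, ⟨i1, i2, u, p, h1, h2, h3, h4⟩,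
            tr.trans hG hS i2 h2 hp.symm⟩
      have fo : ∀ p, tr G v' p → flip c {u, u'} p = c p := fun p hp =>
        flip_out (by simp [(hno p hp).1, (hno p hp).2])
      intro p q hp hq hpq cp cq
      exact ih p q hp hq hpq (by rw [fo p hp]; exact cp) (by rw [fo q hq]; exact cq)

variable (G) in
/-- the port of `u` is not adjacent to an isolated triangle -/
def Ex (u : V) : Prop := ∀ w, G.Adj u w → ¬ T3 G u w → ¬ I G w

variable (G) in
/-- the triangle of `v` has two exits -/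
def Gd (v : V) : Prop := ∃ u u', tr G v u ∧ tr G v u' ∧ u ≠ u' ∧ Ex G u ∧ Ex G u'

/-- A region with a dead triangle contains a triangle with two exits. -/
theorem exists_gd [Fintype V] (hG : Cub G) (hS : Short G) {c : V → Bool} (h : Mn G c) {v0 : V}
    (hd : Dd G c v0) : ∃ v, I G v ∧ (∃ n, Rn G n v0 v) ∧ Gd G v := by
  classical
  by_contra hcon
  push Not at hcon
  have hcon' : ∀ v, I G v → (∃ n, Rn G n v0 v) → ¬ Gd G v := fun v hv hR => hcon v hv hR
  have hAM : ∀ v, I G v → (∃ n, Rn G n v0 v) → AM G c (c v0) v := by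
    intro v hv hR
    exact am_lem hG hS (Nat.find hR) c v0 v h hd hv (Nat.find_spec hR)
      (fun m hm => Nat.find_min hR hm)
  -- ports
  have hport : ∀ u, ∃ z, I G u → (G.Adj u z ∧ ¬ T3 G u z ∧ ∀ w, G.Adj u w → ¬ T3 G u w → w = z) := by
    intro u
    by_cases hu : I G u
    · obtain ⟨x, y, z, -, -, -, -, -, h1, h2, h3⟩ := I_tri hG hS hu
      exact ⟨z, fun _ => ⟨h1, h2, h3⟩⟩
    · exact ⟨u, fun h => absurd h hu⟩
  choose pt hpt using hport
  let Pa : Finset V := Finset.univ.filter (fun v => I G v ∧ (∃ n, Rn G n v0 v) ∧ I G (pt v) ∧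
    c v = c v0)
  let Pb : Finset V := Finset.univ.filter (fun v => I G v ∧ (∃ n, Rn G n v0 v) ∧ I G (pt v) ∧
    c v ≠ c v0)
  have hstep : ∀ v, I G v → (∃ n, Rn G n v0 v) → I G (pt v) → ∃ n, Rn G n v0 (pt v) := by
    rintro v hv ⟨n, hn⟩ hp
    obtain ⟨k1, k2, k3⟩ := hpt v hv
    exact ⟨n + 1, Rn.snoc hG hS n v0 v (pt v) hd.1 hn
      ⟨hv, hp, v, pt v, tr.refl _, tr.refl _, k1, k2⟩⟩
  have hptpt : ∀ v, I G v → I G (pt v) → pt (pt v) = v := by
    intro v hv hp
    obtain ⟨k1, k2, k3⟩ := hpt v hv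
    obtain ⟨l1, l2, l3⟩ := hpt (pt v) hp
    exact (l3 v k1.symm (fun hT => k2 hT.symm)).symm
  have hle : Pa.card ≤ Pb.card := by
    refine Finset.card_le_card_of_injOn pt ?_ ?_
    · intro v hv
      obtain ⟨-, hvI, hvR, hvp, cv⟩ := Finset.mem_filter.1 (Finset.mem_coe.1 hv)
      obtain ⟨k1, k2, k3⟩ := hpt v hvI
      refine Finset.mem_coe.2 (Finset.mem_filter.2 ⟨Finset.mem_univ _, hvp,
        hstep v hvI hvR hvp, ?_, ?_⟩)
      · rw [hptpt v hvI hvp]; exact hvI
      · intro e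
        exact h.token hG hS hvI k1 k2 (cv.trans e.symm)
    · intro v hv v' hv' e
      obtain ⟨-, hvI, hvR, hvp, cv⟩ := Finset.mem_filter.1 (Finset.mem_coe.1 hv)
      obtain ⟨-, hvI', hvR', hvp', cv'⟩ := Finset.mem_filter.1 (Finset.mem_coe.1 hv')
      rw [← hptpt v hvI hvp, ← hptpt v' hvI' hvp', e]
  -- every vertex has a vertex of its triangle, different from it, with a port at `I`
  have hoth : ∀ v, I G v → (∃ n, Rn G n v0 v) → ∃ u, tr G v u ∧ u ≠ v ∧ I G (pt u) := by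
    intro v hv hR
    by_contra hno
    push Not at hno
    apply hcon' v hv hR
    obtain ⟨x, y, z, hxy, tx, ty, -, -, -⟩ := I_tri hG hS hv
    refine ⟨x, y, Or.inr tx, Or.inr ty, hxy, ?_, ?_⟩
    · intro w hw hT
      have ix := hv.nb hG tx
      rw [(hpt x ix).2.2 w hw hT]
      exact hno x (Or.inr tx) tx.1.ne.symm
    · intro w hw hT
      have iy := hv.nb hG ty
      rw [(hpt y iy).2.2 w hw hT]
      exact hno y (Or.inr ty) ty.1.ne.symm
  have hR0 : ∀ v u, I G v → (∃ n, Rn G n v0 v) → tr G v u → ∃ n, Rn G n v0 u := by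
    rintro v u hv ⟨n, hn⟩ hu
    -- induction on n
    have key : ∀ n v0, I G v0 → Rn G n v0 v → Rn G n v0 u := by
      intro n
      induction n with
      | zero => intro v0 h0 hn; exact tr.trans hG hS h0 hn hu
      | succ n ih =>
        rintro v0 h0 ⟨v1, k1, k2⟩
        exact ⟨v1, k1, ih v1 k1.2.1 k2⟩
    exact ⟨n, key n v0 hd.1 hn⟩
  have hg : ∀ v, ∃ u, (I G v ∧ (∃ n, Rn G n v0 v)) → (tr G v u ∧ u ≠ v ∧ I G (pt u)) := by
    intro v
    by_cases hv : I G v ∧ ∃ n, Rn G n v0 v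
    · obtain ⟨u, hu⟩ := hoth v hv.1 hv.2
      exact ⟨u, fun _ => hu⟩
    · exact ⟨v, fun h => absurd h hv⟩
  choose g hg using hg
  obtain ⟨u0, k1, k2, k3⟩ := hoth v0 hd.1 ⟨0, tr.refl _⟩
  have hu0 : u0 ∈ Pa := Finset.mem_filter.2 ⟨Finset.mem_univ _, tr.isI hG hd.1 k1, ⟨0, k1⟩, k3,
    (hd.tr hG hS k1).2⟩
  have hlt : Pb.card ≤ (Pa.erase u0).card := by
    refine Finset.card_le_card_of_injOn g ?_ ?_
    · intro v hv
      obtain ⟨-, hvI, hvR, hvp, cv⟩ := Finset.mem_filter.1 (Finset.mem_coe.1 hv)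
      obtain ⟨g1, g2, g3⟩ := hg v ⟨hvI, hvR⟩
      refine Finset.mem_coe.2 (Finset.mem_erase.2 ⟨?_, Finset.mem_filter.2 ⟨Finset.mem_univ _,
        tr.isI hG hvI g1, hR0 v (g v) hvI hvR g1, g3, ?_⟩⟩)
      · intro e
        rw [e] at g1
        have : tr G v0 v := tr.trans hG hS hd.1 k1 g1.symm
        exact cv (hd.tr hG hS this).2
      · by_contra hne
        exact hAM v hvI hvR v (g v) (tr.refl _) g1 g2.symm cv hne
    · intro v hv v' hv' e
      obtain ⟨-, hvI, hvR, hvp, cv⟩ := Finset.mem_filter.1 (Finset.mem_coe.1 hv)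
      obtain ⟨-, hvI', hvR', hvp', cv'⟩ := Finset.mem_filter.1 (Finset.mem_coe.1 hv')
      obtain ⟨g1, g2, g3⟩ := hg v ⟨hvI, hvR⟩
      obtain ⟨g1', g2', g3'⟩ := hg v' ⟨hvI', hvR'⟩
      by_contra hne
      rw [← e] at g1'
      exact hAM v hvI hvR v v' (tr.refl _) (tr.trans hG hS hvI g1 g1'.symm) hne cv cv'
  rw [Finset.card_erase_of_mem hu0] at hlt
  have : 0 < Pa.card := Finset.card_pos.2 ⟨u0, hu0⟩
  omega

theorem mv_many [Fintype V] (hG : Cub G) (hS : Short G) : ∀ (n : ℕ) (c : V → Bool) (v0 v1 : V),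
    Mn G c → Dd G c v0 → I G v1 → Rn G n v0 v1 → ∃ c1, Mn G c1 ∧ Dd G c1 v1 ∧
      ∀ v, Dd G c1 v → tr G v1 v ∨ (Dd G c v ∧ ¬ tr G v0 v)
  | 0, c, v0, v1, h, hd, _, hR => by
    refine ⟨c, h, (hd.tr hG hS hR).1, fun v hv => ?_⟩
    by_cases h0 : tr G v0 v
    · exact Or.inl (tr.trans hG hS (tr.isI hG hd.1 hR) hR.symm h0)
    · exact Or.inr ⟨hv, h0⟩
  | n + 1, c, v0, v1, h, hd, hv1, hR => by
    obtain ⟨v', ⟨i1, i2, u, u', h1, h2, h3, h4⟩, hR'⟩ := hR
    have hdu : Dd G c u ∧ c u = c v0 := hd.tr hG hS h1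
    have hu' : I G u' := tr.isI hG i2 h2
    obtain ⟨-, m2⟩ := mv hG hS h hdu.1 hu' h3 h4
    obtain ⟨m3, m4, m5⟩ := mv_dead hG hS h hdu.1 hu' h3 h4
    obtain ⟨c1, k1, k2, k3⟩ := mv_many hG hS n (flip c {u, u'}) v' v1 m2
      (m3.tr hG hS h2.symm).1 hv1 hR'
    refine ⟨c1, k1, k2, fun v hv => ?_⟩
    rcases k3 v hv with e | ⟨e1, e2⟩
    · exact Or.inl e
    · rcases m5 v e1 with e | ⟨e3, e4⟩
      · exact absurd (tr.trans hG hS i2 h2 e) e2
      · exact Or.inr ⟨e3, fun e => e4 (tr.trans hG hS hdu.1.1 h1.symm e)⟩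

/-- A minimal colouring in which all dead triangles have two exits. -/
theorem exists_good [Fintype V] (hG : Cub G) (hS : Short G) :
    ∃ c, Mn G c ∧ ∀ v, Dd G c v → Gd G v := by
  classical
  obtain ⟨c0, hc0⟩ := exists_mn G
  have : Nonempty {c : V → Bool // Mn G c} := ⟨⟨c0, hc0⟩⟩
  obtain ⟨⟨c, h⟩, hmin⟩ := Finite.exists_min
    (fun c : {c : V → Bool // Mn G c} => (Finset.univ.filter (fun v => Dd G c.1 v ∧ ¬ Gd G v)).card)
  refine ⟨c, h, fun v0 hd => ?_⟩
  by_contra hng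
  obtain ⟨v1, i1, ⟨n, hn⟩, g1⟩ := exists_gd hG hS h hd
  obtain ⟨c1, k1, k2, k3⟩ := mv_many hG hS n c v0 v1 h hd i1 hn
  have hlt : (Finset.univ.filter (fun v => Dd G c1 v ∧ ¬ Gd G v)).card <
      (Finset.univ.filter (fun v => Dd G c v ∧ ¬ Gd G v)).card := by
    apply Finset.card_lt_card
    refine ⟨?_, fun hcon => ?_⟩
    · intro v hv
      obtain ⟨-, hv1, hv2⟩ := Finset.mem_filter.1 hv
      rcases k3 v hv1 with e | ⟨e1, -⟩
      · exfalso
        obtain ⟨u, u', a1, a2, a3, a4, a5⟩ := g1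
        have iv : I G v := tr.isI hG i1 e
        exact hv2 ⟨u, u', tr.trans hG hS iv e.symm a1, tr.trans hG hS iv e.symm a2, a3, a4, a5⟩
      · exact Finset.mem_filter.2 ⟨Finset.mem_univ _, e1, hv2⟩
    · have h0 : v0 ∈ Finset.univ.filter (fun v => Dd G c v ∧ ¬ Gd G v) :=
        Finset.mem_filter.2 ⟨Finset.mem_univ _, hd, hng⟩
      obtain ⟨-, hv1, hv2⟩ := Finset.mem_filter.1 (hcon h0)
      rcases k3 v0 hv1 with e | ⟨-, e2⟩
      · obtain ⟨u, u', a1, a2, a3, a4, a5⟩ := g1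
        exact hv2 ⟨u, u', tr.trans hG hS hd.1 e.symm a1, tr.trans hG hS hd.1 e.symm a2, a3, a4, a5⟩
      · exact e2 (tr.refl _)
  exact absurd (hmin ⟨c1, k1⟩) (not_le.2 hlt)

end Pool.Agent.N370.SQ
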