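import Pool.Agent.N370.SQ.Apex
import Pool.Agent.N370.SQ.Region
import Pool.Agent.N370.SQ.Main4

/-!
# Choice of the ends of monochromatic edges of vertices on 4-cycles
-/

set_option autoImplicit false

namespace Pool.Agent.N370.SQ

variable {V : Type*} {G : SimpleGraph V}

variable (G) in
/-- `z` is a hard neighbour of the vertex `u` of a dead triangle -/
def HN (c : V → Bool) (z u : V) : Prop := SS G c z ∧ Cl G z u ∧
  ∀ w t, G.Adj u w → ¬ T3 G u w → G.Adj z t → c z = c t → ¬ G.Adj w t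

/-- the port of a dead triangle at a close vertex of `Sg` -/
theorem dead_port [Fintype V] (hG : Cub G) (hS : Short G) {c : V → Bool} (h : Mn G c) {z u : V}
    (hd : Dd G c u) (hz : Sg G c z) (hcl : Cl G z u) :
    ∃ w, G.Adj u w ∧ ¬ T3 G u w ∧ On G w ∧ G.Adj w z := by
  obtain ⟨w, h1, h2, h3, h4⟩ := hz.cl_I hG hS h hd.1 hcl
  rcases kinds (G := G) w with hw | hw | hw
  · exact ⟨w, h1, h2, hw, h4⟩
  · exact absurd h1 (hd.noA hG hS h hw)
  · exact absurd hw h3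

theorem hn_unique [Fintype V] (hG : Cub G) (hS : Short G) {c : V → Bool} (h : Mn G c)
    {z z' u : V} (hd : Dd G c u) (h1 : HN G c z u) (h2 : HN G c z' u) : z = z' := by
  rcases close_two hG hS h hd.1 (hd.mj hG hS) h1.1.sg h2.1.sg h1.2.1 h2.2.1 with e | ⟨e1, e2⟩
  · exact e
  · exfalso
    obtain ⟨w, k1, k2, k3, k4⟩ := dead_port hG hS h hd h2.1.sg h2.2.1
    exact h1.2.2 w z' k1 k2 e1 e2 k4

theorem hn_nocf [Fintype V] (hG : Cub G) (hS : Short G) {c : V → Bool} (h : Mn G c)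
    {z y u : V} (hd : Dd G c u) (h1 : HN G c z u) : ¬ Cf G c z y := by
  obtain ⟨w, k1, k2, k3, k4⟩ := dead_port hG hS h hd h1.1.sg h1.2.1
  obtain ⟨-, t, ht, ct, -⟩ := h1.1
  exact hard_nocf hG hS h hd k1 k3 k4 h1.1.sg ht ct (h1.2.2 w t k1 k2 ht ct) y

theorem phase2 [Fintype V] [Nonempty V] (hG : Cub G) (hS : Short G) {c : V → Bool} (h : Mn G c)
    (hgd : ∀ v, Dd G c v → Gd G v) : ∃ (EE ZS : Set V) (lE : V → Bool),
      (∀ u ∈ EE, Dd G c u ∧ Ex G u) ∧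
      (∀ u, Dd G c u → ∃ u1 u2, u1 ∈ EE ∧ u2 ∈ EE ∧ u1 ≠ u2 ∧ tr G u u1 ∧ tr G u u2) ∧
      (∀ u ∈ EE, ∀ u' ∈ EE, tr G u u' → u ≠ u' → lE u ≠ lE u') ∧
      (∀ z ∈ ZS, SS G c z) ∧
      (∀ z z', SS G c z → SS G c z' → G.Adj z z' → c z = c z' → (z ∈ ZS ↔ z' ∉ ZS)) ∧
      (∀ z ∈ ZS, ∀ z' ∈ ZS, ¬ Cf G c z z') ∧
      (∀ z ∈ ZS, ∀ u ∈ EE, HN G c z u → lE u = !(c z)) := by
  classical
  -- choice of two exits
  have hE : ∀ S : Set V, ∃ p : V × V, ∀ v, Dd G c v → S = {w | tr G v w} →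
      (p.1 ∈ S ∧ p.2 ∈ S ∧ p.1 ≠ p.2 ∧ Ex G p.1 ∧ Ex G p.2) := by
    intro S
    by_cases hex : ∃ v, Dd G c v ∧ S = {w | tr G v w}
    · obtain ⟨v, hv, rfl⟩ := hex
      obtain ⟨u, u', h1, h2, h3, h4, h5⟩ := hgd v hv
      exact ⟨(u, u'), fun _ _ _ => ⟨h1, h2, h3, h4, h5⟩⟩
    · refine ⟨(Classical.arbitrary V, Classical.arbitrary V), fun v hv hS => ?_⟩
      exact absurd ⟨v, hv, hS⟩ hex
  choose E hE using hE
  let T : V → Set V := fun v => {w | tr G v w}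
  have hT : ∀ u v, I G u → tr G u v → T u = T v := by
    intro u v hu huv
    have hv := tr.isI hG hu huv
    ext w
    exact ⟨fun hw => tr.trans hG hS hv huv.symm hw, fun hw => tr.trans hG hS hu huv hw⟩
  let e1 : V → V := fun v => (E (T v)).1
  let e2 : V → V := fun v => (E (T v)).2
  have he : ∀ v, Dd G c v → tr G v (e1 v) ∧ tr G v (e2 v) ∧ e1 v ≠ e2 v ∧ Ex G (e1 v) ∧
      Ex G (e2 v) := fun v hv => hE (T v) v hv rfl
  have he1 : ∀ u v, I G u → tr G u v → e1 u = e1 v := by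
    intro u v hu huv
    show (E (T u)).1 = (E (T v)).1
    rw [hT u v hu huv]
  have he2 : ∀ u v, I G u → tr G u v → e2 u = e2 v := by
    intro u v hu huv
    show (E (T u)).2 = (E (T v)).2
    rw [hT u v hu huv]
  let EE : Set V := {u | Dd G c u ∧ (u = e1 u ∨ u = e2 u)}
  -- the matching of conflicts
  let r : V → V → Prop := fun z z' => Cf G c z z' ∨
    ∃ u, Dd G c u ∧ ((HN G c z (e1 u) ∧ HN G c z' (e2 u)) ∨ (HN G c z' (e1 u) ∧ HN G c z (e2 u)))
  have hd1 : ∀ u, Dd G c u → Dd G c (e1 u) := fun u hu => (hu.tr hG hS (he u hu).1).1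
  have hd2 : ∀ u, Dd G c u → Dd G c (e2 u) := fun u hu => (hu.tr hG hS (he u hu).2.1).1
  have rs : ∀ x y, r x y → r y x := by
    rintro x y (hxy | ⟨u, hu, hxy | hxy⟩)
    · exact Or.inl hxy.symm
    · exact Or.inr ⟨u, hu, Or.inr hxy⟩
    · exact Or.inr ⟨u, hu, Or.inl hxy⟩
  have hcl : ∀ z u u', Dd G c u → Dd G c u' → HN G c z u → HN G c z u' → u = u' :=
    fun z u u' hu hu' h1 h2 => dead_unique hG hS h hu hu' h1.1.sg h1.2.1 h2.2.1
  have ri : ∀ x y, r x y → x ≠ y := by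
    rintro x y (hxy | ⟨u, hu, ⟨h1, h2⟩ | ⟨h1, h2⟩⟩) e
    · exact hxy.1 e
    · subst e
      exact (he u hu).2.2.1 (hcl x _ _ (hd1 u hu) (hd2 u hu) h1 h2)
    · subst e
      exact (he u hu).2.2.1 (hcl x _ _ (hd1 u hu) (hd2 u hu) h1 h2)
  -- two triangles with a common chosen exit are equal
  have same : ∀ u u' a b, Dd G c u → Dd G c u' → tr G u a → tr G u' b → a = b → tr G u u' := by
    intro u u' a b hu hu' ha hb e
    subst e
    exact tr.trans hG hS hu.1 ha hb.symm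
  have ru : ∀ x y z, r x y → r x z → y = z := by
    rintro x y z (hxy | ⟨u, hu, ⟨h1, h2⟩ | ⟨h1, h2⟩⟩) (hxz | ⟨u', hu', ⟨h3, h4⟩ | ⟨h3, h4⟩⟩)
    · exact cf_unique hG h hxy hxz
    · exact absurd hxy (hn_nocf hG hS h (hd1 u' hu') h3)
    · exact absurd hxy (hn_nocf hG hS h (hd2 u' hu') h4)
    · exact absurd hxz (hn_nocf hG hS h (hd1 u hu) h1)
    · have e := hcl x _ _ (hd1 u hu) (hd1 u' hu') h1 h3
      have t := same u u' _ _ hu hu' (he u hu).1 (he u' hu').1 e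
      rw [← he2 u u' hu.1 t] at h4
      exact hn_unique hG hS h (hd2 u hu) h2 h4
    · have e := hcl x _ _ (hd1 u hu) (hd2 u' hu') h1 h4
      have t := same u u' _ _ hu hu' (he u hu).1 (he u' hu').2.1 e
      exfalso
      rw [← he2 u u' hu.1 t] at e
      exact (he u hu).2.2.1 e
    · exact absurd hxz (hn_nocf hG hS h (hd2 u hu) h2)
    · have e := hcl x _ _ (hd2 u hu) (hd1 u' hu') h2 h3
      have t := same u u' _ _ hu hu' (he u hu).2.1 (he u' hu').1 e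
      exfalso
      rw [← he1 u u' hu.1 t] at e
      exact (he u hu).2.2.1 e.symm
    · have e := hcl x _ _ (hd2 u hu) (hd2 u' hu') h2 h4
      have t := same u u' _ _ hu hu' (he u hu).2.1 (he u' hu').2.1 e
      rw [← he1 u u' hu.1 t] at h3
      exact hn_unique hG hS h (hd1 u hu) h1 h3
  -- partners
  let Sg' := {x : V // SS G c x}
  have hpart : ∀ x : Sg', ∃ y : Sg', G.Adj x.1 y.1 ∧ c x.1 = c y.1 := by
    rintro ⟨x, hon, x', h1, h2, h3⟩
    exact ⟨⟨x', h3, x, h1.symm, h2.symm, hon⟩, h1, h2⟩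
  choose t ht1 ht2 using hpart
  have tu : ∀ x y : Sg', G.Adj x.1 y.1 → c x.1 = c y.1 → y = t x := fun x y h1 h2 =>
    Subtype.ext (h.unique hG x.2.1.not_I h1 (ht1 x) h2 (ht2 x))
  obtain ⟨k, hk1, hk2⟩ := two_col t (fun x => (tu _ _ (ht1 x).symm (ht2 x).symm).symm)
    (fun x e => (ht1 x).ne (congrArg Subtype.val e).symm)
    (fun x y => r x.1 y.1) (fun x y hxy => rs _ _ hxy)
    (fun x y z h1 h2 => Subtype.ext (ru _ _ _ h1 h2))
    (fun x y hxy e => ri _ _ hxy (congrArg Subtype.val e))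
  let ZS : Set V := {z | ∃ hz : SS G c z, k ⟨z, hz⟩ = true}
  have hZr : ∀ z ∈ ZS, ∀ z' ∈ ZS, ¬ r z z' := by
    rintro z ⟨hz, kz⟩ z' ⟨hz', kz'⟩ hr
    exact hk2 ⟨z, hz⟩ ⟨z', hz'⟩ hr (kz.trans kz'.symm)
  let HH : V → Prop := fun u => ∃ z ∈ ZS, HN G c z (e2 u)
  let lE : V → Bool := fun u => if u = e1 u then (if HH u then c u else !(c u)) else
    (if HH u then !(c u) else c u)
  have hHH : ∀ u u', I G u → tr G u u' → (HH u ↔ HH u') := by
    intro u u' hu huu'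
    show (∃ z ∈ ZS, HN G c z (e2 u)) ↔ (∃ z ∈ ZS, HN G c z (e2 u'))
    rw [he2 u u' hu huu']
  refine ⟨EE, ZS, lE, ?_, ?_, ?_, ?_, ?_, ?_, ?_⟩
  · rintro u ⟨hu, e | e⟩
    · exact ⟨hu, by rw [e]; exact (he u hu).2.2.2.1⟩
    · exact ⟨hu, by rw [e]; exact (he u hu).2.2.2.2⟩
  · intro u hu
    obtain ⟨k1, k2, k3, -, -⟩ := he u hu
    refine ⟨e1 u, e2 u, ⟨hd1 u hu, Or.inl (he1 u (e1 u) hu.1 k1)⟩,
      ⟨hd2 u hu, Or.inr (he2 u (e2 u) hu.1 k2)⟩, k3, k1, k2⟩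
  · rintro u ⟨hu, eu⟩ u' ⟨hu', eu'⟩ htr hne
    have q1 := he1 u u' hu.1 htr
    have q2 := he2 u u' hu.1 htr
    have qc : c u' = c u := (hu.tr hG hS htr).2
    have qH := hHH u u' hu.1 htr
    have q3 := (he u hu).2.2.1
    show (if u = e1 u then (if HH u then c u else !(c u)) else (if HH u then !(c u) else c u)) ≠
      (if u' = e1 u' then (if HH u' then c u' else !(c u')) else
        (if HH u' then !(c u') else c u'))
    rcases eu with eu | eu
    · have n' : ¬ u' = e1 u' := fun e => hne (eu.trans (q1.trans e.symm))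
      rw [if_pos eu, if_neg n', qc]
      by_cases hh : HH u
      · rw [if_pos hh, if_pos (qH.1 hh)]
        cases c u <;> simp
      · rw [if_neg hh, if_neg (fun h => hh (qH.2 h))]
        cases c u <;> simp
    · have n : ¬ u = e1 u := fun e => q3 (e.symm.trans eu)
      have e' : u' = e1 u' := by
        rcases eu' with e | e
        · exact e
        · exact absurd (eu.trans (q2.trans e.symm)) hne
      rw [if_neg n, if_pos e', qc]
      by_cases hh : HH u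
      · rw [if_pos hh, if_pos (qH.1 hh)]
        cases c u <;> simp
      · rw [if_neg hh, if_neg (fun h => hh (qH.2 h))]
        cases c u <;> simp
  · rintro z ⟨hz, -⟩
    exact hz
  · intro z z' hz hz' hadj hc
    have e : (⟨z', hz'⟩ : Sg') = t ⟨z, hz⟩ := tu ⟨z, hz⟩ ⟨z', hz'⟩ hadj hc
    have h1 := hk1 ⟨z, hz⟩
    rw [← e] at h1
    constructor
    · rintro ⟨_, kz⟩ ⟨_, kz'⟩
      exact h1 (kz'.trans kz.symm)
    · intro hn
      have kz' : k ⟨z', hz'⟩ ≠ true := fun e => hn ⟨hz', e⟩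
      exact ⟨hz, eq_of_ne_ne h1.symm (fun e => kz' e.symm)⟩
  · intro z hz z' hz' hcf
    exact hZr z hz z' hz' (Or.inl hcf)
  · rintro z hz u ⟨hu, eu⟩ hHN
    have hcz : c z = c u := by
      obtain ⟨w, k1, k2, k3, k4⟩ := dead_port hG hS h hu hHN.1.sg hHN.2.1
      obtain ⟨s1, s, s2, -, -, -, -, -, -, c1, c2, cs, cu, o1, -, o2, Nw⟩ :=
        exit_sq hG hS h hu.1 k3 k1
      rcases Nw z k4 with e | e | e
      · rw [e]; exact eq_of_ne_ne c1 cu
      · rw [e]; exact eq_of_ne_ne c2 cu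
      · subst e; exact absurd hHN.1.1 hu.1.1
    show (if u = e1 u then (if HH u then c u else !(c u)) else (if HH u then !(c u) else c u)) = _
    rw [hcz]
    rcases eu with eu | eu
    · have hh : ¬ HH u := by
        rintro ⟨z', hz', hn'⟩
        refine hZr z hz z' hz' (Or.inr ⟨u, hu, Or.inl ⟨?_, hn'⟩⟩)
        rw [← eu]; exact hHN
      rw [if_pos eu, if_neg hh]
    · have n : ¬ u = e1 u := fun e => (he u hu).2.2.1 (e.symm.trans eu)
      have hh : HH u := ⟨z, hz, by rw [← eu]; exact hHN⟩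
      rw [if_neg n, if_pos hh]

end Pool.Agent.N370.SQ
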