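import Pool.Agent.N370.SQ.Phase2

/-!
# Labels of the chosen vertices
-/

set_option autoImplicit false

namespace Pool.Agent.N370.SQ

variable {V : Type*} {G : SimpleGraph V}

theorem uniqI [Fintype V] (hG : Cub G) (hS : Short G) {c : V → Bool} (h : Mn G c) {m j j' : V}
    (hm : ¬ I G m) (hj : G.Adj m j) (hj' : G.Adj m j') (ij : I G j) (ij' : I G j') : j = j' := by
  rcases kinds (G := G) m with hk | hk | hk
  · obtain ⟨s1, s, s2, -, -, -, -, -, -, c1, c2, cs, cu, o1, -, o2, Nw⟩ :=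
      exit_sq hG hS h ij hk hj.symm
    rcases Nw j' hj' with e | e | e
    · exact absurd o1 (e ▸ ij'.1)
    · exact absurd o2 (e ▸ ij'.1)
    · exact e.symm
  · obtain ⟨x, y, z, a, b, hxy, hxz, hyz, hvx, hvy, hvz, axy, hN, hT, hxa, hyb, hab, av, ay, bv,
      bx, Nx, Ny, ox, oy, oa, ob, cx, cy, ca, cb, cz⟩ := A_col hG hS h hk
    have key : ∀ j, G.Adj m j → I G j → j = z := by
      intro j hj ij
      rcases hN j hj with e | e | e
      · exact absurd ox (e ▸ ij.1)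
      · exact absurd oy (e ▸ ij.1)
      · exact e
    exact (key j hj ij).trans (key j' hj' ij').symm
  · exact absurd hk hm

/-- Two close chosen exits are in the same triangle. -/
theorem ee_close [Fintype V] (hG : Cub G) (hS : Short G) {c : V → Bool} (h : Mn G c) {u u' : V}
    (hu : I G u) (hu' : I G u') (eu : Ex G u) (eu' : Ex G u') (hcl : Cl G u u') : tr G u u' := by
  obtain ⟨hne, hadj | ⟨m, hum, hmu'⟩⟩ := hcl
  · by_cases hT : T3 G u u'
    · exact Or.inr hT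
    · exact absurd hu' (eu u' hadj hT)
  · by_cases hT : T3 G u m
    · have im := hu.nb hG hT
      by_cases hT' : T3 G m u'
      · exact tr.trans hG hS hu (Or.inr hT) (Or.inr hT')
      · exact absurd im (eu' m hmu'.symm (fun h => hT' h.symm))
    · have im : ¬ I G m := eu m hum hT
      exact absurd (uniqI hG hS h im hum.symm hmu' hu hu') hne

theorem phase3 [Fintype V] (hG : Cub G) (hS : Short G) {c : V → Bool} (h : Mn G c)
    {EE ZS : Set V} {lE : V → Bool}
    (hEE : ∀ u ∈ EE, Dd G c u ∧ Ex G u)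
    (hEl : ∀ u ∈ EE, ∀ u' ∈ EE, tr G u u' → u ≠ u' → lE u ≠ lE u')
    (hZS : ∀ z ∈ ZS, SS G c z)
    (hZp : ∀ z z', SS G c z → SS G c z' → G.Adj z z' → c z = c z' → (z ∈ ZS ↔ z' ∉ ZS))
    (hZc : ∀ z ∈ ZS, ∀ z' ∈ ZS, ¬ Cf G c z z')
    (hZh : ∀ z ∈ ZS, ∀ u ∈ EE, HN G c z u → lE u = !(c z)) :
    (∀ z z', (z ∈ ZS ∨ ZA G c z) → (z' ∈ ZS ∨ ZA G c z') → G.Adj z z' → c z ≠ c z') ∧
    ∃ l1 : V → Bool, ∀ z z', (z ∈ ZS ∨ ZA G c z ∨ z ∈ EE) → (z' ∈ ZS ∨ ZA G c z' ∨ z' ∈ EE) →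
      Cl G z z' → l1 z ≠ l1 z' := by
  classical
  have sg : ∀ z, (z ∈ ZS ∨ ZA G c z) → Sg G c z := by
    rintro z (hz | hz)
    · exact (hZS z hz).sg
    · exact hz.sg
  have disj : ∀ z, z ∈ ZS → ¬ ZA G c z := fun z hz => (hZS z hz).not_ZA hG h
  have P0 : ∀ z z', (z ∈ ZS ∨ ZA G c z) → (z' ∈ ZS ∨ ZA G c z') → G.Adj z z' → c z ≠ c z' := by
    intro z z' hz hz' hadj hc
    have keyA : ∀ z z', ZA G c z → On G z' → G.Adj z z' → c z ≠ c z' := by
      rintro z z' ⟨oz, v, hv, cv, hA⟩ oz' hadj hc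
      have := h.unique hG oz.not_I hv hadj cv hc
      subst this
      exact hA.1 oz'
    rcases hz with hz | hz
    · rcases hz' with hz' | hz'
      · exact ((hZp z z' (hZS z hz) (hZS z' hz') hadj hc).1 hz) hz'
      · exact keyA z' z hz' (hZS z hz).1 hadj.symm hc.symm
    · exact keyA z z' hz (sg z' hz').1 hadj hc
  refine ⟨P0, ?_⟩
  -- a vertex close to a chosen exit and to another vertex of the same kind is hard
  have P2 : ∀ z z' u, (z ∈ ZS ∨ ZA G c z) → (z' ∈ ZS ∨ ZA G c z') → Cl G z z' → u ∈ EE →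
      Cl G z u → z ∈ ZS ∧ HN G c z u := by
    intro z z' u hz hz' hcl hu hclu
    have hd := (hEE u hu).1
    obtain ⟨w, k1, k2, k3, k4⟩ := dead_port hG hS h hd (sg z hz) hclu
    have soft : ∀ t, G.Adj z t → c z = c t → (A G t ∨ G.Adj w t) → False := by
      intro t ht ct hs
      have e := soft_iso hG hS h hd k1 k3 k4 (sg z hz) ht ct hs z' (sg z' hz') hcl
      subst e
      exact P0 z z' hz hz' ht ct
    rcases hz with hz | hz
    · refine ⟨hz, hZS z hz, hclu, ?_⟩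
      intro w' t hw' hT' ht ct hadj
      have e : w' = w := by
        obtain ⟨x, y, p, -, -, -, -, -, -, -, hp⟩ := I_tri hG hS hd.1
        rw [hp w' hw' hT', hp w k1 k2]
      subst e
      exact soft t ht ct (Or.inr hadj)
    · exfalso
      obtain ⟨-, v, hv, cv, hA⟩ := hz
      exact soft v hv cv (Or.inl hA)
  let num : V → ℕ := fun v => (Fintype.equivFin V v).val
  have hnum : ∀ x y, num x = num y → x = y := fun x y e =>
    (Fintype.equivFin V).injective (Fin.ext e)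
  let l0 : V → Bool := fun z =>
    if hu : ∃ u, u ∈ EE ∧ Cl G z u then !(lE hu.choose) else
      if ZA G c z then
        (if hz' : ∃ z', ZA G c z' ∧ Cl G z z' ∧ c z' = c z then decide (num z < num hz'.choose)
        else if ∃ z' ∈ ZS, Cl G z z' ∧ c z' = c z then !(c z) else c z)
      else c z
  let l1 : V → Bool := fun z => if z ∈ EE then lE z else l0 z
  -- value at vertices close to a chosen exit
  have v1 : ∀ z u, (z ∈ ZS ∨ ZA G c z) → u ∈ EE → Cl G z u → l0 z = !(lE u) := by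
    intro z u hz hu hclu
    have hex : ∃ u, u ∈ EE ∧ Cl G z u := ⟨u, hu, hclu⟩
    have e : hex.choose = u := dead_unique hG hS h (hEE _ hex.choose_spec.1).1 (hEE u hu).1
      (sg z hz) hex.choose_spec.2 hclu
    show (if hu : ∃ u, u ∈ EE ∧ Cl G z u then !(lE hu.choose) else _) = _
    rw [dif_pos hex, e]
  -- value at vertices of `ZS` with a close vertex
  have v2 : ∀ z z', z ∈ ZS → (z' ∈ ZS ∨ ZA G c z') → Cl G z z' → l0 z = c z := by
    intro z z' hz hz' hcl
    by_cases hex : ∃ u, u ∈ EE ∧ Cl G z u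
    · obtain ⟨u, hu, hclu⟩ := hex
      rw [v1 z u (Or.inl hz) hu hclu,
        hZh z hz u hu (P2 z z' u (Or.inl hz) hz' hcl hu hclu).2]
      simp
    · show (if hu : ∃ u, u ∈ EE ∧ Cl G z u then !(lE hu.choose) else _) = _
      rw [dif_neg hex, if_neg (disj z hz)]
  -- value at vertices of `ZA` with a close vertex
  have v3 : ∀ z z', ZA G c z → (z' ∈ ZS ∨ ZA G c z') → Cl G z z' → l0 z =
      (if hz' : ∃ z', ZA G c z' ∧ Cl G z z' ∧ c z' = c z then decide (num z < num hz'.choose)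
        else if ∃ z' ∈ ZS, Cl G z z' ∧ c z' = c z then !(c z) else c z) := by
    intro z z' hz hz' hcl
    have hex : ¬ ∃ u, u ∈ EE ∧ Cl G z u := by
      rintro ⟨u, hu, hclu⟩
      exact disj z (P2 z z' u (Or.inr hz) hz' hcl hu hclu).1 hz
    show (if hu : ∃ u, u ∈ EE ∧ Cl G z u then !(lE hu.choose) else _) = _
    rw [dif_neg hex, if_pos hz]
  -- pairs
  have pSS : ∀ z z', z ∈ ZS → z' ∈ ZS → Cl G z z' → l0 z ≠ l0 z' := by
    intro z z' hz hz' hcl
    rw [v2 z z' hz (Or.inl hz') hcl, v2 z' z hz' (Or.inl hz) hcl.symm]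
    intro hc
    have hadj : ¬ G.Adj z z' := fun hadj => P0 z z' (Or.inl hz) (Or.inl hz') hadj hc
    obtain ⟨hne, hadj' | ⟨w, hzw, hwz'⟩⟩ := hcl
    · exact hadj hadj'
    · have hwI : ¬ I G w := fun hw => (hZS z hz).sg.noI hG hS h hw hzw
      by_cases cw : c w = c z
      · exact hne (h.unique hG hwI hzw.symm hwz' cw (cw.trans hc))
      · exact hZc z hz z' hz' ⟨hne, hc, hadj, hZS z hz, hZS z' hz', w, hzw, hwz', cw⟩
  have pAS : ∀ z z', ZA G c z → z' ∈ ZS → Cl G z z' → l0 z ≠ l0 z' := by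
    intro z z' hz hz' hcl
    rw [v3 z z' hz (Or.inl hz') hcl, v2 z' z hz' (Or.inr hz) hcl.symm]
    have h1 : ¬ ∃ z', ZA G c z' ∧ Cl G z z' ∧ c z' = c z := by
      rintro ⟨z'', k1, k2, k3⟩
      have := za_one hG hS h hz k1 k2 z' (hZS z' hz').sg hcl
      subst this
      exact disj z' hz' k1
    rw [dif_neg h1]
    by_cases hc : c z' = c z
    · rw [if_pos ⟨z', hz', hcl, hc⟩, hc]
      cases c z <;> simp
    · have h2 : ¬ ∃ z' ∈ ZS, Cl G z z' ∧ c z' = c z := by
        rintro ⟨z'', k1, k2, k3⟩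
        exact hc (za_col hG hS h hz (hZS z'' k1).sg k2 k3 z' (hZS z' hz').sg hcl)
      rw [if_neg h2]
      exact fun e => hc e.symm
  have pAA : ∀ z z', ZA G c z → ZA G c z' → Cl G z z' → l0 z ≠ l0 z' := by
    intro z z' hz hz' hcl
    rw [v3 z z' hz (Or.inr hz') hcl, v3 z' z hz' (Or.inr hz) hcl.symm]
    have one := za_one hG hS h hz hz' hcl
    have one' := za_one hG hS h hz' hz hcl.symm
    by_cases hc : c z' = c z
    · have h1 : ∃ z', ZA G c z' ∧ Cl G z z' ∧ c z' = c z := ⟨z', hz', hcl, hc⟩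
      have h1' : ∃ z, ZA G c z ∧ Cl G z' z ∧ c z = c z' := ⟨z, hz, hcl.symm, hc.symm⟩
      have e1 : h1.choose = z' := one _ h1.choose_spec.1.sg h1.choose_spec.2.1
      have e1' : h1'.choose = z := one' _ h1'.choose_spec.1.sg h1'.choose_spec.2.1
      rw [dif_pos h1, dif_pos h1', e1, e1']
      have hne : num z ≠ num z' := fun e => hcl.1 (hnum _ _ e)
      intro e
      rw [decide_eq_decide] at e
      rcases lt_or_gt_of_ne hne with h2 | h2
      · have := e.1 h2; omega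
      · have := e.2 h2; omega
    · have h1 : ¬ ∃ z', ZA G c z' ∧ Cl G z z' ∧ c z' = c z := by
        rintro ⟨z'', k1, k2, k3⟩
        have := one z'' k1.sg k2
        subst this
        exact hc k3
      have h1' : ¬ ∃ z, ZA G c z ∧ Cl G z' z ∧ c z = c z' := by
        rintro ⟨z'', k1, k2, k3⟩
        have := one' z'' k1.sg k2
        subst this
        exact hc k3.symm
      have h2 : ¬ ∃ z' ∈ ZS, Cl G z z' ∧ c z' = c z := by
        rintro ⟨z'', k1, k2, k3⟩
        have := one z'' (hZS z'' k1).sg k2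
        subst this
        exact disj z'' k1 hz'
      have h2' : ¬ ∃ z ∈ ZS, Cl G z' z ∧ c z = c z' := by
        rintro ⟨z'', k1, k2, k3⟩
        have := one' z'' (hZS z'' k1).sg k2
        subst this
        exact disj z'' k1 hz
      rw [dif_neg h1, dif_neg h1', if_neg h2, if_neg h2']
      exact fun e => hc e.symm
  have pZ : ∀ z z', (z ∈ ZS ∨ ZA G c z) → (z' ∈ ZS ∨ ZA G c z') → Cl G z z' → l0 z ≠ l0 z' := by
    rintro z z' (hz | hz) (hz' | hz') hcl
    · exact pSS z z' hz hz' hcl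
    · exact (pAS z' z hz' hz hcl.symm).symm
    · exact pAS z z' hz hz' hcl
    · exact pAA z z' hz hz' hcl
  have nE : ∀ z, (z ∈ ZS ∨ ZA G c z) → z ∉ EE := fun z hz hE => (hEE z hE).1.1.1 (sg z hz).1
  have w1 : ∀ z, (z ∈ ZS ∨ ZA G c z) → l1 z = l0 z := fun z hz => if_neg (nE z hz)
  have w2 : ∀ z, z ∈ EE → l1 z = lE z := fun z hz => if_pos hz
  refine ⟨l1, ?_⟩
  have pZE : ∀ z u, (z ∈ ZS ∨ ZA G c z) → u ∈ EE → Cl G z u → l1 z ≠ l1 u := by
    intro z u hz hu hcl
    rw [w1 z hz, w2 u hu, v1 z u hz hu hcl]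
    cases lE u <;> simp
  intro z z' hz hz' hcl
  have conv : ∀ z, (z ∈ ZS ∨ ZA G c z ∨ z ∈ EE) → (z ∈ ZS ∨ ZA G c z) ∨ z ∈ EE := by
    intro z hz; tauto
  rcases conv z hz with hz | hz <;> rcases conv z' hz' with hz' | hz'
  · rw [w1 z hz, w1 z' hz']
    exact pZ z z' hz hz' hcl
  · exact pZE z z' hz hz' hcl
  · exact (pZE z' z hz' hz hcl.symm).symm
  · rw [w2 z hz, w2 z' hz']
    exact hEl z hz z' hz' (ee_close hG hS h (hEE z hz).1.1 (hEE z' hz').1.1 (hEE z hz).2
      (hEE z' hz').2 hcl) hcl.1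

end Pool.Agent.N370.SQ
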