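import Pool.Agent.N370.SQ.Phase3

/-!
# Choice of vertices of isolated triangles with two colours
-/

set_option autoImplicit false

namespace Pool.Agent.N370.SQ

variable {V : Type*} {G : SimpleGraph V}

theorem port_eq (hG : Cub G) (hS : Short G) {u w w' : V} (hu : I G u) (h1 : G.Adj u w)
    (h2 : ¬ T3 G u w) (h1' : G.Adj u w') (h2' : ¬ T3 G u w') : w = w' := by
  obtain ⟨x, y, z, -, -, -, -, -, -, -, h⟩ := I_tri hG hS hu
  rw [h w h1 h2, h w' h1' h2']

/-- Vertices of isolated triangles which are close. -/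
theorem I_close [Fintype V] (hG : Cub G) (hS : Short G) {c : V → Bool} (h : Mn G c) {j u w : V}
    (hj : I G j) (hu : I G u) (hcl : Cl G j u) (hw : G.Adj j w) (hT : ¬ T3 G j w) :
    tr G j u ∨ (I G w ∧ tr G w u) ∨ ∃ m, tr G j m ∧ G.Adj u m ∧ ¬ T3 G u m := by
  obtain ⟨hne, hadj | ⟨m, hjm, hmu⟩⟩ := hcl
  · by_cases hT' : T3 G j u
    · exact Or.inl (Or.inr hT')
    · have e := port_eq hG hS hj hadj hT' hw hT
      subst e
      exact Or.inr (Or.inl ⟨hu, tr.refl _⟩)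
  · by_cases hT' : T3 G j m
    · by_cases hT2 : T3 G m u
      · exact Or.inl (tr.trans hG hS hj (Or.inr hT') (Or.inr hT2))
      · exact Or.inr (Or.inr ⟨m, Or.inr hT', hmu.symm, fun h => hT2 h.symm⟩)
    · have e := port_eq hG hS hj hjm hT' hw hT
      subst e
      by_cases hm : I G m
      · by_cases hT2 : T3 G m u
        · exact Or.inr (Or.inl ⟨hm, Or.inr hT2⟩)
        · exact absurd (port_eq hG hS hm hjm.symm (fun h => hT h.symm) hmu hT2) hne
      · exact absurd (uniqI hG hS h hm hjm.symm hmu hj hu) hne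

theorem min_unique (hG : Cub G) (hS : Short G) {c : V → Bool} {v v' : V} (hv : I G v)
    (h1 : ¬ Mj G c v) (h2 : ¬ Mj G c v') (htr : tr G v v') : v = v' := by
  rcases htr with e | e
  · exact e
  · exfalso
    obtain ⟨x, y, z, hxy, tx, ty, txy, hT, -⟩ := I_tri hG hS hv
    have key : ∀ o, T3 G v o → T3 G v' o → False := by
      intro o h3 h4
      have a1 : c o ≠ c v := fun e => h1 ⟨o, h3, e⟩
      have a2 : c v' ≠ c v := fun e' => h1 ⟨v', e, e'⟩
      exact h2 ⟨o, h4, eq_of_ne_ne a1 a2⟩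
    rcases hT v' e with e' | e'
    · subst e'; exact key y ty txy
    · subst e'; exact key x tx txy.symm

variable (G) in
/-- partial choices of vertices of isolated triangles with two colours -/
def Ok (c : V → Bool) (Zc : Set V) (l1 : V → Bool) (W : Set V) (μ : V → Bool) : Prop :=
  (∀ u ∈ W, I G u ∧ Mj G c u ∧ ¬ Dd G c u) ∧
  (∀ u ∈ W, ∀ u' ∈ W, tr G u u' → u = u') ∧
  (∀ u ∈ W, ∀ u' ∈ W, Cl G u u' → μ u ≠ μ u') ∧
  (∀ u ∈ W, ∀ z ∈ Zc, Cl G u z → μ u ≠ l1 z)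

variable (G) in
/-- ports of chosen vertices are in triangles with a chosen vertex -/
def W3 (W : Set V) : Prop := ∀ u ∈ W, ∀ w, G.Adj u w → ¬ T3 G u w → I G w → ∃ u' ∈ W, tr G w u'

theorem Ok.add {c : V → Bool} {Zc : Set V} {l1 : V → Bool} {W : Set V} {μ : V → Bool}
    (hok : Ok G c Zc l1 W μ) {j : V} (b : Bool) (hj : I G j) (hm : Mj G c j) (hd : ¬ Dd G c j)
    (hun : ∀ u' ∈ W, ¬ tr G j u') (h4 : ∀ u' ∈ W, Cl G j u' → b ≠ μ u')
    (h5 : ∀ z ∈ Zc, Cl G j z → b ≠ l1 z) :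
    ∃ μ', Ok G c Zc l1 (insert j W) μ' ∧ μ' j = b ∧ ∀ u ∈ W, μ' u = μ u := by
  classical
  have hjW : j ∉ W := fun h => hun j h (tr.refl _)
  have e1 : Function.update μ j b j = b := Function.update_self ..
  have e2 : ∀ u ∈ W, Function.update μ j b u = μ u := by
    intro u hu
    have hne : u ≠ j := by
      rintro rfl
      exact hjW hu
    exact Function.update_of_ne hne _ _
  refine ⟨Function.update μ j b, ⟨?_, ?_, ?_, ?_⟩, e1, e2⟩
  · rintro u (rfl | hu)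
    · exact ⟨hj, hm, hd⟩
    · exact hok.1 u hu
  · rintro u (rfl | hu) u' (rfl | hu') htr
    · rfl
    · exact absurd htr (hun u' hu')
    · exact absurd htr.symm (hun u hu)
    · exact hok.2.1 u hu u' hu' htr
  · rintro u (rfl | hu) u' (rfl | hu') hcl
    · exact absurd rfl hcl.1
    · rw [e1, e2 u' hu']; exact h4 u' hu' hcl
    · rw [e1, e2 u hu]; exact (h4 u hu hcl.symm).symm
    · rw [e2 u hu, e2 u' hu']; exact hok.2.2.1 u hu u' hu' hcl
  · rintro u (rfl | hu) z hz hcl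
    · rw [e1]; exact h5 z hz hcl
    · rw [e2 u hu]; exact hok.2.2.2 u hu z hz hcl

theorem phase4 [Fintype V] (hG : Cub G) (hS : Short G) {c : V → Bool} (h : Mn G c)
    {EE ZS : Set V} {l1 : V → Bool}
    (hEE : ∀ u ∈ EE, Dd G c u ∧ Ex G u)
    (hZS : ∀ z ∈ ZS, SS G c z)
    (P0 : ∀ z z', (z ∈ ZS ∨ ZA G c z) → (z' ∈ ZS ∨ ZA G c z') → G.Adj z z' → c z ≠ c z') :
    ∃ (W : Set V) (μ : V → Bool),
      (∀ u ∈ W, I G u ∧ Mj G c u ∧ ¬ Dd G c u) ∧
      (∀ u, I G u → ¬ Dd G c u → ∃ u' ∈ W, tr G u u') ∧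
      (∀ u ∈ W, ∀ u' ∈ W, Cl G u u' → μ u ≠ μ u') ∧
      (∀ u ∈ W, ∀ z, (z ∈ ZS ∨ ZA G c z ∨ z ∈ EE) → Cl G u z → μ u ≠ l1 z) := by
  classical
  let Zc : Set V := {z | z ∈ ZS ∨ ZA G c z ∨ z ∈ EE}
  have sg : ∀ z, (z ∈ ZS ∨ ZA G c z) → Sg G c z := by
    rintro z (hz | hz)
    · exact (hZS z hz).sg
    · exact hz.sg
  have hport : ∀ u, ∃ z, I G u → (G.Adj u z ∧ ¬ T3 G u z) := by
    intro u
    by_cases hu : I G u
    · obtain ⟨x, y, z, -, -, -, -, -, h1, h2, -⟩ := I_tri hG hS hu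
      exact ⟨z, fun _ => ⟨h1, h2⟩⟩
    · exact ⟨u, fun h => absurd h hu⟩
  choose pt hpt using hport
  -- no chosen vertex of a dead triangle is close
  have N0 : ∀ j, I G j → Mj G c j → ¬ Dd G c j → ∀ z ∈ Zc, Cl G j z → z ∈ ZS ∨ ZA G c z := by
    intro j hj hm hd z hz hcl
    rcases hz with hz | hz | hz
    · exact Or.inl hz
    · exact Or.inr hz
    · exfalso
      obtain ⟨dz, ez⟩ := hEE z hz
      obtain ⟨k1, k2⟩ := hpt j hj
      rcases I_close hG hS h hj dz.1 hcl k1 k2 with h1 | ⟨h1, h2⟩ | ⟨m, h1, h2, h3⟩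
      · exact hd (dz.tr hG hS h1.symm).1
      · have dw := (dz.tr hG hS h2.symm).1
        obtain ⟨x, hx, cx⟩ := hm
        exact (mv hG hS h dw hj k1.symm (fun h => k2 h.symm)).1 x hx cx
      · exact ez m h2 h3 (tr.isI hG hj h1)
  have N2 : ∀ j w, I G j → Mj G c j → ¬ Dd G c j → G.Adj j w → ¬ T3 G j w → I G w →
      ∀ z ∈ Zc, ¬ Cl G j z := by
    intro j w hj hm hd hjw hT hw z hz hcl
    obtain ⟨w', k1, k2, k3, -⟩ := (sg z (N0 j hj hm hd z hz hcl)).cl_I hG hS h hj hcl.symm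
    have e := port_eq hG hS hj k1 k2 hjw hT
    subst e
    exact k3 hw
  have N3 : ∀ j, I G j → Mj G c j → ¬ Dd G c j → ∃ b, ∀ z ∈ Zc, Cl G j z → b ≠ l1 z := by
    intro j hj hm hd
    by_cases hex : ∃ z ∈ Zc, Cl G j z
    · obtain ⟨z, hz, hcl⟩ := hex
      refine ⟨!(l1 z), fun z' hz' hcl' => ?_⟩
      have m1 := N0 j hj hm hd z hz hcl
      have m2 := N0 j hj hm hd z' hz' hcl'
      rcases close_two hG hS h hj hm (sg z m1) (sg z' m2) hcl.symm hcl'.symm with e | ⟨e1, e2⟩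
      · subst e
        cases l1 z <;> simp
      · exact absurd e2 (P0 z z' m1 m2 e1)
    · exact ⟨true, fun z hz hcl => absurd ⟨z, hz, hcl⟩ hex⟩
  obtain ⟨W, hW⟩ := (Set.toFinite {W : Set V | ∃ μ, Ok G c Zc l1 W μ ∧ W3 G W}).exists_maximal
    ⟨∅, fun _ => true, ⟨fun u hu => absurd hu (Set.notMem_empty u),
      fun u hu => absurd hu (Set.notMem_empty u), fun u hu => absurd hu (Set.notMem_empty u),
      fun u hu => absurd hu (Set.notMem_empty u)⟩, fun u hu => absurd hu (Set.notMem_empty u)⟩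
  obtain ⟨⟨μ, hok, h3⟩, hmax⟩ := hW
  have hno : ∀ W', W ⊆ W' → ∀ μ', Ok G c Zc l1 W' μ' → W3 G W' → W' ⊆ W :=
    fun W' h1 μ' h2 h3 => hmax ⟨μ', h2, h3⟩ h1
  have N1 : ∀ j w u', I G j → (∀ u' ∈ W, ¬ tr G j u') → G.Adj j w → ¬ T3 G j w → u' ∈ W →
      Cl G j u' → I G w ∧ tr G w u' := by
    intro j w u' hj hun hjw hT hu' hcl
    rcases I_close hG hS h hj (hok.1 u' hu').1 hcl hjw hT with h1 | h1 | ⟨m, k1, k2, k3⟩
    · exact absurd h1 (hun u' hu')
    · exact h1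
    · obtain ⟨u'', l1, l2⟩ := h3 u' hu' m k2 k3 (tr.isI hG hj k1)
      exact absurd (tr.trans hG hS hj k1 l2) (hun u'' l1)
  have key : ∀ j w, I G j → Mj G c j → ¬ Dd G c j → (∀ u' ∈ W, ¬ tr G j u') → G.Adj j w →
      ¬ T3 G j w → I G w ∧ ¬ Mj G c w ∧ ¬ Dd G c w ∧ (∀ u' ∈ W, ¬ tr G w u') := by
    intro j w hj hm hd hun hjw hT
    have hjW : j ∉ W := fun h => hun j h (tr.refl _)
    have hTs : ¬ T3 G w j := fun h => hT h.symm
    have hwI : I G w := by
      by_contra hw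
      obtain ⟨b, hb⟩ := N3 j hj hm hd
      obtain ⟨μ', k1, -, -⟩ := hok.add b hj hm hd hun
        (fun u' hu' hcl => absurd (N1 j w u' hj hun hjw hT hu' hcl).1 hw) hb
      refine hjW (hno (insert j W) (Set.subset_insert _ _) μ' k1 ?_ (Set.mem_insert _ _))
      rintro u (rfl | hu) w' hw' hT' iw'
      · exact absurd (port_eq hG hS hj hw' hT' hjw hT ▸ iw') hw
      · obtain ⟨u'', h1, h2⟩ := h3 u hu w' hw' hT' iw'
        exact ⟨u'', Or.inr h1, h2⟩
    have hwun : ∀ u' ∈ W, ¬ tr G w u' := by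
      intro u' hu' htr
      obtain ⟨μ', k1, -, -⟩ := hok.add (!μ u') hj hm hd hun (by
        intro u'' hu'' hcl
        have h1 := (N1 j w u'' hj hun hjw hT hu'' hcl).2
        have h2 := hok.2.1 u' hu' u'' hu'' (tr.trans hG hS (hok.1 u' hu').1 htr.symm h1)
        subst h2
        cases μ u' <;> simp)
        (fun z hz hcl => absurd hcl (N2 j w hj hm hd hjw hT hwI z hz))
      refine hjW (hno (insert j W) (Set.subset_insert _ _) μ' k1 ?_ (Set.mem_insert _ _))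
      rintro u (rfl | hu) w' hw' hT' iw'
      · have e := port_eq hG hS hj hw' hT' hjw hT
        subst e
        exact ⟨u', Or.inr hu', htr⟩
      · obtain ⟨u'', h1, h2⟩ := h3 u hu w' hw' hT' iw'
        exact ⟨u'', Or.inr h1, h2⟩
    have hwd : ¬ Dd G c w := by
      intro hdw
      obtain ⟨x, hx, cx⟩ := hm
      exact (mv hG hS h hdw hj hjw.symm hTs).1 x hx cx
    refine ⟨hwI, ?_, hwd, hwun⟩
    intro hmw
    obtain ⟨μ', k1, k2, k3⟩ := hok.add false hwI hmw hwd hwun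
      (fun u' hu' hcl => absurd (N1 w j u' hwI hwun hjw.symm hTs hu' hcl).2 (hun u' hu'))
      (fun z hz hcl => absurd hcl (N2 w j hwI hmw hwd hjw.symm hTs hj z hz))
    have hun' : ∀ u' ∈ (insert w W : Set V), ¬ tr G j u' := by
      rintro u' (rfl | hu') htr
      · rcases htr with e | e
        · exact hjw.ne e
        · exact hT e
      · exact hun u' hu' htr
    obtain ⟨μ'', j1, -, -⟩ := k1.add true hj hm hd hun' (by
      rintro u' (rfl | hu') hcl
      · rw [k2]; simp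
      · exact absurd (N1 j w u' hj hun hjw hT hu' hcl).2 (hwun u' hu'))
      (fun z hz hcl => absurd hcl (N2 j w hj hm hd hjw hT hwI z hz))
    refine hjW (hno (insert j (insert w W))
      (fun x hx => Or.inr (Or.inr hx)) μ'' j1 ?_ (Set.mem_insert _ _))
    rintro u (rfl | rfl | hu) w' hw' hT' iw'
    · have e := port_eq hG hS hj hw' hT' hjw hT
      subst e
      exact ⟨w', Or.inr (Or.inl rfl), tr.refl _⟩
    · have e := port_eq hG hS hwI hw' hT' hjw.symm hTs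
      subst e
      exact ⟨w', Or.inl rfl, tr.refl _⟩
    · obtain ⟨u'', h1, h2⟩ := h3 u hu w' hw' hT' iw'
      exact ⟨u'', Or.inr (Or.inr h1), h2⟩
  -- counting
  let M1 : Finset V := Finset.univ.filter (fun v => I G v ∧ Mj G c v ∧ ¬ Dd G c v ∧
    ∀ u' ∈ W, ¬ tr G v u')
  let m1 : Finset V := Finset.univ.filter (fun v => I G v ∧ ¬ Mj G c v ∧ ¬ Dd G c v ∧
    ∀ u' ∈ W, ¬ tr G v u')
  have hle : M1.card ≤ m1.card := by
    refine Finset.card_le_card_of_injOn pt ?_ ?_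
    · intro v hv
      obtain ⟨-, v1, v2, v3, v4⟩ := Finset.mem_filter.1 (Finset.mem_coe.1 hv)
      obtain ⟨p1, p2⟩ := hpt v v1
      exact Finset.mem_coe.2 (Finset.mem_filter.2 ⟨Finset.mem_univ _,
        key v (pt v) v1 v2 v3 v4 p1 p2⟩)
    · intro v hv v' hv' e
      obtain ⟨-, v1, v2, v3, v4⟩ := Finset.mem_filter.1 (Finset.mem_coe.1 hv)
      obtain ⟨-, v1', v2', v3', v4'⟩ := Finset.mem_filter.1 (Finset.mem_coe.1 hv')
      obtain ⟨p1, p2⟩ := hpt v v1
      obtain ⟨p1', p2'⟩ := hpt v' v1'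
      rw [← e] at p1' p2'
      have hpI := (key v (pt v) v1 v2 v3 v4 p1 p2).1
      exact port_eq hG hS hpI p1.symm (fun h => p2 h.symm) p1'.symm (fun h => p2' h.symm)
  have hg : ∀ v, ∃ x y, v ∈ m1 → (x ∈ M1 ∧ y ∈ M1 ∧ tr G v x ∧ tr G v y ∧ x ≠ y) := by
    intro v
    by_cases hv : v ∈ m1
    · obtain ⟨-, v1, v2, v3, v4⟩ := Finset.mem_filter.1 hv
      obtain ⟨x, y, z, hxy, tx, ty, txy, hT, -⟩ := I_tri hG hS v1
      have cx : c x ≠ c v := fun e => v2 ⟨x, tx, e⟩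
      have cy : c y ≠ c v := fun e => v2 ⟨y, ty, e⟩
      have cxy := eq_of_ne_ne cx cy
      refine ⟨x, y, fun _ => ⟨Finset.mem_filter.2 ⟨Finset.mem_univ _, v1.nb hG tx,
        ⟨y, txy, cxy.symm⟩, fun hd => cx (hd.2 v tx.symm).symm, fun u' hu' htr =>
          v4 u' hu' (tr.trans hG hS v1 (Or.inr tx) htr)⟩,
        Finset.mem_filter.2 ⟨Finset.mem_univ _, v1.nb hG ty,
        ⟨x, txy.symm, cxy⟩, fun hd => cy (hd.2 v ty.symm).symm, fun u' hu' htr =>
          v4 u' hu' (tr.trans hG hS v1 (Or.inr ty) htr)⟩, Or.inr tx, Or.inr ty, hxy⟩⟩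
    · exact ⟨v, v, fun h => absurd h hv⟩
  choose g1 g2 hg using hg
  have hm1 : ∀ v v', v ∈ m1 → v' ∈ m1 → tr G v v' → v = v' := by
    intro v v' hv hv' htr
    obtain ⟨-, v1, v2, v3, v4⟩ := Finset.mem_filter.1 hv
    obtain ⟨-, v1', v2', v3', v4'⟩ := Finset.mem_filter.1 hv'
    exact min_unique hG hS v1 v2 v2' htr
  have hmI : ∀ v, v ∈ m1 → I G v := fun v hv => (Finset.mem_filter.1 hv).2.1
  have hempty : m1 = ∅ := by
    by_contra hne
    obtain ⟨v0, hv0⟩ := Finset.nonempty_iff_ne_empty.2 hne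
    obtain ⟨-, b2, -, b4, b5⟩ := hg v0 hv0
    have hlt : m1.card ≤ (M1.erase (g2 v0)).card := by
      refine Finset.card_le_card_of_injOn g1 ?_ ?_
      · intro v hv
        have hv := Finset.mem_coe.1 hv
        obtain ⟨a1, -, a3, -, a5⟩ := hg v hv
        refine Finset.mem_coe.2 (Finset.mem_erase.2 ⟨fun e => ?_, a1⟩)
        have e1 : v = v0 := by
          apply hm1 v v0 hv hv0
          rw [e] at a3
          exact tr.trans hG hS (hmI v hv) a3 b4.symm
        subst e1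
        exact a5 e
      · intro v hv v' hv' e
        have hv := Finset.mem_coe.1 hv
        have hv' := Finset.mem_coe.1 hv'
        obtain ⟨-, -, a3, -, -⟩ := hg v hv
        obtain ⟨-, -, a3', -, -⟩ := hg v' hv'
        rw [← e] at a3'
        exact hm1 v v' hv hv' (tr.trans hG hS (hmI v hv) a3 a3'.symm)
    rw [Finset.card_erase_of_mem b2] at hlt
    have : 0 < M1.card := Finset.card_pos.2 ⟨_, b2⟩
    omega
  have hM1 : M1 = ∅ := by
    rw [hempty] at hle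
    exact Finset.card_eq_zero.1 (Nat.le_zero.1 hle)
  refine ⟨W, μ, hok.1, ?_, hok.2.2.1, fun u hu z hz hcl => hok.2.2.2 u hu z hz hcl⟩
  intro u hu hd
  by_contra hcon
  push Not at hcon
  by_cases hm : Mj G c u
  · have : u ∈ M1 := Finset.mem_filter.2 ⟨Finset.mem_univ _, hu, hm, hd, hcon⟩
    rw [hM1] at this
    exact absurd this (Finset.notMem_empty u)
  · have : u ∈ m1 := Finset.mem_filter.2 ⟨Finset.mem_univ _, hu, hm, hd, hcon⟩
    rw [hempty] at this
    exact absurd this (Finset.notMem_empty u)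

end Pool.Agent.N370.SQ
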