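import Pool.Agent.N370.SQ.Phase4

/-!
# Cubic graphs with a cycle of length 3 or 4 at every vertex
-/

set_option autoImplicit false

namespace Pool.Agent.N370.SQ

open Pool.Agent.N370.CF (IsPacking PackingColourable packing_one packing_mono walk_of_le)

variable {V : Type*} {G : SimpleGraph V}

/-- monochromatic edges in triangles -/
theorem mono_tri [Fintype V] (hG : Cub G) (hS : Short G) {c : V → Bool} {Z : Set V}
    (hdd : ∀ u, Dd G c u → ∃ u1 u2, u1 ∈ Z ∧ u2 ∈ Z ∧ u1 ≠ u2 ∧ tr G u u1 ∧ tr G u u2)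
    (hnd : ∀ u, I G u → ¬ Dd G c u → ∃ u' ∈ Z, tr G u u' ∧ Mj G c u')
    {u v : V} (hu : I G u) (hT : T3 G u v) (uZ : u ∉ Z) (vZ : v ∉ Z) : c u ≠ c v := by
  intro hc
  obtain ⟨x, y, z, hxy, tx, ty, txy, hN, -⟩ := I_tri hG hS hu
  -- the third vertex `o`
  have hthird : ∃ o, v ≠ o ∧ T3 G u o ∧ T3 G v o ∧ ∀ w, T3 G u w → w = v ∨ w = o := by
    rcases hN v hT with e | e
    · subst e; exact ⟨y, hxy, ty, txy, hN⟩
    · subst e; exact ⟨x, hxy.symm, tx, txy.symm, fun w hw => (hN w hw).symm⟩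
  obtain ⟨o, hvo, tuo, tvo, hN'⟩ := hthird
  have htr : ∀ u', tr G u u' → u' ∈ Z → u' = o := by
    rintro u' (e | e) hu'
    · subst e; exact absurd hu' uZ
    · rcases hN' u' e with e' | e'
      · subst e'; exact absurd hu' vZ
      · exact e'
  by_cases hd : Dd G c u
  · obtain ⟨u1, u2, h1, h2, h3, h4, h5⟩ := hdd u hd
    exact h3 ((htr u1 h4 h1).trans (htr u2 h5 h2).symm)
  · obtain ⟨u', h1, h2, h3⟩ := hnd u hu hd
    have e := htr u' h2 h1
    subst e
    obtain ⟨x', hx', cx'⟩ := h3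
    obtain ⟨p, q, r, hpq, tp, tq, tpq, hM, -⟩ := I_tri hG hS (hu.nb hG tuo)
    have huv : u ≠ v := hT.1.ne
    have hx'' : x' = u ∨ x' = v := by
      rcases hM x' hx' with e | e <;> rcases hM u tuo.symm with e1 | e1 <;>
        rcases hM v tvo.symm with e2 | e2
      · exact absurd (e1.trans e2.symm) huv
      · exact Or.inl (e.trans e1.symm)
      · exact Or.inr (e.trans e2.symm)
      · exact absurd (e1.trans e2.symm) huv
      · exact absurd (e1.trans e2.symm) huv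
      · exact Or.inr (e.trans e2.symm)
      · exact Or.inl (e.trans e1.symm)
      · exact absurd (e1.trans e2.symm) huv
    have cu' : c u' = c u := by
      rcases hx'' with e | e
      · rw [← cx', e]
      · rw [← cx', e, ← hc]
    apply hd
    refine ⟨hu, fun w hw => ?_⟩
    rcases hN' w hw with e | e
    · rw [e, hc]
    · rw [e, cu']

theorem colourable_of_short [Fintype V] (hG : Cub G) (hS : Short G) :
    PackingColourable G ![1, 1, 2, 2] := by
  classical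
  rcases isEmpty_or_nonempty V with hV | hV
  · exact ⟨fun _ => 0, fun _ u _ => isEmptyElim u⟩
  obtain ⟨c, h, hgd⟩ := exists_good hG hS
  obtain ⟨EE, ZS, lE, e1, e2, e3, e4, e5, e6, e7⟩ := phase2 hG hS h hgd
  obtain ⟨P0, l1, hl1⟩ := phase3 hG hS h e1 e3 e4 e5 e6 e7
  obtain ⟨W, μ, w1, w2, w3, w4⟩ := phase4 (l1 := l1) hG hS h e1 e4 P0
  let Z : Set V := {z | (z ∈ ZS ∨ ZA G c z ∨ z ∈ EE) ∨ z ∈ W}
  let lam : V → Bool := fun z => if z ∈ W then μ z else l1 z
  have nW : ∀ z, (z ∈ ZS ∨ ZA G c z ∨ z ∈ EE) → z ∉ W := by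
    rintro z (hz | hz | hz) hw
    · exact (w1 z hw).1.1 (e4 z hz).1
    · exact (w1 z hw).1.1 hz.1
    · exact (w1 z hw).2.2 (e1 z hz).1
  have lW : ∀ z, z ∈ W → lam z = μ z := fun z hz => if_pos hz
  have lN : ∀ z, (z ∈ ZS ∨ ZA G c z ∨ z ∈ EE) → lam z = l1 z := fun z hz => if_neg (nW z hz)
  have hZ2 : ∀ z ∈ Z, ∀ z' ∈ Z, Cl G z z' → lam z ≠ lam z' := by
    rintro z (hz | hz) z' (hz' | hz') hcl
    · rw [lN z hz, lN z' hz']; exact hl1 z z' hz hz' hcl
    · rw [lN z hz, lW z' hz']; exact (w4 z' hz' z hz hcl.symm).symm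
    · rw [lW z hz, lN z' hz']; exact w4 z hz z' hz' hcl
    · rw [lW z hz, lW z' hz']; exact w3 z hz z' hz' hcl
  have hI : ∀ u v, u ∉ Z → v ∉ Z → G.Adj u v → I G u → c u ≠ c v := by
    intro u v hu hv huv iu
    by_cases hT : T3 G u v
    · refine mono_tri hG hS (Z := Z) ?_ ?_ iu hT hu hv
      · intro u hd
        obtain ⟨u1, u2, h1, h2, h3, h4, h5⟩ := e2 u hd
        exact ⟨u1, u2, Or.inl (Or.inr (Or.inr h1)), Or.inl (Or.inr (Or.inr h2)), h3, h4, h5⟩
      · intro u iu hd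
        obtain ⟨u', h1, h2⟩ := w2 u iu hd
        exact ⟨u', Or.inr h1, h2, (w1 u' h1).2.1⟩
    · exact h.token hG hS iu huv hT
  have hA : ∀ u v, v ∉ Z → G.Adj u v → A G u → c u ≠ c v := by
    intro u v hv huv hu hc
    obtain ⟨x, y, z, a, b, hxy, hxz, hyz, hvx, hvy, hvz, axy, hN, hT, hxa, hyb, hab, av, ay, bv,
      bx, Nx, Ny, ox, oy, oa, ob, cx, cy, ca, cb, cz⟩ := A_col hG hS h hu
    have e := h.unique hG hu.not_I hvx huv cx.symm hc
    subst e
    exact hv (Or.inl (Or.inr (Or.inl ⟨ox, u, hvx.symm, cx, hu⟩)))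
  have hZ1 : ∀ u v, u ∉ Z → v ∉ Z → G.Adj u v → c u ≠ c v := by
    intro u v hu hv huv
    rcases kinds (G := G) u with ku | ku | ku
    · rcases kinds (G := G) v with kv | kv | kv
      · intro hc
        have su : SS G c u := ⟨ku, v, huv, hc, kv⟩
        have sv : SS G c v := ⟨kv, u, huv.symm, hc.symm, ku⟩
        have h1 := e5 u v su sv huv hc
        have h2 : v ∉ ZS := fun h => hv (Or.inl (Or.inl h))
        exact hu (Or.inl (Or.inl (h1.2 h2)))
      · exact (hA v u hu huv.symm kv).symm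
      · exact (hI v u hv hu huv.symm kv).symm
    · exact hA u v hv huv ku
    · exact hI u v hu hv huv ku
  let f : V → Fin 4 := fun v => if v ∈ Z then (if lam v then 3 else 2) else (if c v then 1 else 0)
  have f0 : ∀ v, f v = 0 → v ∉ Z ∧ c v = false := by
    intro v hv
    by_cases h1 : v ∈ Z
    · by_cases h2 : lam v <;> simp [f, h1, h2] at hv
    · by_cases h2 : c v
      · simp [f, h1, h2] at hv
      · exact ⟨h1, by simpa using h2⟩
  have f1 : ∀ v, f v = 1 → v ∉ Z ∧ c v = true := by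
    intro v hv
    by_cases h1 : v ∈ Z
    · by_cases h2 : lam v <;> simp [f, h1, h2] at hv
    · by_cases h2 : c v
      · exact ⟨h1, h2⟩
      · simp [f, h1, h2] at hv
  have f2 : ∀ v, f v = 2 → v ∈ Z ∧ lam v = false := by
    intro v hv
    by_cases h1 : v ∈ Z
    · by_cases h2 : lam v
      · simp [f, h1, h2] at hv
      · exact ⟨h1, by simpa using h2⟩
    · by_cases h2 : c v <;> simp [f, h1, h2] at hv
  have f3 : ∀ v, f v = 3 → v ∈ Z ∧ lam v = true := by
    intro v hv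
    by_cases h1 : v ∈ Z
    · by_cases h2 : lam v
      · exact ⟨h1, h2⟩
      · simp [f, h1, h2] at hv
    · by_cases h2 : c v <;> simp [f, h1, h2] at hv
  refine ⟨f, ?_⟩
  intro i
  fin_cases i
  · show IsPacking G 1 {v | f v = 0}
    exact packing_one fun u hu v hv huv =>
      hZ1 u v (f0 u hu).1 (f0 v hv).1 huv ((f0 u hu).2.trans (f0 v hv).2.symm)
  · show IsPacking G 1 {v | f v = 1}
    exact packing_one fun u hu v hv huv =>
      hZ1 u v (f1 u hu).1 (f1 v hv).1 huv ((f1 u hu).2.trans (f1 v hv).2.symm)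
  · show IsPacking G 2 {v | f v = 2}
    exact packing_two
      (fun u hu v hv huv => hZ2 u (f2 u hu).1 v (f2 v hv).1 ⟨huv.ne, Or.inl huv⟩
        ((f2 u hu).2.trans (f2 v hv).2.symm))
      (fun u hu v hv hne w h1 h2 => hZ2 u (f2 u hu).1 v (f2 v hv).1 ⟨hne, Or.inr ⟨w, h1, h2⟩⟩
        ((f2 u hu).2.trans (f2 v hv).2.symm))
  · show IsPacking G 2 {v | f v = 3}
    exact packing_two
      (fun u hu v hv huv => hZ2 u (f3 u hu).1 v (f3 v hv).1 ⟨huv.ne, Or.inl huv⟩
        ((f3 u hu).2.trans (f3 v hv).2.symm))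
      (fun u hu v hv hne w h1 h2 => hZ2 u (f3 u hu).1 v (f3 v hv).1 ⟨hne, Or.inr ⟨w, h1, h2⟩⟩
        ((f3 u hu).2.trans (f3 v hv).2.symm))

theorem t3_of {v : V} (h : ∃ p : G.Walk v v, p.IsCycle ∧ p.length = 3) : ∃ x, T3 G v x := by
  obtain ⟨p, -, hl⟩ := h
  match p, hl with
  | .cons (v := a) h1 (.cons (v := b) h2 (.cons h3 .nil)), _ => exact ⟨a, h1, b, h3.symm, h2⟩

theorem on_of {v : V} (h : ∃ p : G.Walk v v, p.IsCycle ∧ p.length = 4) : On G v := by
  obtain ⟨a, s, b, h1, h2, h3, h4, h5, h6⟩ := c4_of h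
  exact ⟨a, h1, s, b, h2, h3, h4, h5, h6⟩

theorem short_of (h : ∀ v : V, ∃ p : G.Walk v v, p.IsCycle ∧ (p.length = 3 ∨ p.length = 4)) :
    Short G := by
  intro v
  obtain ⟨p, hp, hl | hl⟩ := h v
  · exact Or.inr (t3_of ⟨p, hp, hl⟩)
  · exact Or.inl (on_of ⟨p, hp, hl⟩)

end Pool.Agent.N370.SQ
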