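import Pool.Agent.N370.SQ.Cut

/-!
# Weighted cuts; kinds of vertices
-/

set_option autoImplicit false

namespace Pool.Agent.N370.SQ

variable {V : Type*} (G : SimpleGraph V)

/-- the edge `u v` is in a triangle -/
def T3 (u v : V) : Prop := G.Adj u v ∧ ∃ w, G.Adj u w ∧ G.Adj v w

/-- `v` is on a 4-cycle -/
def On (v : V) : Prop := ∃ u, C4 G v u

/-- every vertex is on a triangle or a 4-cycle -/
def Short : Prop := ∀ v, On G v ∨ ∃ x, T3 G v x

/-- vertices of isolated triangles -/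
def I (v : V) : Prop := ¬ On G v ∧ ∀ x, T3 G v x → ¬ On G x

/-- vertices not on a 4-cycle with a neighbour in a common triangle which is on a 4-cycle -/
def A (v : V) : Prop := ¬ On G v ∧ ∃ x, T3 G v x ∧ On G x

variable {G}

theorem T3.symm {u v : V} (h : T3 G u v) : T3 G v u :=
  ⟨h.1.symm, h.2.elim fun w hw => ⟨w, hw.2, hw.1⟩⟩

theorem C4.on {u v : V} (h : C4 G u v) : On G u := ⟨v, h⟩

theorem On.not_I {v : V} (h : On G v) : ¬ I G v := fun h' => h'.1 h

theorem On.not_A {v : V} (h : On G v) : ¬ A G v := fun h' => h'.1 h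

theorem A.not_I {v : V} (h : A G v) : ¬ I G v := fun h' => by
  obtain ⟨-, x, h1, h2⟩ := h
  exact h'.2 x h1 h2

theorem kinds (v : V) : On G v ∨ A G v ∨ I G v := by
  by_cases h : On G v
  · exact Or.inl h
  · by_cases h2 : ∃ x, T3 G v x ∧ On G x
    · exact Or.inr (Or.inl ⟨h, h2⟩)
    · push Not at h2
      exact Or.inr (Or.inr ⟨h, h2⟩)

theorem On.square {v : V} (h : On G v) : ∃ a s b, G.Adj v a ∧ G.Adj a s ∧ G.Adj s b ∧ G.Adj b v ∧
    v ≠ s ∧ a ≠ b := by
  obtain ⟨u, h0, p, q, h1, h2, h3, h4, h5⟩ := h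
  exact ⟨u, p, q, h0, h1, h2, h3, h4, h5⟩

/-- Neighbours of a vertex which is not on a 4-cycle. -/
theorem off_struct (hG : Cub G) (hS : Short G) {v : V} (hv : ¬ On G v) :
    ∃ x y z, x ≠ y ∧ x ≠ z ∧ y ≠ z ∧ G.Adj v x ∧ G.Adj v y ∧ G.Adj v z ∧ G.Adj x y ∧
      (∀ w, G.Adj v w → w = x ∨ w = y ∨ w = z) ∧ T3 G v x ∧ T3 G v y ∧ ¬ T3 G v z := by
  obtain ⟨x, hvx, y, hvy, hxy⟩ := (hS v).resolve_left hv
  obtain ⟨z, zx, zy, hvz, hN⟩ := third hG hvx hvy hxy.ne
  refine ⟨x, y, z, hxy.ne, zx.symm, zy.symm, hvx, hvy, hvz, hxy, hN, ⟨hvx, y, hvy, hxy⟩,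
    ⟨hvy, x, hvx, hxy.symm⟩, ?_⟩
  rintro ⟨-, w, hvw, hzw⟩
  rcases hN w hvw with rfl | rfl | rfl
  · exact hv ⟨z, hvz, w, y, hzw, hxy, hvy.symm, hvx.ne, zy⟩
  · exact hv ⟨z, hvz, w, x, hzw, hxy.symm, hvx.symm, hvy.ne, zx⟩
  · exact hzw.ne rfl

theorem I.nb (hG : Cub G) {v x : V} (hv : I G v) (h : T3 G v x) : I G x := by
  obtain ⟨hvx, y, hvy, hxy⟩ := h
  refine ⟨hv.2 x ⟨hvx, y, hvy, hxy⟩, ?_⟩
  intro x' hx'
  obtain ⟨t, ty, tv, hxt, hN⟩ := third hG hxy hvx.symm hvy.ne.symm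
  rcases hN x' hx'.1 with rfl | rfl | rfl
  · exact hv.2 _ ⟨hvy, x, hvx, hxy.symm⟩
  · exact hv.1
  · exfalso
    apply hv.2 x ⟨hvx, y, hvy, hxy⟩
    obtain ⟨-, w, hxw, hx'w⟩ := hx'
    rcases hN w hxw with rfl | rfl | rfl
    · exact ⟨x', hxt, w, v, hx'w, hvy.symm, hvx, hxy.ne, tv⟩
    · exact ⟨x', hxt, w, y, hx'w, hvy, hxy.symm, hvx.ne.symm, ty⟩
    · exact absurd rfl hx'w.ne

theorem I_struct (hG : Cub G) (hS : Short G) {v : V} (hv : I G v) :
    ∃ x y z, x ≠ y ∧ x ≠ z ∧ y ≠ z ∧ G.Adj v x ∧ G.Adj v y ∧ G.Adj v z ∧ G.Adj x y ∧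
      (∀ w, G.Adj v w → w = x ∨ w = y ∨ w = z) ∧ T3 G v x ∧ T3 G v y ∧ ¬ T3 G v z ∧
      I G x ∧ I G y := by
  obtain ⟨x, y, z, h1, h2, h3, h4, h5, h6, h7, h8, h9, h10, h11⟩ := off_struct hG hS hv.1
  exact ⟨x, y, z, h1, h2, h3, h4, h5, h6, h7, h8, h9, h10, h11, hv.nb hG h9, hv.nb hG h10⟩

/-- Structure at an apex `v`. -/
theorem A_struct (hG : Cub G) (hS : Short G) {v : V} (hv : A G v) :
    ∃ x y z a b, x ≠ y ∧ x ≠ z ∧ y ≠ z ∧ G.Adj v x ∧ G.Adj v y ∧ G.Adj v z ∧ G.Adj x y ∧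
      (∀ w, G.Adj v w → w = x ∨ w = y ∨ w = z) ∧ ¬ T3 G v z ∧
      G.Adj x a ∧ G.Adj y b ∧ G.Adj a b ∧ a ≠ v ∧ a ≠ y ∧ b ≠ v ∧ b ≠ x ∧
      (∀ w, G.Adj x w → w = v ∨ w = y ∨ w = a) ∧ (∀ w, G.Adj y w → w = v ∨ w = x ∨ w = b) := by
  obtain ⟨hoff, x', hx', hox⟩ := hv
  obtain ⟨x, y, z, h1, h2, h3, h4, h5, h6, h7, h8, h9, h10, h11⟩ := off_struct hG hS hoff
  -- one of `x`, `y` is on a 4-cycle
  have main : ∀ x y, G.Adj v x → G.Adj v y → G.Adj x y → On G x → ∃ a b,
      G.Adj x a ∧ G.Adj y b ∧ G.Adj a b ∧ a ≠ v ∧ a ≠ y ∧ b ≠ v ∧ b ≠ x ∧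
      (∀ w, G.Adj x w → w = v ∨ w = y ∨ w = a) ∧ (∀ w, G.Adj y w → w = v ∨ w = x ∨ w = b) := by
    intro x y hvx hvy hxy hon
    obtain ⟨a, av, ay, hxa, Nx⟩ := third hG hvx.symm hxy hvy.ne
    obtain ⟨b, bv, bx, hyb, Ny⟩ := third hG hvy.symm hxy.symm hvx.ne
    refine ⟨a, b, hxa, hyb, ?_, av, ay, bv, bx, Nx, Ny⟩
    obtain ⟨p, q, r, k1, k2, k3, k4, k5, k6⟩ := hon.square
    have hpv : p ≠ v := by
      rintro rfl
      exact hoff ⟨q, k2, r, x, k3, k4, k1, k6, k5.symm⟩
    have hrv : r ≠ v := by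
      rintro rfl
      exact hoff ⟨q, k3.symm, p, x, k2.symm, k1.symm, k4.symm, k6.symm, k5.symm⟩
    have hqv : q ≠ v := by
      rintro rfl
      exact hoff ⟨p, k2.symm, x, r, k1.symm, k4.symm, k3.symm, k5.symm, k6⟩
    have hyq : ∀ q, G.Adj y q → x ≠ q → q ≠ v → q = b := by
      intro q hq1 hq2 hq3
      rcases Ny q hq1 with h | h | h
      · exact absurd h hq3
      · exact absurd h.symm hq2
      · exact h
    rcases Nx p k1 with h | h | h
    · exact absurd h hpv
    · rcases Nx r k4.symm with h' | h' | h'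
      · exact absurd h' hrv
      · exact absurd (h.trans h'.symm) k6
      · subst h; subst h'
        rw [← hyq q k2 k5 hqv]
        exact k3.symm
    · rcases Nx r k4.symm with h' | h' | h'
      · exact absurd h' hrv
      · subst h; subst h'
        rw [← hyq q k3.symm k5 hqv]
        exact k2
      · exact absurd (h.trans h'.symm) k6
  have hxx : x' = x ∨ x' = y := by
    rcases h8 x' hx'.1 with h | h | h
    · exact Or.inl h
    · exact Or.inr h
    · subst h; exact absurd hx' h11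
  rcases hxx with rfl | rfl
  · obtain ⟨a, b, k⟩ := main x' y h4 h5 h7 hox
    exact ⟨x', y, z, a, b, h1, h2, h3, h4, h5, h6, h7, h8, h11, k⟩
  · obtain ⟨a, b, k⟩ := main x' x h5 h4 h7.symm hox
    exact ⟨x', x, z, a, b, h1.symm, h3, h2, h5, h4, h6, h7.symm,
      fun w hw => by rcases h8 w hw with h | h | h <;> simp [h], h11, k⟩

variable (G) in
open Classical in
/-- the weight of an edge -/
noncomputable def wt (u v : V) : ℤ :=
  if G.Adj u v then
    (if C4 G u v then 22 else if T3 G u v ∧ I G u then 10 else if I G u ∨ I G v then 21 else 20)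
  else 0

theorem wt_symm (hG : Cub G) (u v : V) : wt G u v = wt G v u := by
  have h2 : C4 G u v ↔ C4 G v u := ⟨C4.symm, C4.symm⟩
  have h3 : (T3 G u v ∧ I G u) ↔ (T3 G v u ∧ I G v) :=
    ⟨fun h => ⟨h.1.symm, h.2.nb hG h.1⟩, fun h => ⟨h.1.symm, h.2.nb hG h.1⟩⟩
  have h4 : (I G u ∨ I G v) ↔ (I G v ∨ I G u) := or_comm
  unfold wt
  by_cases a1 : G.Adj u v
  · have b1 := a1.symm
    by_cases a2 : C4 G u v
    · have b2 := h2.1 a2
      simp only [a1, b1, a2, b2, if_true]
    · have b2 : ¬ C4 G v u := fun h => a2 (h2.2 h)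
      by_cases a3 : T3 G u v ∧ I G u
      · have b3 := h3.1 a3
        rw [if_pos a1, if_pos b1, if_neg a2, if_neg b2, if_pos a3, if_pos b3]
      · have b3 : ¬ (T3 G v u ∧ I G v) := fun h => a3 (h3.2 h)
        rw [if_pos a1, if_pos b1, if_neg a2, if_neg b2, if_neg a3, if_neg b3]
        by_cases a4 : I G u ∨ I G v
        · rw [if_pos a4, if_pos (h4.1 a4)]
        · rw [if_neg a4, if_neg (fun h => a4 (h4.2 h))]
  · rw [if_neg a1, if_neg (fun h => a1 h.symm)]

theorem wt_not {u v : V} (h : ¬ G.Adj u v) : wt G u v = 0 := by simp [wt, h]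

theorem wt_nonneg (u v : V) : 0 ≤ wt G u v := by
  unfold wt
  split_ifs <;> norm_num

theorem wt_le (u v : V) : wt G u v ≤ 22 := by
  unfold wt
  split_ifs <;> norm_num

theorem wt_ge_ten {u v : V} (h : G.Adj u v) : 10 ≤ wt G u v := by
  simp only [wt, h, if_true]
  split_ifs <;> norm_num

theorem wt_ge {u v : V} (h : G.Adj u v) (hu : ¬ I G u) : 20 ≤ wt G u v := by
  simp only [wt, h, if_true]
  split_ifs with h1 h2 h3
  · norm_num
  · exact absurd h2.2 hu
  · norm_num
  · norm_num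

theorem wt_c4 {u v : V} (h : C4 G u v) : wt G u v = 22 := by
  simp [wt, h.1, h]

theorem wt_noc4 {u v : V} (h : ¬ C4 G u v) : wt G u v ≤ 21 := by
  unfold wt
  split_ifs <;> norm_num

theorem wt_inner {u v : V} (hu : I G u) (h : T3 G u v) : wt G u v = 10 := by
  have h1 : ¬ C4 G u v := fun h' => hu.1 h'.on
  simp [wt, h.1, h1, h, hu]

theorem wt_port {u v : V} (hu : I G u) (h : G.Adj u v) (hv : ¬ T3 G u v) : wt G u v = 21 := by
  have h1 : ¬ C4 G u v := fun h' => hu.1 h'.on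
  simp [wt, h, h1, hv, hu]

theorem wt_plain {u v : V} (h : G.Adj u v) (h4 : ¬ C4 G u v) (hu : ¬ I G u) (hv : ¬ I G v) :
    wt G u v = 20 := by
  simp [wt, h, h4, hu, hv]

/-- sign of a pair -/
def sg (c : V → Bool) (u v : V) : ℤ := if c u = c v then -1 else 1

theorem sg_symm (c : V → Bool) (u v : V) : sg c u v = sg c v u := by
  unfold sg
  by_cases h : c u = c v
  · simp [h]
  · have : ¬ c v = c u := fun e => h e.symm
    simp [h, this]

variable (G) in
/-- the cost of a colouring -/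
noncomputable def cost [Fintype V] (c : V → Bool) : ℤ :=
  ∑ u, ∑ v, if c u = c v then wt G u v else 0

variable (G) in
open Classical in
/-- contribution of the pair `u v` to the change of the cost when `X` is flipped -/
noncomputable def ev (c : V → Bool) (X : Set V) (u v : V) : ℤ :=
  if v ∈ X then 0 else wt G u v * sg c u v

variable (G) in
open Classical in
/-- half of the change of the cost when `X` is flipped -/
noncomputable def D [Fintype V] (c : V → Bool) (X : Set V) : ℤ :=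
  ∑ u, if u ∈ X then ∑ v, ev G c X u v else 0

open Classical in
theorem cost_flip [Fintype V] (hG : Cub G) (c : V → Bool) (X : Set V) :
    cost G (flip c X) = cost G c + 2 * D G c X := by
  have h0 : ∀ u v, (if flip c X u = flip c X v then wt G u v else 0) =
      (if c u = c v then wt G u v else 0) + (if u ∈ X then ev G c X u v else 0) +
        (if v ∈ X then ev G c X v u else 0) := by
    intro u v
    have hs := sg_symm c u v
    have hw := wt_symm hG u v
    by_cases hu : u ∈ X <;> by_cases hv : v ∈ X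
    · simp only [flip_in hu, flip_in hv, ev, hu, hv, if_true, add_zero]
      by_cases hc : c u = c v <;> simp [hc]
    · simp only [flip_in hu, flip_out hv, ev, hu, hv, if_true, if_false, add_zero, sg]
      by_cases hc : c u = c v
      · have : ¬ ((!c u) = c v) := fun e => ne_of_not_eq e hc
        rw [if_neg this, if_pos hc, if_pos hc]; ring
      · have : (!c u) = c v := not_eq_of_ne hc
        rw [if_pos this, if_neg hc, if_neg hc]; ring
    · simp only [flip_out hu, flip_in hv, ev, hu, hv, if_true, if_false, add_zero]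
      rw [← hs, ← hw]
      simp only [sg]
      by_cases hc : c u = c v
      · have : ¬ (c u = !c v) := fun e => ne_of_not_eq e.symm hc.symm
        rw [if_neg this, if_pos hc, if_pos hc]; ring
      · have : c u = !c v := (not_eq_of_ne (fun e => hc e.symm)).symm
        rw [if_pos this, if_neg hc, if_neg hc]; ring
    · simp only [flip_out hu, flip_out hv, hu, hv, if_false, add_zero]
  have h1 : cost G (flip c X) = ∑ u, ∑ v, ((if c u = c v then wt G u v else 0) +
      (if u ∈ X then ev G c X u v else 0) + (if v ∈ X then ev G c X v u else 0)) := by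
    unfold cost
    exact Finset.sum_congr rfl fun u _ => Finset.sum_congr rfl fun v _ => h0 u v
  rw [h1]
  simp only [Finset.sum_add_distrib]
  have h2 : ∑ u, ∑ v, (if u ∈ X then ev G c X u v else 0) = D G c X := by
    unfold D
    refine Finset.sum_congr rfl fun u _ => ?_
    by_cases hu : u ∈ X <;> simp [hu]
  have h3 : ∑ u, ∑ v, (if v ∈ X then ev G c X v u else 0) = D G c X := by
    rw [Finset.sum_comm, ← h2]
  rw [h2, h3]
  unfold cost
  ring

variable (G) in
/-- minimal colourings -/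
def Mn [Fintype V] (c : V → Bool) : Prop := ∀ c', cost G c ≤ cost G c'

variable (G) in
theorem exists_mn [Fintype V] : ∃ c : V → Bool, Mn G c := Finite.exists_min (fun c => cost G c)

theorem Mn.nonneg [Fintype V] (hG : Cub G) {c : V → Bool} (h : Mn G c)
    (X : Set V) : 0 ≤ D G c X := by
  have h1 := h (flip c X)
  rw [cost_flip hG] at h1
  linarith

theorem Mn.of_flip [Fintype V] (hG : Cub G) {c : V → Bool} (h : Mn G c)
    {X : Set V} (hX : D G c X ≤ 0) : Mn G (flip c X) := by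
  intro c'
  rw [cost_flip hG]
  have := h c'
  linarith

/-- the sum over the neighbours of `u` -/
noncomputable def nr [Fintype V] (G : SimpleGraph V) (c : V → Bool) (X : Set V) (u : V) : ℤ :=
  ∑ v, ev G c X u v

open Classical in
theorem sum3 [Fintype V] {f : V → ℤ} {p q r : V} (hpq : p ≠ q) (hpr : p ≠ r) (hqr : q ≠ r)
    (hf : ∀ v, v ≠ p → v ≠ q → v ≠ r → f v = 0) : ∑ v, f v = f p + f q + f r := by
  have h1 : ∑ v, f v = ∑ v ∈ ({p, q, r} : Finset V), f v := by
    symm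
    refine Finset.sum_subset (Finset.subset_univ _) ?_
    intro v _ hv
    simp only [Finset.mem_insert, Finset.mem_singleton, not_or] at hv
    exact hf v hv.1 hv.2.1 hv.2.2
  rw [h1, Finset.sum_insert (by simp [hpq, hpr]), Finset.sum_insert (by simp [hqr]),
    Finset.sum_singleton]
  ring

theorem ev_not {c : V → Bool} {X : Set V} {u v : V} (h : ¬ G.Adj u v) : ev G c X u v = 0 := by
  unfold ev
  rw [wt_not h]
  split_ifs <;> simp

theorem nr_eq [Fintype V] {c : V → Bool} {X : Set V} {u p q r : V} (hpq : p ≠ q) (hpr : p ≠ r)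
    (hqr : q ≠ r) (hN : ∀ v, G.Adj u v → v = p ∨ v = q ∨ v = r) :
    nr G c X u = ev G c X u p + ev G c X u q + ev G c X u r := by
  unfold nr
  refine sum3 hpq hpr hqr ?_
  intro v h1 h2 h3
  refine ev_not fun h => ?_
  rcases hN v h with e | e | e
  · exact h1 e
  · exact h2 e
  · exact h3 e

theorem ev_in {c : V → Bool} {X : Set V} {u v : V} (h : v ∈ X) : ev G c X u v = 0 := by
  simp [ev, h]

theorem ev_le {c : V → Bool} {X : Set V} {u v : V} : ev G c X u v ≤ wt G u v := by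
  have h := wt_nonneg (G := G) u v
  unfold ev sg
  split_ifs <;> linarith

theorem ev_mono {c : V → Bool} {X : Set V} {u v : V} (h : v ∉ X) (hc : c u = c v) :
    ev G c X u v = - wt G u v := by
  simp [ev, h, sg, hc]

theorem ev_bi {c : V → Bool} {X : Set V} {u v : V} (h : v ∉ X) (hc : c u ≠ c v) :
    ev G c X u v = wt G u v := by
  simp [ev, h, sg, hc]

theorem D_eq [Fintype V] (c : V → Bool) (X : Set V) (s : Finset V) (hs : ∀ v, v ∈ s ↔ v ∈ X) :
    D G c X = ∑ u ∈ s, nr G c X u := by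
  classical
  unfold D nr
  symm
  calc ∑ u ∈ s, ∑ v, ev G c X u v
      = ∑ u ∈ s, (if u ∈ X then ∑ v, ev G c X u v else 0) :=
        Finset.sum_congr rfl fun u hu => (if_pos ((hs u).1 hu)).symm
    _ = ∑ u, (if u ∈ X then ∑ v, ev G c X u v else 0) :=
        Finset.sum_subset (Finset.subset_univ s) fun u _ hu => if_neg fun h => hu ((hs u).2 h)
    _ = _ := by
        refine Finset.sum_congr rfl fun u _ => ?_
        by_cases h : u ∈ X <;> simp [h]

theorem D_list [Fintype V] (c : V → Bool) (l : List V) (hl : l.Nodup) :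
    D G c {v | v ∈ l} = (l.map (nr G c {v | v ∈ l})).sum := by
  classical
  rw [D_eq c {v | v ∈ l} l.toFinset (by simp), List.sum_toFinset _ hl]

end Pool.Agent.N370.SQ
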